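import Mathlib
import Pool.Agent.RV15W.Defs

/-!
# RVP: the primitive of `y log x Ψ` on the line `-1/2 + iy` (Rodriguez-Villegas conjecture, discriminant -15)

Architecture: note 2808 (helper28).  Notation: `u = -1/2 + i y`, `p = m u + n`, `0⁻¹ = 0` everywhere.

Goal (file Main, `rvp_main`):
`96 ∫_{√15/6}^∞ s Ps(s) lr(s) ds = (27/π⁵) y0³ D2(y0) - 7 z3/(2π²)`, `y0 = √15/6`.
-/

set_option autoImplicit false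

open scoped ComplexConjugate

namespace RVP

noncomputable section

/-- `(-1)^m` -/
def sg (m : ℤ) : ℝ := if m % 2 = 0 then 1 else -1

/-- indicator of `3 ∣ m` -/
def t3 (m : ℤ) : ℝ := if m % 3 = 0 then 1 else 0

/-- the weight `c` of the double sum -/
def cw (a b : ℤ) : ℝ :=
  sg a * (-1 / 3 + t3 a + t3 (a + b) - 6 * t3 a * t3 b) + t3 b * (sg (a + b) - sg b)

/-- the weight `w` of the single sum -/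
def sw (m : ℤ) : ℝ := 1 / 6 - 6 * t3 m + sg m * (4 * t3 m - 1 / 3)

/-- the weight `ψ` -/
def ps (m : ℤ) : ℝ := (1 - sg m) * (1 - 9 * t3 m)

/-- the weight `φ` -/
def ph (m : ℤ) : ℝ := sg m * (1 + 3 * t3 m)

/-- the lattice point `m (-1/2 + i y) + n` -/
def pt (y : ℝ) (v : ℤ × ℤ) : ℂ := ⟨(v.2 : ℝ) - v.1 / 2, v.1 * y⟩

/-- `1 / p` (`0` at the origin) -/
def iv (y : ℝ) (v : ℤ × ℤ) : ℂ := (pt y v)⁻¹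

/-- `1 / conj p` (`0` at the origin) -/
def ic (y : ℝ) (v : ℤ × ℤ) : ℂ := (conj (pt y v))⁻¹

/-- the row sums `X_ab(m) = Σ_n p^{-a} (conj p)^{-b}` -/
def X (y : ℝ) (a b : ℕ) (m : ℤ) : ℂ := ∑' n : ℤ, iv y (m, n) ^ a * ic y (m, n) ^ b

/-- `W_ab = Σ_m ψ(m) X_ab(m)` -/
def W (y : ℝ) (a b : ℕ) : ℂ := ∑' m : ℤ, (ps m : ℂ) * X y a b m

/-- `e_2 = Σ_m φ(m) X_20(m)` -/
def e2 (y : ℝ) : ℂ := ∑' m : ℤ, (ph m : ℂ) * X y 2 0 m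

/-- `K = 1 / (p² r² p̄ q̄)`, `r = p + q` -/
def KK (y : ℝ) (x : (ℤ × ℤ) × (ℤ × ℤ)) : ℂ :=
  iv y x.1 ^ 2 * ic y x.1 * (iv y (x.1 + x.2) ^ 2 * ic y x.2)

/-- `1 / (p⁴ p̄²)` -/
def K1 (y : ℝ) (v : ℤ × ℤ) : ℂ := iv y v ^ 4 * ic y v ^ 2

/-- the primitive -/
def D2 (y : ℝ) : ℂ :=
  ∑' x : (ℤ × ℤ) × (ℤ × ℤ), (cw x.1.1 x.2.1 : ℂ) * KK y x + ∑' v : ℤ × ℤ, (sw v.1 : ℂ) * K1 y v

/-- `1` if `v ≠ 0`, else `0` -/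
def nz (v : ℤ × ℤ) : ℂ := if v = 0 then 0 else 1

/-- the part of type (5,1) of `(2/y²) d/dy (y³ K)` -/
def E51 (y : ℝ) (x : (ℤ × ℤ) × (ℤ × ℤ)) : ℂ :=
  2 * (iv y x.1 ^ 3 * iv y (x.1 + x.2) ^ 2 * ic y x.2)
    + 2 * (iv y x.1 ^ 2 * iv y (x.1 + x.2) ^ 3 * ic y x.2)
    + 2 * (iv y x.1 ^ 2 * iv y (x.1 + x.2) ^ 3 * ic y x.1 * nz x.2)

/-- the part of type (3,3) of `(2/y²) d/dy (y³ K)` -/
def E33 (y : ℝ) (x : (ℤ × ℤ) × (ℤ × ℤ)) : ℂ :=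
  iv y x.1 * iv y (x.1 + x.2) ^ 2 * ic y x.1 ^ 2 * ic y x.2
    + pt y x.2 * iv y x.1 ^ 2 * iv y (x.1 + x.2) ^ 2 * ic y x.1 * ic y x.2 ^ 2

/-- `(2/y²) d/dy (y³ / (p⁴ p̄²))` -/
def E1 (y : ℝ) (v : ℤ × ℤ) : ℂ := 4 * (iv y v ^ 5 * ic y v) + 2 * (iv y v ^ 3 * ic y v ^ 3)

/-- `(2/y²) d/dy (y³ D2)` -/
def DD (y : ℝ) : ℂ :=
  ∑' x : (ℤ × ℤ) × (ℤ × ℤ), (cw x.1.1 x.2.1 : ℂ) * (E51 y x + E33 y x) +
    ∑' v : ℤ × ℤ, (sw v.1 : ℂ) * E1 y v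

/-- the product part of the block `(i,j)` of `E51` -/
def P51 (y : ℝ) (w : ℤ × ℤ) : ℂ :=
  2 * X y 2 1 w.2 * (X y 3 0 w.1 + X y 3 0 (w.1 + w.2))
    - 2 * X y 3 1 w.2 * (X y 2 0 w.1 - X y 2 0 (w.1 + w.2))
    + 2 * X y 2 1 w.1 * X y 3 0 (w.1 + w.2)

/-- the contact part of the block `(i,j)` of `E51` -/
def C51 (y : ℝ) (w : ℤ × ℤ) : ℂ :=
  -(if w.1 = 0 then 4 * X y 5 1 w.2 else 0) + (if w.1 + w.2 = 0 then 4 * X y 5 1 w.1 else 0)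
    - (if w.2 = 0 then 2 * X y 5 1 w.1 else 0)

/-- the product part of the block `(i,j)` of `E33` -/
def P33 (y : ℝ) (w : ℤ × ℤ) : ℂ :=
  X y 2 1 w.1 * X y 1 2 w.2 + X y 2 1 w.1 * X y 1 2 (w.1 + w.2) + X y 2 1 w.2 * X y 1 2 (w.1 + w.2)
    + X y 2 2 w.2 * (X y 1 1 (w.1 + w.2) - X y 1 1 w.1)

/-- the contact part of the block `(i,j)` of `E33` -/
def C33 (y : ℝ) (w : ℤ × ℤ) : ℂ :=
  -(if w.1 = 0 then 2 * X y 3 3 w.2 else 0) + (if w.1 + w.2 = 0 then 2 * X y 3 3 w.1 else 0)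
    - (if w.2 = 0 then X y 3 3 w.1 else 0)

/-- `q = -exp (-2πy)`, real -/
def qr (y : ℝ) : ℝ := -Real.exp (-(2 * Real.pi * y))

/-- `Σ_{n,j ≥ 1} φ(j) q^{nj} / j` -/
def Lq (y : ℝ) : ℝ :=
  ∑' x : ℕ × ℕ, ph (x.2 + 1) * qr y ^ ((x.1 + 1) * (x.2 + 1)) / (x.2 + 1)

/-- `ℓ = log x = lr / 2` -/
def ell (y : ℝ) : ℝ := 3 * Real.log 2 - Real.pi * y - 3 * Lq y

/-- derivative of `ell` -/
def dell (y : ℝ) : ℝ :=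
  -Real.pi + 6 * Real.pi *
    ∑' x : ℕ × ℕ, ph (x.2 + 1) * (x.1 + 1) * qr y ^ ((x.1 + 1) * (x.2 + 1))

/-- the conditionally convergent sum `G = Σ_m φ(m) X_11(m)`, see RVP/GG -/
def G (y : ℝ) : ℂ := ((-(4 * Real.pi / 3) * ell y / y : ℝ) : ℂ)

/-- the block `m_p = 0`, `m_q = j` of the double sum -/
def B0 (y : ℝ) (j : ℤ) : ℂ := ∑' z : ℤ × ℤ, KK y ((0, z.1), (j, z.2))

end

end RVP
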