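import Mathlib
import Pool.Agent.RVP.Defs

/-!
# RVP/Bas: lattice points, norms, absolute convergence, parity and reflection of the row sums

`|m u + n|² = (n - m/2)² + m² y²` is increasing in `y`, and `≥ m² y²`, `≥ n²` if `m = 0`.
`summable_iv3`: compare with Mathlib's Eisenstein series bound (`EisensteinSeries.summand_bound`,
`EisensteinSeries.summable_one_div_norm_rpow`) or directly.
Reflection `n ↦ m - n` sends `p` to `-conj p`.
-/

set_option autoImplicit false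

open scoped ComplexConjugate
open Filter

namespace RVP

variable {y : ℝ}

theorem pt_add (y : ℝ) (v w : ℤ × ℤ) : pt y (v + w) = pt y v + pt y w := by
  apply Complex.ext <;> simp [pt] <;> ring

theorem pt_neg (y : ℝ) (v : ℤ × ℤ) : pt y (-v) = -pt y v := by
  apply Complex.ext <;> simp [pt]
  ring

theorem pt_refl (y : ℝ) (m n : ℤ) : pt y (m, m - n) = -conj (pt y (m, n)) := by
  apply Complex.ext <;> simp [pt]
  ring

theorem conj_iv (y : ℝ) (v : ℤ × ℤ) : conj (iv y v) = ic y v := by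
  simp [iv, ic]

theorem conj_ic (y : ℝ) (v : ℤ × ℤ) : conj (ic y v) = iv y v := by
  simp [iv, ic]

theorem iv_neg (y : ℝ) (v : ℤ × ℤ) : iv y (-v) = -iv y v := by
  simp [iv, pt_neg, inv_neg]

theorem ic_neg (y : ℝ) (v : ℤ × ℤ) : ic y (-v) = -ic y v := by
  simp [ic, pt_neg, inv_neg]

theorem iv_refl (y : ℝ) (m n : ℤ) : iv y (m, m - n) = -ic y (m, n) := by
  simp [iv, ic, pt_refl, inv_neg]

theorem ic_refl (y : ℝ) (m n : ℤ) : ic y (m, m - n) = -iv y (m, n) := by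
  simp [iv, ic, pt_refl, inv_neg]

theorem norm_ic (y : ℝ) (v : ℤ × ℤ) : ‖ic y v‖ = ‖iv y v‖ := by
  simp [iv, ic]

theorem iv_zero (y : ℝ) : iv y 0 = 0 := by
  have : pt y 0 = 0 := by apply Complex.ext <;> simp [pt]
  simp [iv, this]

theorem ic_zero (y : ℝ) : ic y 0 = 0 := by
  have : pt y 0 = 0 := by apply Complex.ext <;> simp [pt]
  simp [ic, this]

theorem pt_eq_zero (hy : 0 < y) {v : ℤ × ℤ} : pt y v = 0 ↔ v = 0 := by
  constructor
  · intro h
    have h1 := congrArg Complex.re h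
    have h2 := congrArg Complex.im h
    simp only [pt, Complex.zero_re, Complex.zero_im] at h1 h2
    have h3 : (v.1 : ℝ) = 0 := by
      rcases mul_eq_zero.mp h2 with h | h
      · exact h
      · exact absurd h hy.ne'
    rw [h3] at h1
    have h4 : (v.2 : ℝ) = 0 := by linarith
    ext
    · exact_mod_cast h3
    · exact_mod_cast h4
  · rintro rfl
    apply Complex.ext <;> simp [pt]

theorem pt_mul_iv (hy : 0 < y) (v : ℤ × ℤ) : pt y v * iv y v = nz v := by
  unfold nz iv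
  split_ifs with h
  · rw [(pt_eq_zero hy).mpr h]; simp
  · exact mul_inv_cancel₀ (fun h' => h ((pt_eq_zero hy).mp h'))

private lemma bas_norm_pt_sq (y : ℝ) (v : ℤ × ℤ) :
    ‖pt y v‖ ^ 2 = ((v.2 : ℝ) - v.1 / 2) ^ 2 + (v.1 * y) ^ 2 := by
  rw [← Complex.normSq_eq_norm_sq, Complex.normSq_apply]
  simp only [pt]
  ring

private lemma bas_norm_pt_mono {a : ℝ} (ha : 0 < a) (h : a ≤ y) (v : ℤ × ℤ) :
    ‖pt a v‖ ≤ ‖pt y v‖ := by
  have h1 : ‖pt a v‖ ^ 2 ≤ ‖pt y v‖ ^ 2 := by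
    rw [bas_norm_pt_sq, bas_norm_pt_sq]
    have : a ^ 2 ≤ y ^ 2 := by nlinarith
    nlinarith [mul_nonneg (sq_nonneg (v.1 : ℝ)) (sub_nonneg.mpr this)]
  exact le_of_sq_le_sq h1 (norm_nonneg _)

theorem norm_iv_anti {a : ℝ} (ha : 0 < a) (h : a ≤ y) (v : ℤ × ℤ) : ‖iv y v‖ ≤ ‖iv a v‖ := by
  by_cases hv : v = 0
  · subst hv; rw [iv_zero, iv_zero]
  · have hy : 0 < y := lt_of_lt_of_le ha h
    have h1 : pt a v ≠ 0 := fun h' => hv ((pt_eq_zero ha).mp h')
    simp only [iv, norm_inv]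
    exact inv_anti₀ (norm_pos_iff.mpr h1) (bas_norm_pt_mono ha h v)

theorem norm_iv_le (hy : 0 < y) {m : ℤ} (hm : m ≠ 0) (n : ℤ) :
    ‖iv y (m, n)‖ ≤ 1 / (|(m : ℝ)| * y) := by
  have hm' : 0 < |(m : ℝ)| := abs_pos.mpr (by exact_mod_cast hm)
  have h1 : |(m : ℝ)| * y ≤ ‖pt y (m, n)‖ := by
    have := Complex.abs_im_le_norm (pt y (m, n))
    simp only [pt] at this ⊢
    rw [abs_mul, abs_of_pos hy] at this
    exact this
  simp only [iv, norm_inv]
  rw [one_div]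
  exact inv_anti₀ (mul_pos hm' hy) h1

theorem norm_iv_le' (hy : 0 < y) (v : ℤ × ℤ) : ‖iv y v‖ ≤ 1 + 1 / y := by
  obtain ⟨m, n⟩ := v
  by_cases hm : m = 0
  · subst hm
    by_cases hn : n = 0
    · subst hn
      have : ((0, 0) : ℤ × ℤ) = 0 := rfl
      rw [this, iv_zero, norm_zero]
      positivity
    · have h1 : (1 : ℝ) ≤ ‖pt y (0, n)‖ := by
        have := Complex.abs_re_le_norm (pt y (0, n))
        simp only [pt] at this ⊢
        have h2 : (1 : ℝ) ≤ |(n : ℝ)| := by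
          have : (1 : ℤ) ≤ |n| := Int.one_le_abs hn
          exact_mod_cast this
        have h3 : |(n : ℝ)| = |(n : ℝ) - ((0 : ℤ) : ℝ) / 2| := by simp
        rw [h3] at h2
        exact h2.trans this
      have h2 : ‖iv y (0, n)‖ ≤ 1 := by
        simp only [iv, norm_inv]
        exact inv_le_one_of_one_le₀ h1
      have : 0 < 1 / y := by positivity
      linarith
  · have h1 := norm_iv_le hy hm n
    have h2 : 1 / (|(m : ℝ)| * y) ≤ 1 / y := by
      apply one_div_le_one_div_of_le hy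
      have : (1 : ℝ) ≤ |(m : ℝ)| := by
        have : (1 : ℤ) ≤ |m| := Int.one_le_abs hm
        exact_mod_cast this
      nlinarith
    linarith

private lemma bas_pt_eq (y : ℝ) (v : ℤ × ℤ) :
    pt y v = (v.1 : ℂ) * (⟨-1 / 2, y⟩ : ℂ) + (v.2 : ℂ) := by
  apply Complex.ext <;> simp [pt]
  ring

theorem summable_iv3 (hy : 0 < y) : Summable fun v : ℤ × ℤ => ‖iv y v‖ ^ 3 := by
  have h1 := EisensteinSeries.summable_one_div_norm_rpow (k := 3) (by norm_num)
  have h2 : Summable fun v : ℤ × ℤ => ‖((finTwoArrowEquiv ℤ).symm v)‖ ^ (-(3 : ℝ)) :=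
    ((finTwoArrowEquiv ℤ).symm.summable_iff (f := fun x : Fin 2 → ℤ => ‖x‖ ^ (-(3 : ℝ)))).mpr h1
  let z : UpperHalfPlane := ⟨⟨-1 / 2, y⟩, hy⟩
  refine Summable.of_nonneg_of_le (fun v => by positivity) (fun v => ?_)
    (h2.mul_left (EisensteinSeries.r z ^ (-(3 : ℝ))))
  have h3 := EisensteinSeries.summand_bound z (k := 3) (by norm_num) ((finTwoArrowEquiv ℤ).symm v)
  refine le_trans (le_of_eq ?_) h3
  have h4 : ((((finTwoArrowEquiv ℤ).symm v) 0 : ℤ) : ℂ) * (z : ℂ) +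
      ((((finTwoArrowEquiv ℤ).symm v) 1 : ℤ) : ℂ) = pt y v := by
    rw [bas_pt_eq]
    rfl
  rw [h4, Real.rpow_neg (norm_nonneg _)]
  rw [show (3 : ℝ) = ((3 : ℕ) : ℝ) by norm_num, Real.rpow_natCast]
  simp only [iv, norm_inv, inv_pow]

theorem summable_iv {k : ℕ} (hy : 0 < y) (hk : 3 ≤ k) : Summable fun v : ℤ × ℤ => ‖iv y v‖ ^ k := by
  obtain ⟨j, rfl⟩ := Nat.exists_eq_add_of_le hk
  refine Summable.of_nonneg_of_le (fun v => by positivity) (fun v => ?_)
    ((summable_iv3 hy).mul_left ((1 + 1 / y) ^ j))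
  rw [pow_add, mul_comm]
  exact mul_le_mul_of_nonneg_right
    (pow_le_pow_left₀ (norm_nonneg _) (norm_iv_le' hy v) j) (by positivity)

theorem norm_term (y : ℝ) (a b : ℕ) (v : ℤ × ℤ) : ‖iv y v ^ a * ic y v ^ b‖ = ‖iv y v‖ ^ (a + b) := by
  rw [norm_mul, norm_pow, norm_pow, norm_ic, pow_add]

private lemma bas_row2 (y : ℝ) (m : ℤ) : Summable fun n : ℤ => ‖iv y (m, n)‖ ^ 2 := by
  have h := EisensteinSeries.linear_right_summable (⟨-1 / 2, y⟩ : ℂ) m (k := 2) le_rfl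
  have h2 := h.norm
  refine h2.congr (fun n => ?_)
  rw [iv, bas_pt_eq, norm_inv, norm_inv, norm_zpow, inv_pow]
  rfl

theorem summable_row2 (hy : 0 < y) (m : ℤ) : Summable fun n : ℤ => ‖iv y (m, n)‖ ^ 2 := by
  have := hy
  exact bas_row2 y m

theorem summable_row {k : ℕ} (hy : 0 < y) (hk : 2 ≤ k) (m : ℤ) :
    Summable fun n : ℤ => ‖iv y (m, n)‖ ^ k := by
  obtain ⟨j, rfl⟩ := Nat.exists_eq_add_of_le hk
  refine Summable.of_nonneg_of_le (fun v => by positivity) (fun n => ?_)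
    ((summable_row2 hy m).mul_left ((1 + 1 / y) ^ j))
  rw [pow_add, mul_comm]
  exact mul_le_mul_of_nonneg_right
    (pow_le_pow_left₀ (norm_nonneg _) (norm_iv_le' hy (m, n)) j) (by positivity)

theorem row_summable {a b : ℕ} (hy : 0 < y) (h : 2 ≤ a + b) (m : ℤ) :
    Summable fun n : ℤ => iv y (m, n) ^ a * ic y (m, n) ^ b := by
  refine Summable.of_norm ?_
  simp only [norm_term]
  exact summable_row hy h m

theorem lat_summable {a b : ℕ} (hy : 0 < y) (h : 3 ≤ a + b) :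
    Summable fun v : ℤ × ℤ => iv y v ^ a * ic y v ^ b := by
  refine Summable.of_norm ?_
  simp only [norm_term]
  exact summable_iv hy h

theorem X_neg (y : ℝ) (a b : ℕ) (m : ℤ) : X y a b (-m) = (-1) ^ (a + b) * X y a b m := by
  unfold X
  rw [← (Equiv.neg ℤ).tsum_eq, ← tsum_mul_left]
  refine tsum_congr (fun n => ?_)
  have h1 : ((-m, (Equiv.neg ℤ) n) : ℤ × ℤ) = -(m, n) := rfl
  rw [h1, iv_neg, ic_neg, neg_pow, neg_pow (ic y (m, n)), pow_add]
  ring

theorem X_swap (y : ℝ) (a b : ℕ) (m : ℤ) : X y b a m = (-1) ^ (a + b) * X y a b m := by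
  unfold X
  rw [← (Equiv.subLeft m).tsum_eq, ← tsum_mul_left]
  refine tsum_congr (fun n => ?_)
  rw [Equiv.subLeft_apply, iv_refl, ic_refl, neg_pow, neg_pow (iv y (m, n)), pow_add]
  ring

theorem norm_X_le {a b : ℕ} (hy : 0 < y) (h : 2 ≤ a + b) (m : ℤ) :
    ‖X y a b m‖ ≤ ∑' n : ℤ, ‖iv y (m, n)‖ ^ (a + b) := by
  unfold X
  have h1 : Summable fun n : ℤ => ‖iv y (m, n) ^ a * ic y (m, n) ^ b‖ := by
    simp only [norm_term]
    exact summable_row hy h m
  refine (norm_tsum_le_tsum_norm h1).trans (le_of_eq ?_)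
  simp only [norm_term]

theorem X_summable {a b : ℕ} (hy : 0 < y) (h : 3 ≤ a + b) : Summable fun m : ℤ => ‖X y a b m‖ := by
  have h1 := summable_iv hy h
  have h2 : Summable fun m : ℤ => ∑' n : ℤ, ‖iv y (m, n)‖ ^ (a + b) := h1.prod
  exact Summable.of_nonneg_of_le (fun m => norm_nonneg _)
    (fun m => norm_X_le hy (le_trans (by norm_num) h) m) h2

/-- weighted lattice sums by rows -/
theorem tsum_rows {a b : ℕ} (hy : 0 < y) (h : 3 ≤ a + b) (f : ℤ → ℂ) {C : ℝ} (hf : ∀ m, ‖f m‖ ≤ C) :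
    ∑' v : ℤ × ℤ, f v.1 * (iv y v ^ a * ic y v ^ b) = ∑' m : ℤ, f m * X y a b m := by
  have h1 : Summable fun v : ℤ × ℤ => f v.1 * (iv y v ^ a * ic y v ^ b) := by
    refine Summable.of_norm_bounded ((summable_iv hy h).mul_left C) (fun v => ?_)
    rw [norm_mul, norm_term]
    exact mul_le_mul_of_nonneg_right (hf v.1) (by positivity)
  rw [h1.tsum_prod]
  refine tsum_congr (fun m => ?_)
  unfold X
  rw [← tsum_mul_left]

end RVP
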