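import Mathlib
import Pool.Agent.RVP.Defs

/-!
# RVP/Wt: identities and bounds for the weights (functions mod 6; split on `i % 2`, `i % 3`, `j % 2`, `j % 3`)
-/

set_option autoImplicit false

namespace RVP

private def wtSg (x : ZMod 6) : ℤ := if x.val % 2 = 0 then 1 else -1

private def wtT3 (x : ZMod 6) : ℤ := if x.val % 3 = 0 then 1 else 0

private theorem wt_sg (m : ℤ) : sg m = (wtSg (m : ZMod 6) : ℝ) := by
  have h : (((m : ZMod 6).val : ℕ) : ℤ) = m % 6 := by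
    have := ZMod.val_intCast (n := 6) m
    simpa using this
  unfold sg wtSg
  by_cases h0 : m % 2 = 0
  · rw [if_pos h0, if_pos (by omega)]
    norm_num
  · rw [if_neg h0, if_neg (by omega)]
    norm_num

private theorem wt_t3 (m : ℤ) : t3 m = (wtT3 (m : ZMod 6) : ℝ) := by
  have h : (((m : ZMod 6).val : ℕ) : ℤ) = m % 6 := by
    have := ZMod.val_intCast (n := 6) m
    simpa using this
  unfold t3 wtT3
  by_cases h0 : m % 3 = 0
  · rw [if_pos h0, if_pos (by omega)]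
    norm_num
  · rw [if_neg h0, if_neg (by omega)]
    norm_num

/-- three times the weight `c` -/
private def wtC (a b : ZMod 6) : ℤ :=
  wtSg a * (-1 + 3 * wtT3 a + 3 * wtT3 (a + b) - 18 * wtT3 a * wtT3 b) +
    3 * wtT3 b * (wtSg (a + b) - wtSg b)

/-- six times the weight `w` -/
private def wtW (m : ZMod 6) : ℤ := 1 - 36 * wtT3 m + wtSg m * (24 * wtT3 m - 2)

private def wtPs (m : ZMod 6) : ℤ := (1 - wtSg m) * (1 - 9 * wtT3 m)

private def wtPh (m : ZMod 6) : ℤ := wtSg m * (1 + 3 * wtT3 m)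

private theorem wt_cw (a b : ℤ) : cw a b = (wtC (a : ZMod 6) (b : ZMod 6) : ℝ) / 3 := by
  unfold cw wtC
  rw [wt_sg a, wt_sg b, wt_sg (a + b), wt_t3 a, wt_t3 b, wt_t3 (a + b)]
  push_cast
  ring

private theorem wt_sw (a : ℤ) : sw a = (wtW (a : ZMod 6) : ℝ) / 6 := by
  unfold sw wtW
  rw [wt_sg a, wt_t3 a]
  push_cast
  ring

private theorem wt_ps (a : ℤ) : ps a = (wtPs (a : ZMod 6) : ℝ) := by
  unfold ps wtPs
  rw [wt_sg a, wt_t3 a]
  push_cast
  ring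

private theorem wt_ph (a : ℤ) : ph a = (wtPh (a : ZMod 6) : ℝ) := by
  unfold ph wtPh
  rw [wt_sg a, wt_t3 a]
  push_cast
  ring

theorem sg_neg (m : ℤ) : sg (-m) = sg m := by
  have h : ∀ x : ZMod 6, wtSg (-x) = wtSg x := by decide
  rw [wt_sg, wt_sg, Int.cast_neg, h]

theorem sg_add (a b : ℤ) : sg (a + b) = sg a * sg b := by
  have h : ∀ x y : ZMod 6, wtSg (x + y) = wtSg x * wtSg y := by decide
  rw [wt_sg, wt_sg, wt_sg, Int.cast_add, h]
  push_cast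
  ring

theorem sg_abs (m : ℤ) : |sg m| = 1 := by
  unfold sg
  split_ifs <;> norm_num

theorem t3_neg (m : ℤ) : t3 (-m) = t3 m := by
  have h : ∀ x : ZMod 6, wtT3 (-x) = wtT3 x := by decide
  rw [wt_t3, wt_t3, Int.cast_neg, h]

theorem t3_nonneg (m : ℤ) : 0 ≤ t3 m := by
  unfold t3
  split_ifs <;> norm_num

theorem t3_le (m : ℤ) : t3 m ≤ 1 := by
  unfold t3
  split_ifs <;> norm_num

theorem ps_neg (m : ℤ) : ps (-m) = ps m := by
  unfold ps
  rw [sg_neg, t3_neg]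

theorem ph_neg (m : ℤ) : ph (-m) = ph m := by
  unfold ph
  rw [sg_neg, t3_neg]

theorem sw_neg (m : ℤ) : sw (-m) = sw m := by
  unfold sw
  rw [sg_neg, t3_neg]

theorem cw_neg (a b : ℤ) : cw (-a) (-b) = cw a b := by
  unfold cw
  rw [← neg_add, sg_neg, sg_neg, sg_neg, t3_neg, t3_neg, t3_neg]

/-- `N(j,i) = c(i,j) + c(i-j,j) + c(j,i-j)` is even in `i` -/
theorem wt_even (i j : ℤ) :
    cw i j + cw (i - j) j + cw j (i - j) = cw (-i) j + cw (-i - j) j + cw j (-i - j) := by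
  have h : ∀ x y : ZMod 6, wtC x y + wtC (x - y) y + wtC y (x - y) =
      wtC (-x) y + wtC (-x - y) y + wtC y (-x - y) := by decide
  have h1 : (wtC (i : ZMod 6) (j : ZMod 6) : ℝ) + wtC ((i : ZMod 6) - j) j +
      wtC (j : ZMod 6) ((i : ZMod 6) - j) = wtC (-(i : ZMod 6)) j + wtC (-(i : ZMod 6) - j) j +
      wtC (j : ZMod 6) (-(i : ZMod 6) - j) := by exact_mod_cast h i j
  rw [wt_cw, wt_cw, wt_cw, wt_cw, wt_cw, wt_cw]
  simp only [Int.cast_sub, Int.cast_neg]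
  linarith

/-- the weight of `X_b(j) X_a(i)` after symmetrisation in `i` -/
theorem wt_psi (i j : ℤ) :
    (cw (i - j) j - cw i j) + (cw (-i - j) j - cw (-i) j) = -(1 / 3) * ps j * ph i := by
  have h : ∀ x y : ZMod 6, (wtC (x - y) y - wtC x y) + (wtC (-x - y) y - wtC (-x) y) =
      -(wtPs y * wtPh x) := by decide
  have h1 : ((wtC ((i : ZMod 6) - j) j : ℝ) - wtC (i : ZMod 6) (j : ZMod 6)) +
      (wtC (-(i : ZMod 6) - j) j - wtC (-(i : ZMod 6)) j) =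
      -((wtPs (j : ZMod 6) : ℝ) * wtPh (i : ZMod 6)) := by exact_mod_cast h i j
  rw [wt_cw, wt_cw, wt_cw, wt_cw, wt_ps, wt_ph]
  simp only [Int.cast_sub, Int.cast_neg]
  linarith

theorem wt_single (m : ℤ) : sw m = cw 0 m - cw m (-m) + cw m 0 / 2 := by
  have h : ∀ x : ZMod 6, wtW x = 2 * wtC 0 x - 2 * wtC x (-x) + wtC x 0 := by decide
  have h1 : (wtW (m : ZMod 6) : ℝ) = 2 * wtC 0 (m : ZMod 6) - 2 * wtC (m : ZMod 6) (-(m : ZMod 6)) +
      wtC (m : ZMod 6) 0 := by exact_mod_cast h m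
  rw [wt_sw, wt_cw, wt_cw, wt_cw]
  simp only [Int.cast_zero, Int.cast_neg]
  linarith

theorem wt_lim (m : ℤ) : cw 0 m - cw m (-m) = 2 / 3 * ps m := by
  have h : ∀ x : ZMod 6, wtC 0 x - wtC x (-x) = 2 * wtPs x := by decide
  have h1 : (wtC 0 (m : ZMod 6) : ℝ) - wtC (m : ZMod 6) (-(m : ZMod 6)) = 2 * wtPs (m : ZMod 6) := by
    exact_mod_cast h m
  rw [wt_cw, wt_cw, wt_ps]
  simp only [Int.cast_zero, Int.cast_neg]
  linarith

theorem cw_zero : cw 0 0 = -(13 / 3) := by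
  norm_num [cw, sg, t3]

theorem sw_zero : sw 0 = -(13 / 6) := by
  norm_num [sw, sg, t3]

theorem cw_abs (a b : ℤ) : |cw a b| ≤ 20 := by
  have h : ∀ x y : ZMod 6, |wtC x y| ≤ 60 := by decide
  have h1 : |(wtC (a : ZMod 6) (b : ZMod 6) : ℝ)| ≤ 60 := by exact_mod_cast h a b
  rw [wt_cw, abs_div, abs_of_pos (by norm_num : (0 : ℝ) < 3)]
  linarith

theorem sw_abs (m : ℤ) : |sw m| ≤ 20 := by
  have h : ∀ x : ZMod 6, |wtW x| ≤ 60 := by decide
  have h1 : |(wtW (m : ZMod 6) : ℝ)| ≤ 60 := by exact_mod_cast h m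
  rw [wt_sw, abs_div, abs_of_pos (by norm_num : (0 : ℝ) < 6)]
  linarith

theorem ps_abs (m : ℤ) : |ps m| ≤ 16 := by
  have h : ∀ x : ZMod 6, |wtPs x| ≤ 16 := by decide
  have h1 : |(wtPs (m : ZMod 6) : ℝ)| ≤ 16 := by exact_mod_cast h m
  rw [wt_ps]
  exact h1

theorem ph_abs (m : ℤ) : |ph m| ≤ 4 := by
  have h : ∀ x : ZMod 6, |wtPh x| ≤ 4 := by decide
  have h1 : |(wtPh (m : ZMod 6) : ℝ)| ≤ 4 := by exact_mod_cast h m
  rw [wt_ph]
  exact h1

end RVP
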