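import Mathlib
import Pool.Agent.RVP.Defs

/-!
# RVP/Sh: telescoping sums over `ℤ` and blocks of sums over pairs of lattice points

`sum_shift_tendsto`: induction on `j` from `Σ_{i=-N}^N (g (i+1) - g i) = g (N+1) - g (-N)`.
-/

set_option autoImplicit false

open Filter Topology

namespace RVP

private theorem Sh_tel (h : ℤ → ℂ) (N : ℕ) :
    ∑ i ∈ Finset.Icc (-(N : ℤ)) N, (h (i + 1) - h i) = h (N + 1) - h (-(N : ℤ)) := by
  induction N with
  | zero => simp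
  | succ n ih =>
    have h1 : Finset.Icc (-((n + 1 : ℕ) : ℤ)) ((n + 1 : ℕ) : ℤ) =
        insert (-((n + 1 : ℕ) : ℤ)) (insert ((n + 1 : ℕ) : ℤ) (Finset.Icc (-(n : ℤ)) n)) := by
      ext x
      simp only [Finset.mem_Icc, Finset.mem_insert]
      push_cast
      omega
    rw [h1, Finset.sum_insert, Finset.sum_insert, ih]
    · have e1 : -((n + 1 : ℕ) : ℤ) + 1 = -(n : ℤ) := by push_cast; ring
      have e2 : ((n + 1 : ℕ) : ℤ) = (n : ℤ) + 1 := by push_cast; ring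
      rw [e1, e2]
      ring
    · simp only [Finset.mem_Icc]
      push_cast
      omega
    · simp only [Finset.mem_Icc, Finset.mem_insert]
      push_cast
      omega

private theorem Sh_lim {g : ℤ → ℂ} (hg : Tendsto g cofinite (𝓝 0)) (j : ℤ) :
    Tendsto (fun N : ℕ => g ((N : ℤ) + 1 + j) - g (-(N : ℤ) + j)) atTop (𝓝 0) := by
  have h1 : Tendsto (fun N : ℕ => (N : ℤ) + 1 + j) atTop cofinite := by
    rw [← Nat.cofinite_eq_atTop]
    exact Function.Injective.tendsto_cofinite fun a b h => by omega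
  have h2 : Tendsto (fun N : ℕ => -(N : ℤ) + j) atTop cofinite := by
    rw [← Nat.cofinite_eq_atTop]
    exact Function.Injective.tendsto_cofinite fun a b h => by omega
  have h3 := (hg.comp h1).sub (hg.comp h2)
  simpa using h3

private theorem Sh_step {g : ℤ → ℂ} (j : ℤ) (N : ℕ) :
    ∑ i ∈ Finset.Icc (-(N : ℤ)) N, (g (i + (j + 1)) - g i) =
      ∑ i ∈ Finset.Icc (-(N : ℤ)) N, (g (i + j) - g i) +
        (g ((N : ℤ) + 1 + j) - g (-(N : ℤ) + j)) := by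
  rw [← Sh_tel (fun i => g (i + j)) N, ← Finset.sum_add_distrib]
  refine Finset.sum_congr rfl fun i _ => ?_
  have e1 : i + (j + 1) = i + 1 + j := by ring
  rw [e1]
  ring

theorem sum_shift_tendsto {g : ℤ → ℂ} (hg : Tendsto g cofinite (𝓝 0)) (j : ℤ) :
    Tendsto (fun N : ℕ => ∑ i ∈ Finset.Icc (-(N : ℤ)) N, (g (i + j) - g i)) atTop (𝓝 0) := by
  induction j using Int.induction_on with
  | zero => simp
  | succ i ih =>
    have h := ih.add (Sh_lim hg (i : ℤ))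
    simp only [add_zero] at h
    refine h.congr fun N => ?_
    rw [Sh_step]
  | pred i ih =>
    have h := ih.sub (Sh_lim hg (-(i : ℤ) - 1))
    simp only [sub_zero] at h
    refine h.congr fun N => ?_
    have h1 := Sh_step (g := g) (-(i : ℤ) - 1) N
    rw [sub_add_cancel] at h1
    rw [h1]
    ring

/-- a sum over `ℤ` is the limit of its symmetric partial sums -/
theorem hasSum_Icc {f : ℤ → ℂ} {a : ℂ} (h : HasSum f a) :
    Tendsto (fun N : ℕ => ∑ i ∈ Finset.Icc (-(N : ℤ)) N, f i) atTop (𝓝 a) := by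
  have h1 : Tendsto (fun N : ℕ => Finset.Icc (-(N : ℤ)) (N : ℤ)) atTop atTop := by
    refine tendsto_atTop_finset_of_monotone ?_ ?_
    · intro a b hab
      refine Finset.Icc_subset_Icc ?_ ?_
      · have : (a : ℤ) ≤ b := by exact_mod_cast hab
        omega
      · exact_mod_cast hab
    · intro x
      refine ⟨x.natAbs, ?_⟩
      simp only [Finset.mem_Icc]
      omega
  have h2 : Tendsto (fun s : Finset ℤ => ∑ i ∈ s, f i) atTop (𝓝 a) := by
    simpa [HasSum] using h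
  exact h2.comp h1

theorem tsum_shift {g : ℤ → ℂ} (hg : Tendsto g cofinite (𝓝 0)) (j : ℤ)
    (hs : Summable fun i => g (i + j) - g i) : ∑' i : ℤ, (g (i + j) - g i) = 0 :=
  tendsto_nhds_unique (hasSum_Icc hs.hasSum) (sum_shift_tendsto hg j)

private theorem Sh_comm {f : (ℤ × ℤ) × (ℤ × ℤ) → ℂ} (hf : Summable f) :
    Summable fun x : (ℤ × ℤ) × (ℤ × ℤ) => f ((x.1.1, x.2.1), (x.1.2, x.2.2)) :=
  (Equiv.prodProdProdComm ℤ ℤ ℤ ℤ).summable_iff.mpr hf

theorem block_summable {f : (ℤ × ℤ) × (ℤ × ℤ) → ℂ} (hf : Summable f) (w : ℤ × ℤ) :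
    Summable fun z : ℤ × ℤ => f ((w.1, z.1), (w.2, z.2)) :=
  (Sh_comm hf).prod_factor w

theorem blocks_summable {f : (ℤ × ℤ) × (ℤ × ℤ) → ℂ} (hf : Summable f) :
    Summable fun w : ℤ × ℤ => ∑' z : ℤ × ℤ, f ((w.1, z.1), (w.2, z.2)) :=
  (Sh_comm hf).prod

theorem tsum_blocks {f : (ℤ × ℤ) × (ℤ × ℤ) → ℂ} (hf : Summable f) :
    ∑' x, f x = ∑' w : ℤ × ℤ, ∑' z : ℤ × ℤ, f ((w.1, z.1), (w.2, z.2)) := by
  rw [← (Sh_comm hf).tsum_prod]
  exact ((Equiv.prodProdProdComm ℤ ℤ ℤ ℤ).tsum_eq f).symm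

/-- product sums along the three pairs of lines -/
theorem tsum_pq {f g : ℤ → ℂ} (hf : Summable f) (hg : Summable g) :
    Summable (fun z : ℤ × ℤ => f z.1 * g z.2) ∧
      ∑' z : ℤ × ℤ, f z.1 * g z.2 = (∑' n, f n) * ∑' n, g n :=
  ⟨summable_mul_of_summable_norm hf.norm hg.norm,
    (tsum_mul_tsum_of_summable_norm hf.norm hg.norm).symm⟩

/-- the shear `z ↦ (z.1, z.1 + z.2)` -/
private def Sh_e1 : ℤ × ℤ ≃ ℤ × ℤ where
  toFun z := (z.1, z.1 + z.2)
  invFun z := (z.1, z.2 - z.1)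
  left_inv z := by simp
  right_inv z := by simp

/-- the shear `z ↦ (z.2, z.1 + z.2)` -/
private def Sh_e2 : ℤ × ℤ ≃ ℤ × ℤ where
  toFun z := (z.2, z.1 + z.2)
  invFun z := (z.2 - z.1, z.1)
  left_inv z := by simp
  right_inv z := by simp

theorem tsum_pr {f g : ℤ → ℂ} (hf : Summable f) (hg : Summable g) :
    Summable (fun z : ℤ × ℤ => f z.1 * g (z.1 + z.2)) ∧
      ∑' z : ℤ × ℤ, f z.1 * g (z.1 + z.2) = (∑' n, f n) * ∑' n, g n := by
  obtain ⟨h1, h2⟩ := tsum_pq hf hg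
  refine ⟨Sh_e1.summable_iff.mpr h1, ?_⟩
  rw [← h2]
  exact Sh_e1.tsum_eq (fun z : ℤ × ℤ => f z.1 * g z.2)

theorem tsum_qr {f g : ℤ → ℂ} (hf : Summable f) (hg : Summable g) :
    Summable (fun z : ℤ × ℤ => f z.2 * g (z.1 + z.2)) ∧
      ∑' z : ℤ × ℤ, f z.2 * g (z.1 + z.2) = (∑' n, f n) * ∑' n, g n := by
  obtain ⟨h1, h2⟩ := tsum_pq hf hg
  refine ⟨Sh_e2.summable_iff.mpr h1, ?_⟩
  rw [← h2]
  exact Sh_e2.tsum_eq (fun z : ℤ × ℤ => f z.1 * g z.2)

end RVP
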