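import Mathlib
import Pool.Agent.RVP.Defs
import Pool.Agent.RVP.Bas

/-!
# RVP/RowB: the holomorphic rows `X_20`, `X_30`, `X_40`

`EisensteinSeries.qExpansion_identity` (Lipschitz formula) at `z = m u`, `m ≥ 1`, and `X_neg` for `m ≤ -1`;
`exp (2πi m u) = qr(y)^m`.
-/

set_option autoImplicit false

open Filter Topology

namespace RVP

variable {y : ℝ}

private theorem rowB_abs_qr (y : ℝ) : |qr y| = Real.exp (-(2 * Real.pi * y)) := by
  unfold qr
  rw [abs_neg, abs_of_pos (Real.exp_pos _)]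

private theorem rowB_qr_lt (hy : 0 < y) : |qr y| < 1 := by
  rw [rowB_abs_qr, Real.exp_lt_one_iff]
  have := Real.pi_pos
  have : 0 < 2 * Real.pi * y := by positivity
  linarith

private theorem rowB_qrm_lt (hy : 0 < y) {m : ℕ} (hm : m ≠ 0) : |qr y ^ m| < 1 := by
  rw [abs_pow]
  exact pow_lt_one₀ (abs_nonneg _) (rowB_qr_lt hy) hm

private theorem rowB_exp (y : ℝ) (m : ℕ) :
    Complex.exp (2 * Real.pi * Complex.I * (⟨-(m : ℝ) / 2, m * y⟩ : ℂ)) = ((qr y ^ m : ℝ) : ℂ) := by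
  have h1 : (2 * Real.pi * Complex.I * (⟨-(m : ℝ) / 2, m * y⟩ : ℂ)) =
      (m : ℂ) * (-(Real.pi * Complex.I) + ((-(2 * Real.pi * y) : ℝ) : ℂ)) := by
    apply Complex.ext <;> simp <;> ring
  rw [h1, Complex.exp_nat_mul, Complex.exp_add, ← Complex.ofReal_exp, Complex.exp_neg,
    Complex.exp_pi_mul_I]
  unfold qr
  push_cast
  congr 1
  norm_num

private theorem rowB_summ {k : ℕ} {r : ℝ} (hr : |r| < 1) :
    Summable fun n : ℕ => (n : ℝ) ^ k * r ^ n :=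
  summable_pow_mul_geometric_of_norm_lt_one k (by simpa using hr)

private theorem rowB_shift {k : ℕ} (hk : k ≠ 0) {r : ℝ} (hr : |r| < 1) :
    ∑' n : ℕ, (n : ℝ) ^ k * r ^ n = ∑' n : ℕ, ((n : ℝ) + 1) ^ k * r ^ (n + 1) := by
  rw [(rowB_summ hr).tsum_eq_zero_add]
  simp [hk]

private theorem rowB_pos (hy : 0 < y) {k : ℕ} (hk : 1 ≤ k) {m : ℕ} (hm : m ≠ 0) :
    X y (k + 1) 0 (m : ℤ) = ((-2 * Real.pi * Complex.I) ^ (k + 1) / (Nat.factorial k : ℂ)) *
      ((∑' n : ℕ, ((n : ℝ) + 1) ^ k * qr y ^ (m * (n + 1)) : ℝ) : ℂ) := by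
  have hmp : 0 < (m : ℝ) := by
    have := Nat.pos_of_ne_zero hm
    exact_mod_cast this
  have hz : 0 < (⟨-(m : ℝ) / 2, m * y⟩ : ℂ).im := by
    show 0 < (m : ℝ) * y
    positivity
  have h := EisensteinSeries.qExpansion_identity hk ⟨⟨-(m : ℝ) / 2, m * y⟩, hz⟩
  have h2 : X y (k + 1) 0 (m : ℤ) = ∑' n : ℤ, 1 / ((⟨-(m : ℝ) / 2, m * y⟩ : ℂ) + n) ^ (k + 1) := by
    unfold X
    refine tsum_congr fun n => ?_
    have h3 : pt y ((m : ℤ), n) = (⟨-(m : ℝ) / 2, m * y⟩ : ℂ) + n := by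
      unfold pt
      apply Complex.ext
      · simp; ring
      · simp
    simp only [iv, h3, pow_zero, mul_one, inv_pow, one_div]
  rw [h2]
  refine Eq.trans h ?_
  congr 1
  show ∑' n : ℕ, (n : ℂ) ^ k * Complex.exp (2 * Real.pi * Complex.I * (⟨-(m : ℝ) / 2, m * y⟩ : ℂ)) ^ n = _
  rw [rowB_exp]
  have h4 : ∀ n : ℕ, (n : ℂ) ^ k * (((qr y ^ m : ℝ) : ℂ)) ^ n =
      (((n : ℝ) ^ k * (qr y ^ m) ^ n : ℝ) : ℂ) := by
    intro n
    push_cast
    ring
  simp_rw [h4]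
  rw [← Complex.ofReal_tsum, rowB_shift (by omega) (rowB_qrm_lt hy hm)]
  congr 1
  refine tsum_congr fun n => ?_
  rw [← pow_mul]

theorem X20_zero (y : ℝ) : X y 2 0 0 = ((Real.pi ^ 2 / 3 : ℝ) : ℂ) := by
  have h1 : ∀ n : ℤ, iv y (0, n) ^ 2 * ic y (0, n) ^ 0 = ((1 / (n : ℝ) ^ 2 : ℝ) : ℂ) := by
    intro n
    have h3 : pt y ((0 : ℤ), n) = ((n : ℝ) : ℂ) := by
      unfold pt
      apply Complex.ext <;> simp
    simp only [iv, h3, pow_zero, mul_one]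
    push_cast
    rw [inv_pow, one_div]
  unfold X
  simp_rw [h1]
  have h2 : HasSum (fun n : ℤ => (1 / (n : ℝ) ^ 2 : ℝ)) (Real.pi ^ 2 / 6 + Real.pi ^ 2 / 6) := by
    refine HasSum.of_nat_of_neg_add_one ?_ ?_
    · simpa using hasSum_zeta_two
    · have h4 := (hasSum_nat_add_iff' (f := fun n : ℕ => (1 / (n : ℝ) ^ 2 : ℝ)) 1).mpr hasSum_zeta_two
      have h5 : (fun n : ℕ => (1 / ((n + 1 : ℕ) : ℝ) ^ 2 : ℝ)) =
          fun n : ℕ => (1 / ((-((n : ℤ) + 1) : ℤ) : ℝ) ^ 2 : ℝ) := by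
        funext n
        push_cast
        congr 1
        ring
      rw [h5] at h4
      simpa using h4
  rw [← Complex.ofReal_tsum, h2.tsum_eq]
  congr 1
  ring

private theorem rowB_natAbs {m : ℤ} {a : ℕ} (ha : Even a) : X y a 0 m = X y a 0 (m.natAbs : ℤ) := by
  rcases le_total 0 m with h | h
  · rw [Int.natAbs_of_nonneg h]
  · have h1 : ((m.natAbs : ℕ) : ℤ) = -m := by omega
    rw [h1, X_neg, add_zero, ha.neg_one_pow, one_mul]

theorem X20_eq (hy : 0 < y) {m : ℤ} (hm : m ≠ 0) :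
    X y 2 0 m = ((-(4 * Real.pi ^ 2) * ∑' k : ℕ, ((k : ℝ) + 1) * qr y ^ (m.natAbs * (k + 1)) : ℝ) : ℂ) := by
  rw [rowB_natAbs (by decide), rowB_pos hy (le_refl 1) (by simpa using hm)]
  have h1 : (-2 * Real.pi * Complex.I) ^ (1 + 1) / ((Nat.factorial 1 : ℕ) : ℂ) =
      ((-(4 * Real.pi ^ 2) : ℝ) : ℂ) := by
    push_cast
    rw [mul_pow, Complex.I_sq]
    norm_num
    ring
  rw [h1]
  push_cast
  simp

theorem X40_eq (hy : 0 < y) {m : ℤ} (hm : m ≠ 0) :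
    X y 4 0 m =
      ((8 * Real.pi ^ 4 / 3 * ∑' k : ℕ, ((k : ℝ) + 1) ^ 3 * qr y ^ (m.natAbs * (k + 1)) : ℝ) : ℂ) := by
  rw [rowB_natAbs (by decide), rowB_pos hy (k := 3) (by norm_num) (by simpa using hm)]
  have h1 : (-2 * Real.pi * Complex.I) ^ (3 + 1) / ((Nat.factorial 3 : ℕ) : ℂ) =
      ((8 * Real.pi ^ 4 / 3 : ℝ) : ℂ) := by
    push_cast
    rw [mul_pow, Complex.I_pow_four]
    norm_num [Nat.factorial]
    ring
  rw [h1]
  push_cast
  rfl

private theorem rowB_norm (hy : 0 < y) {k : ℕ} (hk : 1 ≤ k) {m : ℤ} (hm : m ≠ 0) :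
    ‖X y (k + 1) 0 m‖ ≤ (2 * Real.pi) ^ (k + 1) / (Nat.factorial k : ℝ) *
      ∑' n : ℕ, ((n : ℝ) + 1) ^ k * (Real.exp (-(2 * Real.pi * y)) ^ m.natAbs) ^ (n + 1) := by
  have hm' : m.natAbs ≠ 0 := by simpa using hm
  have h0 : ‖X y (k + 1) 0 m‖ = ‖X y (k + 1) 0 (m.natAbs : ℤ)‖ := by
    rcases le_total 0 m with h | h
    · rw [Int.natAbs_of_nonneg h]
    · have h1 : ((m.natAbs : ℕ) : ℤ) = -m := by omega
      rw [h1, X_neg, norm_mul, norm_pow, norm_neg, norm_one, one_pow, one_mul]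
  rw [h0, rowB_pos hy hk hm', norm_mul]
  have h1 : ‖(-2 * Real.pi * Complex.I) ^ (k + 1) / ((Nat.factorial k : ℕ) : ℂ)‖ =
      (2 * Real.pi) ^ (k + 1) / (Nat.factorial k : ℝ) := by
    rw [norm_div, norm_pow, norm_mul, norm_mul, Complex.norm_I, Complex.norm_natCast,
      Complex.norm_real, Real.norm_of_nonneg Real.pi_pos.le]
    norm_num
  rw [h1]
  refine mul_le_mul_of_nonneg_left ?_ (by positivity)
  rw [Complex.norm_real]
  have hr : |Real.exp (-(2 * Real.pi * y)) ^ m.natAbs| < 1 := by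
    have := rowB_qrm_lt hy hm'
    rwa [abs_pow, rowB_abs_qr, ← abs_of_pos (Real.exp_pos _), ← abs_pow] at this
  have hs : Summable fun n : ℕ => ((n : ℝ) + 1) ^ k *
      (Real.exp (-(2 * Real.pi * y)) ^ m.natAbs) ^ (n + 1) := by
    have := (summable_nat_add_iff (f := fun n : ℕ => (n : ℝ) ^ k *
      (Real.exp (-(2 * Real.pi * y)) ^ m.natAbs) ^ n) 1).mpr (rowB_summ hr)
    simpa using this
  refine tsum_of_norm_bounded hs.hasSum fun n => ?_
  rw [norm_mul, norm_pow, norm_pow, Real.norm_eq_abs, Real.norm_eq_abs, rowB_abs_qr, ← pow_mul,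
    abs_of_nonneg (by positivity)]

private theorem rowB_two_pow (n : ℕ) : (n : ℝ) + 1 ≤ 2 ^ n := by
  have h : n + 1 ≤ 2 ^ n := Nat.lt_two_pow_self
  exact_mod_cast h

private theorem rowB_sum_le {k : ℕ} {r : ℝ} (h0 : 0 ≤ r) (hr : (2 : ℝ) ^ k * r < 1) :
    ∑' n : ℕ, ((n : ℝ) + 1) ^ k * r ^ (n + 1) ≤ r * (1 - 2 ^ k * r)⁻¹ := by
  have h1 : HasSum (fun n : ℕ => r * ((2 : ℝ) ^ k * r) ^ n) (r * (1 - 2 ^ k * r)⁻¹) :=
    (hasSum_geometric_of_lt_one (by positivity) hr).mul_left r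
  have h2 : ∀ n : ℕ, ((n : ℝ) + 1) ^ k * r ^ (n + 1) ≤ r * ((2 : ℝ) ^ k * r) ^ n := by
    intro n
    have h3 : ((n : ℝ) + 1) ^ k ≤ ((2 : ℝ) ^ n) ^ k :=
      pow_le_pow_left₀ (by positivity) (rowB_two_pow n) k
    calc ((n : ℝ) + 1) ^ k * r ^ (n + 1) ≤ ((2 : ℝ) ^ n) ^ k * r ^ (n + 1) :=
          mul_le_mul_of_nonneg_right h3 (by positivity)
      _ = r * ((2 : ℝ) ^ k * r) ^ n := by
          rw [mul_pow, ← pow_mul, ← pow_mul, Nat.mul_comm n k, pow_succ]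
          ring
  rw [← h1.tsum_eq]
  refine Summable.tsum_le_tsum h2 ?_ h1.summable
  exact Summable.of_nonneg_of_le (fun n => by positivity) h2 h1.summable

private theorem rowB_exp_le (hy : 1 ≤ y) {m : ℤ} (hm : m ≠ 0) :
    Real.exp (-(2 * Real.pi * y)) ^ m.natAbs ≤ 1 / 200 := by
  have h1 : Real.exp (-(2 * Real.pi * y)) ≤ 1 / 200 := by
    have h2 : Real.exp (-(2 * Real.pi * y)) ≤ Real.exp (-6) := by
      apply Real.exp_le_exp.mpr
      have := Real.pi_gt_three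
      nlinarith
    refine h2.trans ?_
    rw [Real.exp_neg, one_div]
    refine inv_anti₀ (by norm_num) ?_
    have h3 : Real.exp 6 = Real.exp 1 ^ 6 := by
      rw [← Real.exp_nat_mul]
      norm_num
    rw [h3]
    have h4 : (2.7 : ℝ) ≤ Real.exp 1 := by
      have := Real.exp_one_gt_d9
      linarith
    calc (200 : ℝ) ≤ 2.7 ^ 6 := by norm_num
      _ ≤ Real.exp 1 ^ 6 := pow_le_pow_left₀ (by norm_num) h4 6
  have h5 : Real.exp (-(2 * Real.pi * y)) ^ m.natAbs ≤ Real.exp (-(2 * Real.pi * y)) := by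
    exact pow_le_of_le_one (Real.exp_pos _).le (by linarith) (Int.natAbs_ne_zero.mpr hm)
  exact h5.trans h1

private theorem rowB_exp_eq (y : ℝ) (m : ℤ) :
    Real.exp (-(2 * Real.pi * y)) ^ m.natAbs = Real.exp (-(2 * Real.pi * (|(m : ℝ)| * y))) := by
  rw [← Real.exp_nat_mul]
  congr 1
  have : ((m.natAbs : ℕ) : ℝ) = |(m : ℝ)| := by
    rw [Nat.cast_natAbs, Int.cast_abs]
  rw [this]
  ring

theorem X20_summable (hy : 0 < y) : Summable fun m : ℤ => ‖X y 2 0 m‖ := by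
  set r : ℝ := Real.exp (-(2 * Real.pi * y)) with hrdef
  have hr0 : 0 < r := Real.exp_pos _
  have hr1 : r < 1 := by
    have := rowB_qr_lt hy
    rwa [rowB_abs_qr] at this
  have hs0 : Summable fun n : ℕ => ((n : ℝ) + 1) ^ 1 * r ^ n := by
    have h1 : Summable fun n : ℕ => (n : ℝ) ^ 1 * r ^ n := rowB_summ (by rwa [abs_of_pos hr0])
    have h2 : Summable fun n : ℕ => r ^ n := summable_geometric_of_lt_one hr0.le hr1
    refine (h1.add h2).congr fun n => ?_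
    ring
  have hs : ∀ m : ℤ, m ≠ 0 → ‖X y 2 0 m‖ ≤
      ((2 * Real.pi) ^ (1 + 1) / (Nat.factorial 1 : ℝ) * ∑' n : ℕ, ((n : ℝ) + 1) ^ 1 * r ^ n) *
        r ^ m.natAbs := by
    intro m hm
    refine (rowB_norm hy (le_refl 1) hm).trans ?_
    rw [mul_assoc ((2 * Real.pi) ^ (1 + 1) / (Nat.factorial 1 : ℝ))]
    refine mul_le_mul_of_nonneg_left (a := (2 * Real.pi) ^ (1 + 1) / (Nat.factorial 1 : ℝ)) ?_
      (by positivity)
    rw [← tsum_mul_right]
    have h3 : ∀ n : ℕ, ((n : ℝ) + 1) ^ 1 * (r ^ m.natAbs) ^ (n + 1) ≤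
        ((n : ℝ) + 1) ^ 1 * r ^ n * r ^ m.natAbs := by
      intro n
      rw [mul_assoc]
      refine mul_le_mul_of_nonneg_left ?_ (by positivity)
      rw [pow_succ]
      refine mul_le_mul_of_nonneg_right ?_ (by positivity)
      rw [← pow_mul]
      refine pow_le_pow_of_le_one hr0.le hr1.le ?_
      have : 1 ≤ m.natAbs := Nat.one_le_iff_ne_zero.mpr (by simpa using hm)
      nlinarith
    refine Summable.tsum_le_tsum h3 ?_ (hs0.mul_right _)
    exact Summable.of_nonneg_of_le (fun n => by positivity) h3 (hs0.mul_right _)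
  have hg : Summable fun n : ℕ =>
      ((2 * Real.pi) ^ (1 + 1) / (Nat.factorial 1 : ℝ) * ∑' n : ℕ, ((n : ℝ) + 1) ^ 1 * r ^ n) *
        r ^ n := (summable_geometric_of_lt_one hr0.le hr1).mul_left _
  refine Summable.of_nat_of_neg ?_ ?_
  · rw [← summable_nat_add_iff 1]
    refine Summable.of_nonneg_of_le (fun n => norm_nonneg _) (fun n => ?_)
      ((summable_nat_add_iff 1).mpr hg)
    have := hs ((n + 1 : ℕ) : ℤ) (by omega)
    rw [Int.natAbs_natCast] at this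
    exact this
  · rw [← summable_nat_add_iff 1]
    refine Summable.of_nonneg_of_le (fun n => norm_nonneg _) (fun n => ?_)
      ((summable_nat_add_iff 1).mpr hg)
    have := hs (-((n + 1 : ℕ) : ℤ)) (by omega)
    rw [Int.natAbs_neg, Int.natAbs_natCast] at this
    exact this

theorem X20_le (hy : 1 ≤ y) {m : ℤ} (hm : m ≠ 0) :
    ‖X y 2 0 m‖ ≤ 40 * Real.exp (-(2 * Real.pi * (|(m : ℝ)| * y))) := by
  refine (rowB_norm (by linarith) (le_refl 1) hm).trans ?_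
  have hr := rowB_exp_le hy hm
  rw [← rowB_exp_eq]
  have hr0 : 0 < Real.exp (-(2 * Real.pi * y)) ^ m.natAbs := by positivity
  set r : ℝ := Real.exp (-(2 * Real.pi * y)) ^ m.natAbs
  have h1 := rowB_sum_le (k := 1) hr0.le (by norm_num; linarith)
  have h2 : (1 - 2 ^ 1 * r)⁻¹ ≤ (99 / 100)⁻¹ := inv_anti₀ (by norm_num) (by linarith)
  have h3 : (2 * Real.pi) ^ (1 + 1) / (Nat.factorial 1 : ℝ) ≤ 39.5 := by
    have hp := Real.pi_lt_d4
    have hp0 := Real.pi_pos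
    norm_num
    nlinarith
  calc (2 * Real.pi) ^ (1 + 1) / (Nat.factorial 1 : ℝ) * ∑' n : ℕ, ((n : ℝ) + 1) ^ 1 * r ^ (n + 1)
      ≤ 39.5 * (r * (99 / 100)⁻¹) := by
        refine mul_le_mul h3 (h1.trans (mul_le_mul_of_nonneg_left h2 hr0.le)) ?_ (by norm_num)
        exact tsum_nonneg fun n => by positivity
    _ ≤ 40 * r := by
        norm_num
        nlinarith

theorem X30_le (hy : 1 ≤ y) {m : ℤ} (hm : m ≠ 0) :
    ‖X y 3 0 m‖ ≤ 130 * Real.exp (-(2 * Real.pi * (|(m : ℝ)| * y))) := by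
  refine (rowB_norm (k := 2) (by linarith) (by norm_num) hm).trans ?_
  have hr := rowB_exp_le hy hm
  rw [← rowB_exp_eq]
  have hr0 : 0 < Real.exp (-(2 * Real.pi * y)) ^ m.natAbs := by positivity
  set r : ℝ := Real.exp (-(2 * Real.pi * y)) ^ m.natAbs
  have h1 := rowB_sum_le (k := 2) hr0.le (by norm_num; linarith)
  have h2 : (1 - 2 ^ 2 * r)⁻¹ ≤ (98 / 100)⁻¹ := inv_anti₀ (by norm_num) (by linarith)
  have h3 : (2 * Real.pi) ^ (2 + 1) / (Nat.factorial 2 : ℝ) ≤ 125 := by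
    have hp := Real.pi_lt_d4
    have hp0 := Real.pi_pos
    have h4 : Real.pi ^ 3 ≤ 3.1416 ^ 3 := pow_le_pow_left₀ hp0.le hp.le 3
    norm_num [Nat.factorial]
    have h5 : (2 * Real.pi) ^ 3 = 8 * Real.pi ^ 3 := by ring
    rw [h5]
    norm_num at h4
    linarith
  calc (2 * Real.pi) ^ (2 + 1) / (Nat.factorial 2 : ℝ) * ∑' n : ℕ, ((n : ℝ) + 1) ^ 2 * r ^ (n + 1)
      ≤ 125 * (r * (98 / 100)⁻¹) := by
        refine mul_le_mul h3 (h1.trans (mul_le_mul_of_nonneg_left h2 hr0.le)) ?_ (by norm_num)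
        exact tsum_nonneg fun n => by positivity
    _ ≤ 130 * r := by
        norm_num
        nlinarith

end RVP
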