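import Mathlib
import Pool.Agent.RVP.Defs
import Pool.Agent.RVP.Bas
import Pool.Agent.RVP.Wt
import Pool.Agent.RVP.RowB

/-!
# RVP/AsmA: summation of the (5,1) products

All sums over `(i,j)` are absolutely convergent (`X_summable`, `X20_summable`).  After `i+j ↦ i`:
`Σ c P51 = 2 Σ X21(j) X30(i) N(j,i) + 2 Σ X31(j) X20(i) (c(i-j,j) - c(i,j))`, `N(j,i) = c(i,j)+c(i-j,j)+c(j,i-j)`.
`X30` is odd and `N` even in `i` (`wt_even`), so the first sum is `0`; in the second symmetrise `i ↦ -i` (`wt_psi`, `X20` even).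
-/

set_option autoImplicit false

namespace RVP

variable {y : ℝ}

/-- `(i,j) ↦ (i-j,j)` -/
private def AsmA_E1 : ℤ × ℤ ≃ ℤ × ℤ where
  toFun w := (w.1 - w.2, w.2)
  invFun w := (w.1 + w.2, w.2)
  left_inv w := by ext <;> simp
  right_inv w := by ext <;> simp

/-- `(i,j) ↦ (j,i-j)` -/
private def AsmA_E2 : ℤ × ℤ ≃ ℤ × ℤ where
  toFun w := (w.2, w.1 - w.2)
  invFun w := (w.1 + w.2, w.1)
  left_inv w := by ext <;> simp
  right_inv w := by ext <;> simp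

/-- `(i,j) ↦ (-i,j)` -/
private def AsmA_E3 : ℤ × ℤ ≃ ℤ × ℤ where
  toFun w := (-w.1, w.2)
  invFun w := (-w.1, w.2)
  left_inv w := by ext <;> simp
  right_inv w := by ext <;> simp

private lemma AsmA_sum {f g : ℤ → ℂ} (hf : Summable fun m => ‖f m‖) (hg : Summable fun m => ‖g m‖)
    {K : ℤ × ℤ → ℂ} {C : ℝ} (hK : ∀ w, ‖K w‖ ≤ C) :
    Summable fun w : ℤ × ℤ => K w * (f w.2 * g w.1) := by
  have h1 : Summable fun w : ℤ × ℤ => ‖g w.1‖ * ‖f w.2‖ :=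
    hg.mul_of_nonneg hf (fun _ => norm_nonneg _) (fun _ => norm_nonneg _)
  refine Summable.of_norm_bounded (h1.mul_left C) fun w => ?_
  rw [norm_mul, norm_mul, mul_comm ‖f w.2‖]
  exact mul_le_mul_of_nonneg_right (hK w) (by positivity)

private lemma AsmA_cw (a b : ℤ) : ‖(cw a b : ℂ)‖ ≤ 20 := by
  rw [Complex.norm_real, Real.norm_eq_abs]
  exact cw_abs a b

private lemma AsmA_F1 {f g : ℤ → ℂ} (hf : Summable fun m => ‖f m‖)
    (hg : Summable fun m => ‖g m‖) :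
    Summable fun w : ℤ × ℤ => (cw w.1 w.2 : ℂ) * (f w.2 * g w.1) :=
  AsmA_sum hf hg (K := fun w => (cw w.1 w.2 : ℂ)) fun _ => AsmA_cw _ _

private lemma AsmA_F2' {f g : ℤ → ℂ} (hf : Summable fun m => ‖f m‖)
    (hg : Summable fun m => ‖g m‖) :
    Summable fun w : ℤ × ℤ => (cw (w.1 - w.2) w.2 : ℂ) * (f w.2 * g w.1) :=
  AsmA_sum hf hg (K := fun w => (cw (w.1 - w.2) w.2 : ℂ)) fun _ => AsmA_cw _ _

private lemma AsmA_F3' {f g : ℤ → ℂ} (hf : Summable fun m => ‖f m‖)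
    (hg : Summable fun m => ‖g m‖) :
    Summable fun w : ℤ × ℤ => (cw w.2 (w.1 - w.2) : ℂ) * (f w.2 * g w.1) :=
  AsmA_sum hf hg (K := fun w => (cw w.2 (w.1 - w.2) : ℂ)) fun _ => AsmA_cw _ _

private lemma AsmA_e1 (f g : ℤ → ℂ) :
    ((fun w : ℤ × ℤ => (cw w.1 w.2 : ℂ) * (f w.2 * g (w.1 + w.2))) ∘ AsmA_E1) =
      fun w : ℤ × ℤ => (cw (w.1 - w.2) w.2 : ℂ) * (f w.2 * g w.1) := by
  funext w
  simp [AsmA_E1]

private lemma AsmA_e2 (f g : ℤ → ℂ) :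
    ((fun w : ℤ × ℤ => (cw w.1 w.2 : ℂ) * (f w.1 * g (w.1 + w.2))) ∘ AsmA_E2) =
      fun w : ℤ × ℤ => (cw w.2 (w.1 - w.2) : ℂ) * (f w.2 * g w.1) := by
  funext w
  simp [AsmA_E2]

private lemma AsmA_F2 {f g : ℤ → ℂ} (hf : Summable fun m => ‖f m‖)
    (hg : Summable fun m => ‖g m‖) :
    Summable fun w : ℤ × ℤ => (cw w.1 w.2 : ℂ) * (f w.2 * g (w.1 + w.2)) := by
  rw [← AsmA_E1.summable_iff, AsmA_e1]
  exact AsmA_F2' hf hg

private lemma AsmA_F3 {f g : ℤ → ℂ} (hf : Summable fun m => ‖f m‖)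
    (hg : Summable fun m => ‖g m‖) :
    Summable fun w : ℤ × ℤ => (cw w.1 w.2 : ℂ) * (f w.1 * g (w.1 + w.2)) := by
  rw [← AsmA_E2.summable_iff, AsmA_e2]
  exact AsmA_F3' hf hg

private lemma AsmA_t2 (f g : ℤ → ℂ) :
    ∑' w : ℤ × ℤ, (cw w.1 w.2 : ℂ) * (f w.2 * g (w.1 + w.2)) =
      ∑' w : ℤ × ℤ, (cw (w.1 - w.2) w.2 : ℂ) * (f w.2 * g w.1) := by
  rw [← AsmA_E1.tsum_eq]
  exact tsum_congr fun w => congrFun (AsmA_e1 f g) w

private lemma AsmA_t3 (f g : ℤ → ℂ) :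
    ∑' w : ℤ × ℤ, (cw w.1 w.2 : ℂ) * (f w.1 * g (w.1 + w.2)) =
      ∑' w : ℤ × ℤ, (cw w.2 (w.1 - w.2) : ℂ) * (f w.2 * g w.1) := by
  rw [← AsmA_E2.tsum_eq]
  exact tsum_congr fun w => congrFun (AsmA_e2 f g) w

/-- pointwise decomposition -/
private lemma AsmA_dec (y : ℝ) (w : ℤ × ℤ) :
    (cw w.1 w.2 : ℂ) * P51 y w =
      2 * ((cw w.1 w.2 : ℂ) * (X y 2 1 w.2 * X y 3 0 w.1))
      + 2 * ((cw w.1 w.2 : ℂ) * (X y 2 1 w.2 * X y 3 0 (w.1 + w.2)))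
      + 2 * ((cw w.1 w.2 : ℂ) * (X y 2 1 w.1 * X y 3 0 (w.1 + w.2)))
      + 2 * ((cw w.1 w.2 : ℂ) * (X y 3 1 w.2 * X y 2 0 (w.1 + w.2)))
      + (-2) * ((cw w.1 w.2 : ℂ) * (X y 3 1 w.2 * X y 2 0 w.1)) := by
  unfold P51
  ring

theorem P51_summable (hy : 0 < y) :
    Summable fun w : ℤ × ℤ => (cw w.1 w.2 : ℂ) * P51 y w := by
  have ha : Summable fun m => ‖X y 2 1 m‖ := X_summable hy (by norm_num)
  have hb : Summable fun m => ‖X y 3 0 m‖ := X_summable hy (by norm_num)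
  have hc : Summable fun m => ‖X y 3 1 m‖ := X_summable hy (by norm_num)
  have hd : Summable fun m => ‖X y 2 0 m‖ := X20_summable hy
  simp_rw [AsmA_dec]
  exact (((((AsmA_F1 ha hb).mul_left 2).add ((AsmA_F2 ha hb).mul_left 2)).add
    ((AsmA_F3 ha hb).mul_left 2)).add ((AsmA_F2 hc hd).mul_left 2)).add
    ((AsmA_F1 hc hd).mul_left (-2))

/-- the first sum vanishes -/
private lemma AsmA_zero (y : ℝ) :
    ∑' w : ℤ × ℤ, ((cw w.1 w.2 + cw (w.1 - w.2) w.2 + cw w.2 (w.1 - w.2) : ℝ) : ℂ) *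
      (X y 2 1 w.2 * X y 3 0 w.1) = 0 := by
  set F : ℤ × ℤ → ℂ := fun w =>
    ((cw w.1 w.2 + cw (w.1 - w.2) w.2 + cw w.2 (w.1 - w.2) : ℝ) : ℂ) *
      (X y 2 1 w.2 * X y 3 0 w.1) with hF
  have h1 : ∑' w, F w = ∑' w, F (AsmA_E3 w) := (AsmA_E3.tsum_eq F).symm
  have h2 : ∀ w, F (AsmA_E3 w) = -F w := by
    intro w
    simp only [hF, AsmA_E3, Equiv.coe_fn_mk]
    rw [X_neg, ← wt_even w.1 w.2]
    ring
  have h3 : ∑' w, F w = -∑' w, F w := by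
    conv_lhs => rw [h1]
    rw [← tsum_neg]
    exact tsum_congr h2
  have h4 : (2 : ℂ) * ∑' w, F w = 0 := by linear_combination h3
  simpa using h4

/-- the second sum -/
private lemma AsmA_half (hy : 0 < y) :
    ∑' w : ℤ × ℤ, ((cw (w.1 - w.2) w.2 - cw w.1 w.2 : ℝ) : ℂ) *
      (X y 3 1 w.2 * X y 2 0 w.1) = -(1 / 6) * W y 3 1 * e2 y := by
  have hc : Summable fun m => ‖X y 3 1 m‖ := X_summable hy (by norm_num)
  have hd : Summable fun m => ‖X y 2 0 m‖ := X20_summable hy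
  set F : ℤ × ℤ → ℂ := fun w =>
    ((cw (w.1 - w.2) w.2 - cw w.1 w.2 : ℝ) : ℂ) * (X y 3 1 w.2 * X y 2 0 w.1) with hF
  have hFs : Summable F := by
    have h := (AsmA_F2' hc hd).sub (AsmA_F1 hc hd)
    refine h.congr fun w => ?_
    simp only [hF]
    push_cast
    ring
  have hFs3 : Summable fun w => F (AsmA_E3 w) := (AsmA_E3.summable_iff (f := F)).mpr hFs
  have h1 : ∑' w, F w = ∑' w, F (AsmA_E3 w) := (AsmA_E3.tsum_eq F).symm
  have h2 : ∀ w, F w + F (AsmA_E3 w) =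
      -(1 / 3) * (((ph w.1 : ℂ) * X y 2 0 w.1) * ((ps w.2 : ℂ) * X y 3 1 w.2)) := by
    intro w
    simp only [hF, AsmA_E3, Equiv.coe_fn_mk]
    rw [X_neg]
    have h := congrArg (fun x : ℝ => (x : ℂ)) (wt_psi w.1 w.2)
    push_cast at h
    push_cast
    linear_combination (X y 3 1 w.2 * X y 2 0 w.1) * h
  have hsd : Summable fun m : ℤ => ‖(ph m : ℂ) * X y 2 0 m‖ := by
    refine Summable.of_nonneg_of_le (fun _ => norm_nonneg _) (fun m => ?_) (hd.mul_left 4)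
    rw [norm_mul, Complex.norm_real, Real.norm_eq_abs]
    exact mul_le_mul_of_nonneg_right (ph_abs m) (norm_nonneg _)
  have hsc : Summable fun m : ℤ => ‖(ps m : ℂ) * X y 3 1 m‖ := by
    refine Summable.of_nonneg_of_le (fun _ => norm_nonneg _) (fun m => ?_) (hc.mul_left 16)
    rw [norm_mul, Complex.norm_real, Real.norm_eq_abs]
    exact mul_le_mul_of_nonneg_right (ps_abs m) (norm_nonneg _)
  have h3 : ∑' w : ℤ × ℤ, ((ph w.1 : ℂ) * X y 2 0 w.1) * ((ps w.2 : ℂ) * X y 3 1 w.2) =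
      e2 y * W y 3 1 := by
    unfold e2 W
    exact (tsum_mul_tsum_of_summable_norm hsd hsc).symm
  have h5 : ∑' w, (F w + F (AsmA_E3 w)) = ∑' w, F w + ∑' w, F (AsmA_E3 w) := hFs.tsum_add hFs3
  have h6 : ∑' w, (F w + F (AsmA_E3 w)) = -(1 / 3) * (e2 y * W y 3 1) := by
    rw [← h3, ← tsum_mul_left]
    exact tsum_congr h2
  have h4 : (2 : ℂ) * ∑' w, F w = -(1 / 3) * (e2 y * W y 3 1) := by
    rw [← h6, h5, ← h1]
    ring
  linear_combination (1 / 2) * h4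

theorem sum51 (hy : 0 < y) :
    ∑' w : ℤ × ℤ, (cw w.1 w.2 : ℂ) * P51 y w = -(1 / 3) * W y 3 1 * e2 y := by
  have ha : Summable fun m => ‖X y 2 1 m‖ := X_summable hy (by norm_num)
  have hb : Summable fun m => ‖X y 3 0 m‖ := X_summable hy (by norm_num)
  have hc : Summable fun m => ‖X y 3 1 m‖ := X_summable hy (by norm_num)
  have hd : Summable fun m => ‖X y 2 0 m‖ := X20_summable hy
  have s1 := (AsmA_F1 ha hb).mul_left 2
  have s2 := (AsmA_F2 ha hb).mul_left 2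
  have s3 := (AsmA_F3 ha hb).mul_left 2
  have s4 := (AsmA_F2 hc hd).mul_left 2
  have s5 := (AsmA_F1 hc hd).mul_left (-2)
  simp_rw [AsmA_dec]
  rw [(((s1.add s2).add s3).add s4).tsum_add s5, ((s1.add s2).add s3).tsum_add s4,
    (s1.add s2).tsum_add s3, s1.tsum_add s2, tsum_mul_left, tsum_mul_left, tsum_mul_left,
    tsum_mul_left, tsum_mul_left, AsmA_t2, AsmA_t3, AsmA_t2]
  have hz := AsmA_zero y
  have hh := AsmA_half hy
  have e1 : ∑' w : ℤ × ℤ, ((cw w.1 w.2 + cw (w.1 - w.2) w.2 + cw w.2 (w.1 - w.2) : ℝ) : ℂ) *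
      (X y 2 1 w.2 * X y 3 0 w.1) =
      ∑' w : ℤ × ℤ, (cw w.1 w.2 : ℂ) * (X y 2 1 w.2 * X y 3 0 w.1)
      + ∑' w : ℤ × ℤ, (cw (w.1 - w.2) w.2 : ℂ) * (X y 2 1 w.2 * X y 3 0 w.1)
      + ∑' w : ℤ × ℤ, (cw w.2 (w.1 - w.2) : ℂ) * (X y 2 1 w.2 * X y 3 0 w.1) := by
    rw [← (AsmA_F1 ha hb).tsum_add (AsmA_F2' ha hb),
      ← ((AsmA_F1 ha hb).add (AsmA_F2' ha hb)).tsum_add (AsmA_F3' ha hb)]
    refine tsum_congr fun w => ?_
    push_cast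
    ring
  have e2' : ∑' w : ℤ × ℤ, ((cw (w.1 - w.2) w.2 - cw w.1 w.2 : ℝ) : ℂ) *
      (X y 3 1 w.2 * X y 2 0 w.1) =
      ∑' w : ℤ × ℤ, (cw (w.1 - w.2) w.2 : ℂ) * (X y 3 1 w.2 * X y 2 0 w.1)
      - ∑' w : ℤ × ℤ, (cw w.1 w.2 : ℂ) * (X y 3 1 w.2 * X y 2 0 w.1) := by
    rw [← (AsmA_F2' hc hd).tsum_sub (AsmA_F1 hc hd)]
    refine tsum_congr fun w => ?_
    push_cast
    ring
  rw [e1] at hz
  rw [e2'] at hh
  linear_combination 2 * hz + 2 * hh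

end RVP
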