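import Mathlib
import Pool.Agent.RVP.Defs
import Pool.Agent.RVP.Bas

/-!
# RVP/RowA: the rows `X_11`

`Σ_n 1/((n - m/2)² + m²y²) = (1/(2imy)) Σ_n (1/(n - m/2 - imy) - 1/(n - m/2 + imy)) = (π/(2imy)) (cot π(-m/2-imy) - cot π(-m/2+imy))`
(Mathlib: `cot_series_rep`, `pi_mul_cot_pi_q_exp`); with `q = qm y = exp (2πi u)` this is
`(π/(|m|y)) (1 + 2 Σ_{k≥1} q^{|m|k})`.
-/

set_option autoImplicit false

open Filter Topology

namespace RVP

variable {y : ℝ}

private theorem RowA_iv_ic (y : ℝ) (v : ℤ × ℤ) : iv y v * ic y v = ((‖iv y v‖ ^ 2 : ℝ) : ℂ) := by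
  rw [← conj_iv, Complex.mul_conj, Complex.normSq_eq_norm_sq]

/-- the sum of the absolute values of a row -/
private theorem RowA_row_abs (y : ℝ) (m : ℤ) :
    ((∑' n : ℤ, ‖iv y (m, n)‖ ^ 2 : ℝ) : ℂ) = X y 1 1 m := by
  unfold X
  rw [Complex.ofReal_tsum]
  refine tsum_congr fun n => ?_
  rw [pow_one, pow_one, RowA_iv_ic]

theorem X11_zero (y : ℝ) : X y 1 1 0 = ((Real.pi ^ 2 / 3 : ℝ) : ℂ) := by
  rw [← RowA_row_abs]
  congr 1
  have h0 : ∀ n : ℤ, ‖iv y (0, n)‖ ^ 2 = 1 / (n : ℝ) ^ 2 := by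
    intro n
    have h1 : pt y (0, n) = (n : ℂ) := by
      apply Complex.ext <;> simp [pt]
    unfold iv
    rw [h1, norm_inv, inv_pow, one_div, Complex.norm_intCast, sq_abs]
  simp only [h0]
  have h1 : HasSum (fun n : ℕ => 1 / (((n : ℤ) : ℝ)) ^ 2) (Real.pi ^ 2 / 6) := by
    simpa using hasSum_zeta_two
  have h2 : HasSum (fun n : ℕ => 1 / (((-((n : ℤ) + 1) : ℤ) : ℝ)) ^ 2) (Real.pi ^ 2 / 6) := by
    have h3 : HasSum (fun n : ℕ => 1 / (((n + 1 : ℕ)) : ℝ) ^ 2) (Real.pi ^ 2 / 6) := by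
      rw [hasSum_nat_add_iff (f := fun n : ℕ => 1 / ((n : ℕ) : ℝ) ^ 2) 1]
      simpa using hasSum_zeta_two
    convert h3 using 3 with n
    push_cast
    ring
  have h3 := (HasSum.of_nat_of_neg_add_one (f := fun n : ℤ => 1 / (n : ℝ) ^ 2) h1 h2).tsum_eq
  rw [h3]
  ring

private theorem RowA_cot {z : ℂ} (hz : 0 < z.im)
    (hf : Summable fun n : ℤ => ‖(z + (n : ℂ))⁻¹‖ ^ 2) :
    z.im * ∑' n : ℤ, ‖(z + (n : ℂ))⁻¹‖ ^ 2 = Real.pi *
      (1 + 2 * (∑' k : ℕ, Complex.exp (2 * Real.pi * Complex.I * z) ^ (k + 1)).re) := by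
  have hzi : z ∈ Complex.integerComplement :=
    UpperHalfPlane.coe_mem_integerComplement ⟨z, hz⟩
  set f : ℤ → ℝ := fun n => ‖(z + (n : ℂ))⁻¹‖ ^ 2 with hfd
  have him : ∀ w : ℂ, (w⁻¹).im = -(w.im * ‖w⁻¹‖ ^ 2) := by
    intro w
    rw [Complex.inv_im, norm_inv, inv_pow, Complex.sq_norm]
    ring
  -- the imaginary part of the cotangent series
  have h1 : HasSum (fun n : ℕ => -(z.im * (f (-((n : ℤ) + 1)) + f ((n : ℤ) + 1))))
      (Real.pi * Complex.cot (Real.pi * z) - 1 / z).im := by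
    have h3 : ∑' n, cotTerm z n = Real.pi * Complex.cot (Real.pi * z) - 1 / z :=
      (cot_series_rep' hzi).symm
    have h2 := Complex.hasSum_im (summable_cotTerm hzi).hasSum
    rw [h3] at h2
    have h12 : (fun n : ℕ => -(z.im * (f (-((n : ℤ) + 1)) + f ((n : ℤ) + 1)))) =
        fun n : ℕ => (cotTerm z n).im := by
      funext n
      symm
      show (1 / (z - ((n : ℂ) + 1)) + 1 / (z + ((n : ℂ) + 1))).im = _
      have h4 : z - ((n : ℂ) + 1) = z + ((-((n : ℤ) + 1) : ℤ) : ℂ) := by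
        push_cast
        ring
      have h5 : z + ((n : ℂ) + 1) = z + (((n : ℤ) + 1 : ℤ) : ℂ) := by
        push_cast
        ring
      rw [h4, h5, one_div, one_div, Complex.add_im, him, him, Complex.add_im, Complex.add_im,
        Complex.intCast_im, Complex.intCast_im, hfd]
      ring
    rw [h12]
    exact h2
  have hp : HasSum (fun n : ℕ => f ((n : ℤ) + 1)) (∑' n : ℕ, f ((n : ℤ) + 1)) := by
    refine Summable.hasSum ?_
    refine hf.comp_injective (i := fun n : ℕ => (n : ℤ) + 1) ?_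
    intro a b h
    simpa using h
  have hn : HasSum (fun n : ℕ => f (-((n : ℤ) + 1))) (∑' n : ℕ, f (-((n : ℤ) + 1))) := by
    refine Summable.hasSum ?_
    refine hf.comp_injective (i := fun n : ℕ => -((n : ℤ) + 1)) ?_
    intro a b h
    simpa using h
  have h0 : HasSum (fun n : ℕ => f (n : ℤ)) (f 0 + ∑' n : ℕ, f ((n : ℤ) + 1)) := by
    have h6 := (hasSum_nat_add_iff (f := fun n : ℕ => f (n : ℤ)) 1).mp
      (by simpa using hp)
    simpa [add_comm] using h6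
  have hS : ∑' n : ℤ, f n = f 0 + ∑' n : ℕ, f ((n : ℤ) + 1) + ∑' n : ℕ, f (-((n : ℤ) + 1)) :=
    (HasSum.of_nat_of_neg_add_one h0 hn).tsum_eq
  have h7 : -(z.im * (∑' n : ℕ, f (-((n : ℤ) + 1)) + ∑' n : ℕ, f ((n : ℤ) + 1))) =
      (Real.pi * Complex.cot (Real.pi * z) - 1 / z).im :=
    (((hn.add hp).mul_left z.im).neg).unique h1
  have h8 : (1 / z).im = -(z.im * f 0) := by
    rw [one_div, him, hfd]
    simp
  have h9 := pi_mul_cot_pi_q_exp ⟨z, hz⟩
  have hQ : ‖Complex.exp (2 * Real.pi * Complex.I * z)‖ < 1 :=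
    UpperHalfPlane.norm_exp_two_pi_I_lt_one ⟨z, hz⟩
  have h10 : ∑' n : ℕ, Complex.exp (2 * Real.pi * Complex.I * z) ^ n =
      1 + ∑' k : ℕ, Complex.exp (2 * Real.pi * Complex.I * z) ^ (k + 1) := by
    have := (summable_geometric_of_norm_lt_one hQ).tsum_eq_zero_add
    simpa using this
  have h11 : (Real.pi * Complex.cot (Real.pi * z)).im =
      -(Real.pi + 2 * Real.pi *
        (∑' k : ℕ, Complex.exp (2 * Real.pi * Complex.I * z) ^ (k + 1)).re) := by
    have h12 : (Real.pi * Complex.cot (Real.pi * z)) =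
      Real.pi * Complex.I - 2 * Real.pi * Complex.I *
        ∑' n : ℕ, Complex.exp (2 * Real.pi * Complex.I * z) ^ n := h9
    rw [h12, h10]
    simp [Complex.mul_im, Complex.mul_re, Complex.add_im]
    ring
  rw [Complex.sub_im, h8, h11] at h7
  rw [hS]
  linear_combination -h7

private theorem RowA_real (hy : 0 < y) {N : ℕ} (hN : 0 < N) :
    ∑' n : ℤ, ‖iv y ((N : ℤ), n)‖ ^ 2 = Real.pi / ((N : ℝ) * y) *
      (1 + 2 * ∑' k : ℕ, qr y ^ (N * (k + 1))) := by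
  set z : ℂ := pt y ((N : ℤ), 0) with hz
  have hNr : (0 : ℝ) < N := by exact_mod_cast hN
  have hzi : z.im = N * y := by simp [hz, pt]
  have hz0 : 0 < z.im := by rw [hzi]; positivity
  have hiv : ∀ n : ℤ, iv y ((N : ℤ), n) = (z + (n : ℂ))⁻¹ := by
    intro n
    unfold iv
    congr 1
    rw [hz]
    apply Complex.ext <;> simp [pt]
    ring
  have hf : Summable fun n : ℤ => ‖(z + (n : ℂ))⁻¹‖ ^ 2 := by
    have := summable_row2 hy (N : ℤ)
    simpa only [hiv] using this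
  have hc := RowA_cot hz0 hf
  have hQ : Complex.exp (2 * Real.pi * Complex.I * z) = ((qr y ^ N : ℝ) : ℂ) := by
    have h1 : 2 * Real.pi * Complex.I * z =
        (N : ℂ) * (-(Real.pi * Complex.I) + ((-(2 * Real.pi * y) : ℝ) : ℂ)) := by
      have h2 : z = (N : ℂ) * (-(1 / 2) + y * Complex.I) := by
        rw [hz]
        apply Complex.ext <;> simp [pt]
        ring
      rw [h2]
      push_cast
      linear_combination (2 * Real.pi * N * y : ℂ) * Complex.I_mul_I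
    rw [h1, Complex.exp_nat_mul, Complex.exp_add, Complex.exp_neg, Complex.exp_pi_mul_I,
      ← Complex.ofReal_exp]
    unfold qr
    push_cast
    congr 1
    norm_num
  have hre : (∑' k : ℕ, Complex.exp (2 * Real.pi * Complex.I * z) ^ (k + 1)).re =
      ∑' k : ℕ, qr y ^ (N * (k + 1)) := by
    have h1 : ∑' k : ℕ, Complex.exp (2 * Real.pi * Complex.I * z) ^ (k + 1) =
        ((∑' k : ℕ, qr y ^ (N * (k + 1)) : ℝ) : ℂ) := by
      rw [Complex.ofReal_tsum]
      refine tsum_congr fun k => ?_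
      rw [hQ, pow_mul]
      push_cast
      rfl
    rw [h1, Complex.ofReal_re]
  rw [hre, hzi] at hc
  simp only [hiv]
  have : (N : ℝ) * y ≠ 0 := by positivity
  rw [div_mul_eq_mul_div, eq_div_iff this, ← hc]
  ring

theorem X11_eq (hy : 0 < y) {m : ℤ} (hm : m ≠ 0) :
    X y 1 1 m = ((Real.pi / (|(m : ℝ)| * y) *
      (1 + 2 * ∑' k : ℕ, qr y ^ (m.natAbs * (k + 1))) : ℝ) : ℂ) := by
  have hN : 0 < m.natAbs := Int.natAbs_pos.mpr hm
  have h1 : X y 1 1 m = X y 1 1 (m.natAbs : ℤ) := by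
    rcases Int.natAbs_eq m with h | h
    · rw [← h]
    · conv_lhs => rw [h]
      rw [X_neg]
      norm_num
  have h2 : |(m : ℝ)| = (m.natAbs : ℝ) := by
    rw [Nat.cast_natAbs, Int.cast_abs]
  rw [h1, ← RowA_row_abs, RowA_real hy hN, h2]

private theorem RowA_qr_abs (y : ℝ) : |qr y| = Real.exp (-(2 * Real.pi * y)) := by
  unfold qr
  rw [abs_neg, abs_of_pos (Real.exp_pos _)]

private theorem RowA_qr_lt (hy : 0 < y) : |qr y| < 1 := by
  rw [RowA_qr_abs, Real.exp_lt_one_iff]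
  have := mul_pos Real.pi_pos hy
  linarith

private theorem RowA_tail (hy : 0 < y) {N : ℕ} (hN : 0 < N) :
    |∑' k : ℕ, qr y ^ (N * (k + 1))| ≤ |qr y| / (1 - |qr y|) := by
  have h0 := abs_nonneg (qr y)
  have h1 := RowA_qr_lt hy
  have hs : HasSum (fun k : ℕ => |qr y| * |qr y| ^ k) (|qr y| * (1 - |qr y|)⁻¹) :=
    (hasSum_geometric_of_lt_one h0 h1).mul_left _
  have hle : ∀ k : ℕ, ‖qr y ^ (N * (k + 1))‖ ≤ |qr y| * |qr y| ^ k := by
    intro k
    rw [norm_pow, Real.norm_eq_abs, ← pow_succ']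
    exact pow_le_pow_of_le_one h0 h1.le (Nat.le_mul_of_pos_left _ hN)
  have := tsum_of_norm_bounded hs hle
  rw [Real.norm_eq_abs] at this
  rwa [div_eq_mul_inv]

private theorem RowA_norm_le (hy : 0 < y) {m : ℤ} (hm : m ≠ 0) :
    ‖X y 1 1 m‖ ≤ Real.pi / (|(m : ℝ)| * y) * (1 + 2 * (|qr y| / (1 - |qr y|))) := by
  have hmr : (0 : ℝ) < |(m : ℝ)| := abs_pos.mpr (by exact_mod_cast hm)
  have hN : 0 < m.natAbs := Int.natAbs_pos.mpr hm
  rw [X11_eq hy hm, Complex.norm_real, norm_mul, Real.norm_eq_abs, Real.norm_eq_abs,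
    abs_of_pos (by have := Real.pi_pos; positivity : 0 < Real.pi / (|(m : ℝ)| * y))]
  refine mul_le_mul_of_nonneg_left ?_ (by have := Real.pi_pos; positivity)
  have h1 := RowA_tail hy hN
  have h2 := abs_add_le 1 (2 * ∑' k : ℕ, qr y ^ (m.natAbs * (k + 1)))
  rw [abs_one, abs_mul, abs_two] at h2
  linarith

theorem X11_tendsto (hy : 0 < y) : Tendsto (X y 1 1) cofinite (𝓝 0) := by
  set C : ℝ := Real.pi / y * (1 + 2 * (|qr y| / (1 - |qr y|))) with hC
  have h1 : Tendsto (fun m : ℤ => C / |(m : ℝ)|) cofinite (𝓝 0) := by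
    have h2 : Tendsto (fun m : ℤ => |(m : ℝ)|) cofinite atTop := by
      rw [Int.cofinite_eq, tendsto_sup]
      exact ⟨tendsto_abs_atBot_atTop.comp (tendsto_intCast_atBot_iff.mpr tendsto_id),
        tendsto_abs_atTop_atTop.comp tendsto_intCast_atTop_atTop⟩
    exact tendsto_const_nhds.div_atTop h2
  refine squeeze_zero_norm' ?_ h1
  have h3 : ∀ᶠ m : ℤ in cofinite, m ≠ 0 := by
    rw [eventually_cofinite]
    simp
  filter_upwards [h3] with m hm
  refine (RowA_norm_le hy hm).trans (le_of_eq ?_)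
  rw [hC]
  have hmr : (0 : ℝ) < |(m : ℝ)| := abs_pos.mpr (by exact_mod_cast hm)
  field_simp

private theorem RowA_exp (hy : 1 ≤ y) : |qr y| ≤ 1 / 10 := by
  rw [RowA_qr_abs, Real.exp_neg, inv_le_comm₀ (Real.exp_pos _) (by norm_num)]
  have h1 := Real.pi_gt_three
  have h2 : (6 : ℝ) ≤ 2 * Real.pi * y := by nlinarith
  have h3 := Real.quadratic_le_exp_of_nonneg (by linarith : (0 : ℝ) ≤ 2 * Real.pi * y)
  nlinarith

theorem X11_le (hy : 1 ≤ y) {m : ℤ} (hm : m ≠ 0) : ‖X y 1 1 m‖ ≤ 4 / (|(m : ℝ)| * y) := by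
  have hy0 : 0 < y := by linarith
  have hmr : (0 : ℝ) < |(m : ℝ)| := abs_pos.mpr (by exact_mod_cast hm)
  refine (RowA_norm_le hy0 hm).trans ?_
  rw [div_mul_eq_mul_div]
  refine div_le_div_of_nonneg_right ?_ (by positivity)
  have h0 := abs_nonneg (qr y)
  have h1 := RowA_exp hy
  have h2 : |qr y| / (1 - |qr y|) ≤ 1 / 9 := by
    rw [div_le_div_iff₀ (by linarith) (by norm_num)]
    linarith
  have h3 : Real.pi < 3.15 := Real.pi_lt_d2
  have h4 := Real.pi_pos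
  nlinarith

/-- `y X_11(m) → π/|m|` -/
theorem X11_lim {m : ℤ} (hm : m ≠ 0) :
    Tendsto (fun y : ℝ => (y : ℂ) * X y 1 1 m) atTop (𝓝 ((Real.pi / |(m : ℝ)| : ℝ) : ℂ)) := by
  have hmr : (0 : ℝ) < |(m : ℝ)| := abs_pos.mpr (by exact_mod_cast hm)
  have hN : 0 < m.natAbs := Int.natAbs_pos.mpr hm
  have hq : Tendsto (fun y : ℝ => |qr y|) atTop (𝓝 0) := by
    simp only [RowA_qr_abs]
    refine Real.tendsto_exp_neg_atTop_nhds_zero.comp ?_
    exact tendsto_id.const_mul_atTop (by have := Real.pi_pos; positivity)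
  have hq2 : Tendsto (fun y : ℝ => |qr y| / (1 - |qr y|)) atTop (𝓝 0) := by
    have := hq.div (tendsto_const_nhds.sub hq) (by norm_num : (1 : ℝ) - 0 ≠ 0)
    rw [zero_div] at this
    exact this
  have hq3 : Tendsto (fun y : ℝ => ∑' k : ℕ, qr y ^ (m.natAbs * (k + 1))) atTop (𝓝 0) := by
    refine squeeze_zero_norm' ?_ hq2
    filter_upwards [eventually_gt_atTop (0 : ℝ)] with y hy
    exact RowA_tail hy hN
  have h1 : Tendsto (fun y : ℝ => ((Real.pi / |(m : ℝ)| *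
      (1 + 2 * ∑' k : ℕ, qr y ^ (m.natAbs * (k + 1))) : ℝ) : ℂ)) atTop
      (𝓝 ((Real.pi / |(m : ℝ)| * (1 + 2 * 0) : ℝ) : ℂ)) :=
    (Complex.continuous_ofReal.tendsto _).comp
      (((hq3.const_mul 2).const_add 1).const_mul _)
  rw [mul_zero, add_zero, mul_one] at h1
  refine h1.congr' ?_
  filter_upwards [eventually_gt_atTop (0 : ℝ)] with y hy
  rw [X11_eq hy hm, ← Complex.ofReal_mul]
  congr 1
  field_simp

/-- the sum of the absolute values of a row -/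
theorem row_abs (hy : 0 < y) (m : ℤ) : ((∑' n : ℤ, ‖iv y (m, n)‖ ^ 2 : ℝ) : ℂ) = X y 1 1 m :=
  RowA_row_abs y m

theorem row2_le (hy : 1 ≤ y) {m : ℤ} (hm : m ≠ 0) :
    ∑' n : ℤ, ‖iv y (m, n)‖ ^ 2 ≤ 4 / (|(m : ℝ)| * y) := by
  have h1 := X11_le hy hm
  rw [← row_abs (by linarith) m, Complex.norm_real, Real.norm_eq_abs,
    abs_of_nonneg (tsum_nonneg fun n => by positivity)] at h1
  exact h1

end RVP
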