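import Mathlib
import Pool.Agent.RVP.Defs
import Pool.Agent.RVP.Bas
import Pool.Agent.RVP.Wt
import Pool.Agent.RVP.RowA
import Pool.Agent.RVP.RowB

/-!
# RVP/GG: `Σ φ(m) X_11(m)` and `Σ φ(m) X_20(m)`

`Σ_{m=1}^N φ(m)/m → -2 log 2` (`Σ (-1)^m/m = -log 2`, and `Σ_{3|m} 3 (-1)^m/m` is the same series), and
`Σ_{m=1}^N (φ(m)/m) Σ_k q^{m(k+1)} → Lq` (absolutely convergent double series).  So
`Σ_{|m| ≤ N} φ(m) X_11(m) → 4π²/3 + (2π/y) (-2 log 2 + 2 Lq) = -(4π/3) ℓ/y`.
`e2 = 4π²/3 - 8π² Σ_{m,k ≥ 1} φ(m) k q^{mk} = -(4π/3) dell`.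
-/

set_option autoImplicit false

open Filter Topology

namespace RVP

variable {y : ℝ}

private lemma GG_sg_nat (m : ℕ) : sg (m : ℤ) = if m % 2 = 0 then 1 else -1 := by
  unfold sg
  by_cases h : m % 2 = 0
  · rw [if_pos h, if_pos (by omega)]
  · rw [if_neg h, if_neg (by omega)]

/-- alternating harmonic sums through harmonic numbers -/
private lemma GG_alt (N : ℕ) : ∑ m ∈ Finset.range N, sg ((m : ℤ) + 1) / ((m : ℝ) + 1) =
    (harmonic (N / 2) : ℝ) - harmonic N := by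
  induction N with
  | zero => simp
  | succ N ih =>
    rw [Finset.sum_range_succ, ih]
    have h1 : sg ((N : ℤ) + 1) = if (N + 1) % 2 = 0 then 1 else -1 := by
      have := GG_sg_nat (N + 1)
      push_cast at this
      exact this
    rw [h1, harmonic_succ N]
    have hN : (0 : ℝ) < (N : ℝ) + 1 := by positivity
    by_cases h : (N + 1) % 2 = 0
    · have h2 : (N + 1) / 2 = N / 2 + 1 := by omega
      have h3 : ((N / 2 + 1 : ℕ) : ℝ) = ((N : ℝ) + 1) / 2 := by
        have : 2 * (N / 2 + 1) = N + 1 := by omega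
        have h4 : (2 : ℝ) * ((N / 2 + 1 : ℕ) : ℝ) = (N : ℝ) + 1 := by exact_mod_cast this
        linarith
      rw [if_pos h, h2, harmonic_succ]
      push_cast
      push_cast at h3
      rw [h3]
      field_simp
      ring
    · have h2 : (N + 1) / 2 = N / 2 := by omega
      rw [if_neg h, h2]
      push_cast
      field_simp
      ring

private lemma GG_div_ratio {d : ℕ} (hd : 0 < d) :
    Tendsto (fun N : ℕ => ((N / d : ℕ) : ℝ) / N) atTop (𝓝 (1 / d)) := by
  have h := tendsto_nat_floor_mul_div_atTop (R := ℝ) (a := 1 / d) (by positivity)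
  have h2 := h.comp (tendsto_natCast_atTop_atTop (R := ℝ))
  refine h2.congr fun N => ?_
  simp only [Function.comp]
  congr 2
  have : (1 / (d : ℝ)) * (N : ℝ) = (N : ℝ) / (d : ℝ) := by ring
  rw [this, Nat.floor_div_natCast, Nat.floor_natCast]

private lemma GG_alt_lim : Tendsto (fun N : ℕ => ∑ m ∈ Finset.range N, sg ((m : ℤ) + 1) / ((m : ℝ) + 1))
    atTop (𝓝 (-Real.log 2)) := by
  simp only [GG_alt]
  have h1 := Real.tendsto_harmonic_sub_log
  have h2 := h1.comp (Nat.tendsto_div_const_atTop (n := 2) (by norm_num))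
  have h3 := (GG_div_ratio (d := 2) (by norm_num)).log (by norm_num)
  have h4 := (h2.add h3).sub h1
  have h5 : Real.eulerMascheroniConstant + Real.log (1 / (2 : ℕ)) - Real.eulerMascheroniConstant =
      -Real.log 2 := by
    rw [one_div, Real.log_inv]
    push_cast
    ring
  rw [h5] at h4
  refine h4.congr' ?_
  filter_upwards [eventually_ge_atTop 2] with N hN
  simp only [Function.comp]
  have h6 : 0 < N / 2 := Nat.div_pos hN (by norm_num)
  have h7 : ((N / 2 : ℕ) : ℝ) ≠ 0 := by positivity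
  have h8 : (N : ℝ) ≠ 0 := by
    have : 0 < N := by omega
    positivity
  rw [Real.log_div h7 h8]
  ring

private lemma GG_split (N : ℕ) : ∑ m ∈ Finset.range N, ph ((m : ℤ) + 1) / ((m : ℝ) + 1) =
    (∑ m ∈ Finset.range N, sg ((m : ℤ) + 1) / ((m : ℝ) + 1)) +
      ∑ m ∈ Finset.range (N / 3), sg ((m : ℤ) + 1) / ((m : ℝ) + 1) := by
  induction N with
  | zero => simp
  | succ N ih =>
    rw [Finset.sum_range_succ, Finset.sum_range_succ, ih]
    by_cases h : (N + 1) % 3 = 0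
    · have h2 : (N + 1) / 3 = N / 3 + 1 := by omega
      rw [h2, Finset.sum_range_succ]
      have h3 : ph ((N : ℤ) + 1) = 4 * sg ((N : ℤ) + 1) := by
        unfold ph t3
        rw [if_pos (by omega)]
        ring
      have h4 : sg (((N / 3 : ℕ) : ℤ) + 1) = sg ((N : ℤ) + 1) := by
        unfold sg
        by_cases h5 : ((N : ℤ) + 1) % 2 = 0
        · rw [if_pos h5, if_pos (by omega)]
        · rw [if_neg h5, if_neg (by omega)]
      have h6 : (((N / 3 : ℕ) : ℝ) + 1) = ((N : ℝ) + 1) / 3 := by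
        have : 3 * (N / 3 + 1) = N + 1 := by omega
        have h4 : (3 : ℝ) * (((N / 3 : ℕ) : ℝ) + 1) = (N : ℝ) + 1 := by exact_mod_cast this
        linarith
      rw [h3, h4, h6]
      have hN : (0 : ℝ) < (N : ℝ) + 1 := by positivity
      field_simp
      ring
    · have h2 : (N + 1) / 3 = N / 3 := by omega
      have h3 : ph ((N : ℤ) + 1) = sg ((N : ℤ) + 1) := by
        unfold ph t3
        rw [if_neg (by omega)]
        ring
      rw [h2, h3]
      ring

theorem ph_sum : Tendsto (fun N : ℕ => ∑ m ∈ Finset.range N, ph (m + 1) / ((m : ℝ) + 1)) atTop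
    (𝓝 (-(2 * Real.log 2))) := by
  have h1 := GG_alt_lim
  have h2 := h1.comp (Nat.tendsto_div_const_atTop (n := 3) (by norm_num))
  have h3 := h1.add h2
  have h4 : -Real.log 2 + -Real.log 2 = -(2 * Real.log 2) := by ring
  rw [h4] at h3
  refine h3.congr fun N => ?_
  rw [GG_split]
  rfl

private lemma GG_Icc (f : ℤ → ℂ) (hf : ∀ m, f (-m) = f m) (N : ℕ) :
    ∑ m ∈ Finset.Icc (-(N : ℤ)) N, f m = f 0 + 2 * ∑ m ∈ Finset.range N, f ((m : ℤ) + 1) := by
  induction N with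
  | zero => simp
  | succ N ih =>
    have h1 : Finset.Icc (-((N + 1 : ℕ) : ℤ)) ((N + 1 : ℕ) : ℤ) =
        insert (-((N : ℤ) + 1)) (insert ((N : ℤ) + 1) (Finset.Icc (-(N : ℤ)) N)) := by
      ext x
      simp only [Finset.mem_insert, Finset.mem_Icc]
      push_cast
      omega
    rw [h1, Finset.sum_insert, Finset.sum_insert, ih, Finset.sum_range_succ, hf]
    · ring
    · simp
    · simp only [Finset.mem_insert, Finset.mem_Icc]
      omega

private lemma GG_qr_abs (y : ℝ) : |qr y| = Real.exp (-(2 * Real.pi * y)) := by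
  unfold qr
  rw [abs_neg, abs_of_pos (Real.exp_pos _)]

private lemma GG_qr_lt (hy : 0 < y) : |qr y| < 1 := by
  rw [GG_qr_abs, Real.exp_lt_one_iff]
  have := mul_pos Real.pi_pos hy
  linarith

private lemma GG_ph_zero : ph 0 = 4 := by
  norm_num [ph, sg, t3]

private lemma GG_summ0 {r : ℝ} (h0 : 0 ≤ r) (h1 : r < 1) : Summable fun n : ℕ => ((n : ℝ) + 1) * r ^ n := by
  have h2 : Summable fun n : ℕ => (n : ℝ) ^ 1 * r ^ n :=
    summable_pow_mul_geometric_of_norm_lt_one 1 (by rwa [Real.norm_eq_abs, abs_of_nonneg h0])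
  have h3 : Summable fun n : ℕ => r ^ n := summable_geometric_of_lt_one h0 h1
  refine (h2.add h3).congr fun n => ?_
  ring

private lemma GG_pow_le {r : ℝ} (h0 : 0 ≤ r) (h1 : r < 1) (a b : ℕ) :
    r ^ ((a + 1) * (b + 1)) ≤ r ^ a * r ^ b := by
  rw [← pow_add]
  refine pow_le_pow_of_le_one h0 h1.le ?_
  nlinarith [Nat.zero_le (a * b)]

/-- the two double series converge absolutely -/
private lemma GG_summ (hy : 0 < y) : Summable fun x : ℕ × ℕ =>
    ph (x.2 + 1) * (x.1 + 1) * qr y ^ ((x.1 + 1) * (x.2 + 1)) := by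
  have h0 := abs_nonneg (qr y)
  have h1 := GG_qr_lt hy
  have h2 := Summable.mul_of_nonneg (GG_summ0 h0 h1) (summable_geometric_of_lt_one h0 h1)
    (fun n => by positivity) (fun n => by positivity)
  refine Summable.of_norm_bounded (h2.mul_left 4) fun x => ?_
  rw [norm_mul, norm_mul, norm_pow, Real.norm_eq_abs, Real.norm_eq_abs, Real.norm_eq_abs]
  have h3 := ph_abs ((x.2 : ℤ) + 1)
  have h4 := GG_pow_le h0 h1 x.1 x.2
  have h5 : |((x.1 : ℝ) + 1)| = (x.1 : ℝ) + 1 := abs_of_nonneg (by positivity)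
  rw [h5]
  have h6 : (0 : ℝ) ≤ (x.1 : ℝ) + 1 := by positivity
  calc |ph ((x.2 : ℤ) + 1)| * ((x.1 : ℝ) + 1) * |qr y| ^ ((x.1 + 1) * (x.2 + 1))
      ≤ 4 * ((x.1 : ℝ) + 1) * (|qr y| ^ x.1 * |qr y| ^ x.2) := by gcongr
    _ = 4 * (((x.1 : ℝ) + 1) * |qr y| ^ x.1 * |qr y| ^ x.2) := by ring

private lemma GG_summL (hy : 0 < y) : Summable fun x : ℕ × ℕ =>
    ph (x.2 + 1) * qr y ^ ((x.1 + 1) * (x.2 + 1)) / (x.2 + 1) := by
  refine Summable.of_norm_bounded (GG_summ hy).norm fun x => ?_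
  rw [norm_div, norm_mul, norm_mul, norm_mul]
  have h5 : ‖((x.1 : ℝ) + 1)‖ = (x.1 : ℝ) + 1 := by
    rw [Real.norm_eq_abs]; exact abs_of_nonneg (by positivity)
  have h6 : ‖((x.2 : ℝ) + 1)‖ = (x.2 : ℝ) + 1 := by
    rw [Real.norm_eq_abs]; exact abs_of_nonneg (by positivity)
  rw [h5, h6]
  rw [div_le_iff₀ (by positivity)]
  have h7 : (1 : ℝ) ≤ ((x.1 : ℝ) + 1) * ((x.2 : ℝ) + 1) := by
    have : (0 : ℝ) ≤ (x.1 : ℝ) := by positivity
    have : (0 : ℝ) ≤ (x.2 : ℝ) := by positivity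
    nlinarith [mul_nonneg (Nat.cast_nonneg (α := ℝ) x.1) (Nat.cast_nonneg (α := ℝ) x.2)]
  have h8 : 0 ≤ ‖ph ((x.2 : ℤ) + 1)‖ * ‖qr y ^ ((x.1 + 1) * (x.2 + 1))‖ := by positivity
  nlinarith

/-- sum over the first variable inside -/
private lemma GG_fib {f : ℕ × ℕ → ℝ} (hf : Summable f) :
    HasSum (fun j : ℕ => ∑' k : ℕ, f (k, j)) (∑' x, f x) := by
  have h1 : HasSum (fun x : ℕ × ℕ => f x.swap) (∑' x, f x) := by
    have := (Equiv.prodComm ℕ ℕ).hasSum_iff (f := f) (a := ∑' x, f x)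
    exact this.mpr hf.hasSum
  have h2 : Summable fun x : ℕ × ℕ => f x.swap := h1.summable
  exact h1.prod_fiberwise fun j => (h2.prod_factor j).hasSum

theorem G_tendsto (hy : 0 < y) :
    Tendsto (fun N : ℕ => ∑ m ∈ Finset.Icc (-(N : ℤ)) N, (ph m : ℂ) * X y 1 1 m) atTop
      (𝓝 (G y)) := by
  have hfib := GG_fib (GG_summL hy)
  have h1 := hfib.tendsto_sum_nat
  have h2 := ph_sum
  have h3 := (((h2.const_mul (2 * Real.pi / y)).add (h1.const_mul (4 * Real.pi / y))).const_add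
    (4 * Real.pi ^ 2 / 3))
  have h4 : 4 * Real.pi ^ 2 / 3 + (2 * Real.pi / y * -(2 * Real.log 2) + 4 * Real.pi / y *
      ∑' x : ℕ × ℕ, ph (x.2 + 1) * qr y ^ ((x.1 + 1) * (x.2 + 1)) / (x.2 + 1)) =
      -(4 * Real.pi / 3) * ell y / y := by
    unfold ell Lq
    have := hy.ne'
    field_simp
    ring
  rw [h4] at h3
  have h5 := (Complex.continuous_ofReal.tendsto _).comp h3
  unfold G
  refine h5.congr fun N => ?_
  rw [GG_Icc (fun m => (ph m : ℂ) * X y 1 1 m)
    (fun m => by rw [ph_neg, X_neg]; norm_num) N]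
  simp only [Function.comp]
  rw [GG_ph_zero, X11_zero]
  have h6 : ∀ m : ℕ, (ph ((m : ℤ) + 1) : ℂ) * X y 1 1 ((m : ℤ) + 1) =
      ((Real.pi / y * (ph ((m : ℤ) + 1) / ((m : ℝ) + 1)) + 2 * Real.pi / y *
        ∑' k : ℕ, ph ((m : ℤ) + 1) * qr y ^ ((k + 1) * (m + 1)) / ((m : ℝ) + 1) : ℝ) : ℂ) := by
    intro m
    have hm : ((m : ℤ) + 1) ≠ 0 := by omega
    rw [X11_eq hy hm, ← Complex.ofReal_mul]
    congr 1
    have h7 : ((m : ℤ) + 1).natAbs = m + 1 := by omega
    have h8 : |((((m : ℤ) + 1 : ℤ)) : ℝ)| = (m : ℝ) + 1 := by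
      push_cast
      exact abs_of_nonneg (by positivity)
    rw [h7, h8]
    have h9 : ∑' k : ℕ, ph ((m : ℤ) + 1) * qr y ^ ((k + 1) * (m + 1)) / ((m : ℝ) + 1) =
        ph ((m : ℤ) + 1) / ((m : ℝ) + 1) * ∑' k : ℕ, qr y ^ ((m + 1) * (k + 1)) := by
      rw [← tsum_mul_left]
      refine tsum_congr fun k => ?_
      rw [Nat.mul_comm (k + 1) (m + 1)]
      ring
    rw [h9]
    have := hy.ne'
    have hm1 : (m : ℝ) + 1 ≠ 0 := by positivity
    field_simp
  simp only [h6]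
  rw [← Complex.ofReal_sum, Finset.sum_add_distrib, ← Finset.mul_sum, ← Finset.mul_sum]
  push_cast
  ring

theorem e2_eq (hy : 0 < y) : e2 y = ((-(4 * Real.pi / 3) * dell y : ℝ) : ℂ) := by
  have hs : Summable fun m : ℤ => (ph m : ℂ) * X y 2 0 m := by
    refine Summable.of_norm_bounded ((X20_summable hy).mul_left 4) fun m => ?_
    rw [norm_mul, Complex.norm_real, Real.norm_eq_abs]
    exact mul_le_mul_of_nonneg_right (ph_abs m) (norm_nonneg _)
  have hfib := GG_fib (GG_summ hy)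
  have h1 := hfib.tendsto_sum_nat
  have h3 := ((h1.const_mul (-(8 * Real.pi ^ 2))).const_add (4 * Real.pi ^ 2 / 3))
  have h4 : 4 * Real.pi ^ 2 / 3 + -(8 * Real.pi ^ 2) *
      ∑' x : ℕ × ℕ, ph (x.2 + 1) * (x.1 + 1) * qr y ^ ((x.1 + 1) * (x.2 + 1)) =
      -(4 * Real.pi / 3) * dell y := by
    unfold dell
    ring
  rw [h4] at h3
  have h5 := (Complex.continuous_ofReal.tendsto _).comp h3
  have h6 : Tendsto (fun N : ℕ => ∑ m ∈ Finset.Icc (-(N : ℤ)) N, (ph m : ℂ) * X y 2 0 m) atTop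
      (𝓝 (e2 y)) := by
    refine hs.hasSum.comp ?_
    refine tendsto_atTop_finset_of_monotone ?_ ?_
    · intro a b hab
      apply Finset.Icc_subset_Icc <;> omega
    · intro x
      refine ⟨x.natAbs, ?_⟩
      rw [Finset.mem_Icc]
      omega
  refine tendsto_nhds_unique h6 (h5.congr fun N => ?_)
  rw [GG_Icc (fun m => (ph m : ℂ) * X y 2 0 m)
    (fun m => by rw [ph_neg, X_neg]; norm_num) N]
  simp only [Function.comp]
  rw [GG_ph_zero, X20_zero]
  have h7 : ∀ m : ℕ, (ph ((m : ℤ) + 1) : ℂ) * X y 2 0 ((m : ℤ) + 1) =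
      ((-(4 * Real.pi ^ 2) *
        ∑' k : ℕ, ph ((m : ℤ) + 1) * ((k : ℝ) + 1) * qr y ^ ((k + 1) * (m + 1)) : ℝ) : ℂ) := by
    intro m
    have hm : ((m : ℤ) + 1) ≠ 0 := by omega
    rw [X20_eq hy hm, ← Complex.ofReal_mul]
    congr 1
    have h7 : ((m : ℤ) + 1).natAbs = m + 1 := by omega
    rw [h7, mul_left_comm, ← tsum_mul_left]
    congr 1
    refine tsum_congr fun k => ?_
    rw [Nat.mul_comm (k + 1) (m + 1)]
    ring
  simp only [h7]
  rw [← Complex.ofReal_sum, ← Finset.mul_sum]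
  push_cast
  ring

end RVP
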