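import Mathlib
import Pool.Agent.RVP.Defs
import Pool.Agent.RVP.Bas
import Pool.Agent.RVP.Wt
import Pool.Agent.RVP.Sh
import Pool.Agent.RVP.RowA
import Pool.Agent.RVP.GG

/-!
# RVP/AsmB: summation of the (3,3) products

The three products `X21 X12` are absolutely summable over `(i,j)`; their weighted sum is `Σ X21(j) X12(i) N(j,i)` up to
renaming (use `X12 = -X21`, `X_swap`), `= 0` by parity (`wt_even`, `X12` odd).
Hence `Σ c(i,j) X22(j) (X11(i+j) - X11(i))` is summable too (`h`), so by Fubini it is `Σ_j X22(j) T(j)`,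
`T(j) = lim_N Σ_{|i| ≤ N} c(i,j) (X11(i+j) - X11(i))`.  With `g(i) = c(i-j,j) X11(i)` (tends to `0`) and `sum_shift_tendsto`
`T(j) = lim_N Σ_{|i| ≤ N} (c(i-j,j) - c(i,j)) X11(i)`, and symmetrising `i ↦ -i` (`wt_psi`) `T(j) = -(1/6) ψ(j) G` (`G_tendsto`).
-/

set_option autoImplicit false

open Filter Topology

namespace RVP

variable {y : ℝ}

/-- reflection of a symmetric partial sum -/
private lemma Icc_refl (f : ℤ → ℂ) (N : ℕ) :
    ∑ i ∈ Finset.Icc (-(N : ℤ)) N, f (-i) = ∑ i ∈ Finset.Icc (-(N : ℤ)) N, f i := by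
  refine Finset.sum_nbij' (fun i => -i) (fun i => -i) ?_ ?_ ?_ ?_ ?_
  · intro i hi
    rw [Finset.mem_Icc] at hi ⊢
    constructor <;> linarith [hi.1, hi.2]
  · intro i hi
    rw [Finset.mem_Icc] at hi ⊢
    constructor <;> linarith [hi.1, hi.2]
  · intro i _
    simp
  · intro i _
    simp
  · intro i _
    simp

/-- the inner sum -/
private lemma inner_tendsto (hy : 0 < y) (j : ℤ) :
    Tendsto (fun N : ℕ => ∑ i ∈ Finset.Icc (-(N : ℤ)) N,
      (cw i j : ℂ) * (X y 1 1 (i + j) - X y 1 1 i)) atTop (𝓝 (-(1 / 6) * (ps j : ℂ) * G y)) := by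
  set g : ℤ → ℂ := fun i => (cw (i - j) j : ℂ) * X y 1 1 i with hg
  have hg0 : Tendsto g cofinite (𝓝 0) := by
    refine squeeze_zero_norm (a := fun i => 20 * ‖X y 1 1 i‖) (fun i => ?_) ?_
    · rw [hg]
      simp only [norm_mul, Complex.norm_real, Real.norm_eq_abs]
      exact mul_le_mul_of_nonneg_right (cw_abs _ _) (norm_nonneg _)
    · have h1 := (X11_tendsto hy).norm.const_mul 20
      simpa using h1
  have h1 := sum_shift_tendsto hg0 j
  have h2 : Tendsto (fun N : ℕ => ∑ i ∈ Finset.Icc (-(N : ℤ)) N,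
      ((cw (i - j) j : ℂ) - (cw i j : ℂ)) * X y 1 1 i) atTop (𝓝 (-(1 / 6) * (ps j : ℂ) * G y)) := by
    have h3 := (G_tendsto hy).const_mul (-(1 / 6) * (ps j : ℂ))
    refine h3.congr fun N => ?_
    set F : ℤ → ℂ := fun i => ((cw (i - j) j : ℂ) - (cw i j : ℂ)) * X y 1 1 i with hF
    have h4 : ∑ i ∈ Finset.Icc (-(N : ℤ)) N, F i =
        1 / 2 * ∑ i ∈ Finset.Icc (-(N : ℤ)) N, (F i + F (-i)) := by
      rw [Finset.sum_add_distrib, Icc_refl F N]
      ring
    rw [h4, Finset.mul_sum, Finset.mul_sum]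
    refine Finset.sum_congr rfl fun i _ => ?_
    have h5 : X y 1 1 (-i) = X y 1 1 i := by
      rw [X_neg]
      norm_num
    have h6 : (((cw (i - j) j - cw i j) + (cw (-i - j) j - cw (-i) j) : ℝ) : ℂ) =
        ((-(1 / 3) * ps j * ph i : ℝ) : ℂ) := by
      rw [wt_psi]
    push_cast at h6
    rw [hF]
    simp only [h5]
    linear_combination (-(1 / 2) * X y 1 1 i) * h6
  have h3 := h1.add h2
  rw [zero_add] at h3
  refine h3.congr fun N => ?_
  rw [← Finset.sum_add_distrib]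
  refine Finset.sum_congr rfl fun i _ => ?_
  rw [hg]
  simp only [add_sub_cancel_right]
  ring

/-- the three absolutely convergent products -/
private lemma prods (hy : 0 < y) :
    HasSum (fun w : ℤ × ℤ => (cw w.1 w.2 : ℂ) *
      (X y 2 1 w.1 * X y 1 2 w.2 + X y 2 1 w.1 * X y 1 2 (w.1 + w.2)
        + X y 2 1 w.2 * X y 1 2 (w.1 + w.2))) 0 := by
  set f : ℤ → ℂ := X y 2 1 with hf
  have h12 : ∀ m, X y 1 2 m = -f m := by
    intro m
    rw [hf, X_swap y 2 1 m]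
    norm_num
  have hodd : ∀ m, f (-m) = -f m := by
    intro m
    rw [hf, X_neg]
    norm_num
  have hs : Summable fun m => ‖f m‖ := X_summable hy (by norm_num)
  have hprod : Summable fun w : ℤ × ℤ => ‖f w.1‖ * ‖f w.2‖ := by
    have := hs.mul_of_nonneg hs (fun _ => norm_nonneg _) (fun _ => norm_nonneg _)
    exact this
  have hprodk : ∀ k : ℤ × ℤ → ℝ, (∀ w, |k w| ≤ 20) →
      Summable fun w : ℤ × ℤ => (k w : ℂ) * (f w.1 * f w.2) := by
    intro k hk
    refine Summable.of_norm_bounded (hprod.mul_left 20) fun w => ?_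
    rw [norm_mul, norm_mul, Complex.norm_real, Real.norm_eq_abs]
    exact mul_le_mul_of_nonneg_right (hk w) (by positivity)
  -- the two shears
  let e1 : ℤ × ℤ ≃ ℤ × ℤ :=
    { toFun := fun w => (w.1 + w.2, w.1)
      invFun := fun w => (w.2, w.1 - w.2)
      left_inv := fun w => by simp
      right_inv := fun w => by simp }
  let e2 : ℤ × ℤ ≃ ℤ × ℤ :=
    { toFun := fun w => (w.1 + w.2, w.2)
      invFun := fun w => (w.1 - w.2, w.2)
      left_inv := fun w => by simp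
      right_inv := fun w => by simp }
  have hA := hprodk (fun w => cw w.1 w.2) fun w => cw_abs _ _
  have hB := hprodk (fun w => cw w.2 (w.1 - w.2)) fun w => cw_abs _ _
  have hC := hprodk (fun w => cw (w.1 - w.2) w.2) fun w => cw_abs _ _
  have hB' : HasSum (fun w : ℤ × ℤ => (cw w.1 w.2 : ℂ) * (f (w.1 + w.2) * f w.1))
      (∑' w : ℤ × ℤ, (cw w.2 (w.1 - w.2) : ℂ) * (f w.1 * f w.2)) := by
    have h := (e1.hasSum_iff).mpr hB.hasSum
    refine h.congr_fun ?_
    intro w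
    simp [e1]
  have hC' : HasSum (fun w : ℤ × ℤ => (cw w.1 w.2 : ℂ) * (f (w.1 + w.2) * f w.2))
      (∑' w : ℤ × ℤ, (cw (w.1 - w.2) w.2 : ℂ) * (f w.1 * f w.2)) := by
    have h := (e2.hasSum_iff).mpr hC.hasSum
    refine h.congr_fun ?_
    intro w
    simp [e2]
  have hsum := ((hA.hasSum.add hB').add hC').neg
  have htot : ∑' w : ℤ × ℤ, (cw w.1 w.2 : ℂ) * (f w.1 * f w.2) +
      ∑' w : ℤ × ℤ, (cw w.2 (w.1 - w.2) : ℂ) * (f w.1 * f w.2) +
      ∑' w : ℤ × ℤ, (cw (w.1 - w.2) w.2 : ℂ) * (f w.1 * f w.2) = 0 := by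
    rw [← hA.tsum_add hB, ← (hA.add hB).tsum_add hC]
    set T := ∑' w : ℤ × ℤ, ((cw w.1 w.2 : ℂ) * (f w.1 * f w.2) +
      (cw w.2 (w.1 - w.2) : ℂ) * (f w.1 * f w.2) +
      (cw (w.1 - w.2) w.2 : ℂ) * (f w.1 * f w.2)) with hT
    have h1 : T = -T := by
      conv_lhs => rw [hT]
      rw [← (Equiv.prodCongr (Equiv.neg ℤ) (Equiv.refl ℤ)).tsum_eq, hT, ← tsum_neg]
      refine tsum_congr fun w => ?_
      have h6 : ((cw w.1 w.2 + cw (w.1 - w.2) w.2 + cw w.2 (w.1 - w.2) : ℝ) : ℂ) =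
          ((cw (-w.1) w.2 + cw (-w.1 - w.2) w.2 + cw w.2 (-w.1 - w.2) : ℝ) : ℂ) := by
        rw [wt_even]
      push_cast at h6
      simp only [Equiv.prodCongr_apply, Prod.map_fst, Prod.map_snd, Equiv.neg_apply,
        Equiv.refl_apply, hodd]
      linear_combination (f w.1 * f w.2) * h6
    have h2 : 2 * T = 0 := by linear_combination h1
    simpa using h2
  rw [htot, neg_zero] at hsum
  refine hsum.congr_fun ?_
  intro w
  simp only [h12]
  ring

theorem sum33 (hy : 0 < y) (h : Summable fun w : ℤ × ℤ => (cw w.1 w.2 : ℂ) * P33 y w) :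
    ∑' w : ℤ × ℤ, (cw w.1 w.2 : ℂ) * P33 y w = -(1 / 6) * W y 2 2 * G y := by
  have hA := prods hy
  set B : ℤ × ℤ → ℂ := fun w => (cw w.1 w.2 : ℂ) * (X y 2 2 w.2 * (X y 1 1 (w.1 + w.2) - X y 1 1 w.1))
    with hB
  have hBs : Summable B := by
    refine (h.sub hA.summable).congr fun w => ?_
    rw [hB]
    simp only [P33]
    ring
  have h1 : ∑' w : ℤ × ℤ, (cw w.1 w.2 : ℂ) * P33 y w = ∑' w, B w := by
    have h2 := hA.add hBs.hasSum
    rw [zero_add] at h2
    rw [← h2.tsum_eq]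
    refine tsum_congr fun w => ?_
    rw [hB]
    simp only [P33]
    ring
  rw [h1, ← (Equiv.prodComm ℤ ℤ).tsum_eq]
  have hBc : Summable fun w : ℤ × ℤ => B ((Equiv.prodComm ℤ ℤ) w) :=
    (Equiv.prodComm ℤ ℤ).summable_iff.mpr hBs
  rw [hBc.tsum_prod]
  have h3 : ∀ j : ℤ, ∑' i : ℤ, B ((Equiv.prodComm ℤ ℤ) (j, i)) =
      (-(1 / 6) * G y) * ((ps j : ℂ) * X y 2 2 j) := by
    intro j
    have h4 := hasSum_Icc (hBc.prod_factor j).hasSum
    have h5 := (inner_tendsto hy j).const_mul (X y 2 2 j)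
    have h6 : (fun N : ℕ => ∑ i ∈ Finset.Icc (-(N : ℤ)) N, B ((Equiv.prodComm ℤ ℤ) (j, i))) =
        fun N : ℕ => X y 2 2 j * ∑ i ∈ Finset.Icc (-(N : ℤ)) N,
          (cw i j : ℂ) * (X y 1 1 (i + j) - X y 1 1 i) := by
      funext N
      rw [Finset.mul_sum]
      refine Finset.sum_congr rfl fun i _ => ?_
      rw [hB]
      simp only [Equiv.prodComm_apply, Prod.swap_prod_mk]
      ring
    rw [h6] at h4
    rw [tendsto_nhds_unique h4 h5]
    ring
  rw [tsum_congr h3, tsum_mul_left, W]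
  ring

end RVP
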