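import Mathlib
import Pool.Agent.RVP.Defs
import Pool.Agent.RVP.Bas
import Pool.Agent.RVP.Wt

/-!
# RVP/Ker: absolute convergence of the double sums

For `A, B, C ≥ 0` and exponents `a, b, c ≤ 3` with `a + b + c = 6` one has
`A^a B^b C^c ≤ A³B³ + A³C³ + B³C³`; each of the three sums over pairs is a product
(`(v,w) ↦ (v, v+w)` is a bijection).
-/

set_option autoImplicit false

namespace RVP

variable {y : ℝ}

private theorem ker_aux {A B C : ℝ} (hA : 0 ≤ A) (hB : 0 ≤ B) (hC : 0 ≤ C) {a b c : ℕ}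
    (ha : a ≤ 3) (hb : b ≤ 3) (h : a + b + c = 6) (h1 : C ≤ A) (h2 : C ≤ B) :
    A ^ a * B ^ b * C ^ c ≤ A ^ 3 * B ^ 3 := by
  have hc : c = (3 - a) + (3 - b) := by omega
  have e1 : C ^ (3 - a) ≤ A ^ (3 - a) := pow_le_pow_left₀ hC h1 _
  have e2 : C ^ (3 - b) ≤ B ^ (3 - b) := pow_le_pow_left₀ hC h2 _
  have e3 : C ^ c ≤ A ^ (3 - a) * B ^ (3 - b) := by
    rw [hc, pow_add]
    exact mul_le_mul e1 e2 (by positivity) (by positivity)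
  calc A ^ a * B ^ b * C ^ c ≤ A ^ a * B ^ b * (A ^ (3 - a) * B ^ (3 - b)) :=
        mul_le_mul_of_nonneg_left e3 (by positivity)
    _ = A ^ (a + (3 - a)) * B ^ (b + (3 - b)) := by rw [pow_add, pow_add]; ring
    _ = A ^ 3 * B ^ 3 := by rw [Nat.add_sub_cancel' ha, Nat.add_sub_cancel' hb]

private theorem ker_le {A B C : ℝ} (hA : 0 ≤ A) (hB : 0 ≤ B) (hC : 0 ≤ C) {a b c : ℕ}
    (ha : a ≤ 3) (hb : b ≤ 3) (hc : c ≤ 3) (h : a + b + c = 6) :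
    A ^ a * B ^ b * C ^ c ≤ A ^ 3 * B ^ 3 + A ^ 3 * C ^ 3 + B ^ 3 * C ^ 3 := by
  have p1 : 0 ≤ A ^ 3 * B ^ 3 := by positivity
  have p2 : 0 ≤ A ^ 3 * C ^ 3 := by positivity
  have p3 : 0 ≤ B ^ 3 * C ^ 3 := by positivity
  rcases le_total A B with h1 | h1
  · rcases le_total A C with h2 | h2
    · have := ker_aux (A := B) (B := C) (C := A) hB hC hA hb hc (by omega : b + c + a = 6) h1 h2
      have e : A ^ a * B ^ b * C ^ c = B ^ b * C ^ c * A ^ a := by ring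
      rw [e]; linarith
    · have := ker_aux (A := A) (B := B) (C := C) hA hB hC ha hb h h2 (h2.trans h1)
      linarith
  · rcases le_total B C with h2 | h2
    · have := ker_aux (A := A) (B := C) (C := B) hA hC hB ha hc (by omega : a + c + b = 6) h1 h2
      have e : A ^ a * B ^ b * C ^ c = A ^ a * C ^ c * B ^ b := by ring
      rw [e]; linarith
    · have := ker_aux (A := A) (B := B) (C := C) hA hB hC ha hb h (h2.trans h1) h2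
      linarith

theorem ker_summable (hy : 0 < y) {a b c : ℕ} (ha : a ≤ 3) (hb : b ≤ 3) (hc : c ≤ 3)
    (h : a + b + c = 6) :
    Summable fun x : (ℤ × ℤ) × (ℤ × ℤ) =>
      ‖iv y x.1‖ ^ a * ‖iv y x.2‖ ^ b * ‖iv y (x.1 + x.2)‖ ^ c := by
  have s := summable_iv3 hy
  have s0 : ∀ v : ℤ × ℤ, 0 ≤ ‖iv y v‖ ^ 3 := fun v => by positivity
  have s1 : Summable fun x : (ℤ × ℤ) × (ℤ × ℤ) => ‖iv y x.1‖ ^ 3 * ‖iv y x.2‖ ^ 3 :=
    s.mul_of_nonneg s s0 s0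
  let e : (ℤ × ℤ) × (ℤ × ℤ) ≃ (ℤ × ℤ) × (ℤ × ℤ) :=
    Equiv.prodShear (Equiv.refl (ℤ × ℤ)) (fun v => Equiv.addLeft v)
  have s2 : Summable fun x : (ℤ × ℤ) × (ℤ × ℤ) => ‖iv y x.1‖ ^ 3 * ‖iv y (x.1 + x.2)‖ ^ 3 :=
    (e.summable_iff.mpr s1).congr fun x => by simp [e]
  have s3 : Summable fun x : (ℤ × ℤ) × (ℤ × ℤ) => ‖iv y x.2‖ ^ 3 * ‖iv y (x.1 + x.2)‖ ^ 3 :=
    ((Equiv.prodComm (ℤ × ℤ) (ℤ × ℤ)).summable_iff.mpr s2).congr fun x => by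
      simp [add_comm x.2 x.1]
  refine Summable.of_nonneg_of_le (fun x => by positivity) (fun x => ?_) ((s1.add s2).add s3)
  exact ker_le (norm_nonneg _) (norm_nonneg _) (norm_nonneg _) ha hb hc h

theorem norm_KK (y : ℝ) (x : (ℤ × ℤ) × (ℤ × ℤ)) :
    ‖KK y x‖ = ‖iv y x.1‖ ^ 3 * ‖iv y x.2‖ ^ 1 * ‖iv y (x.1 + x.2)‖ ^ 2 := by
  simp only [KK, norm_mul, norm_pow, norm_ic]
  ring

/-- the common bound for `E51`, `E33` -/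
noncomputable def Bd (y : ℝ) (x : (ℤ × ℤ) × (ℤ × ℤ)) : ℝ :=
  4 * (‖iv y x.1‖ ^ 3 * ‖iv y x.2‖ ^ 1 * ‖iv y (x.1 + x.2)‖ ^ 2)
    + 2 * (‖iv y x.1‖ ^ 2 * ‖iv y x.2‖ ^ 1 * ‖iv y (x.1 + x.2)‖ ^ 3)
    + 2 * (‖iv y x.1‖ ^ 3 * ‖iv y x.2‖ ^ 0 * ‖iv y (x.1 + x.2)‖ ^ 3)

private theorem norm_two' : ‖(2 : ℂ)‖ = 2 := by simp

private theorem norm_nz_le (v : ℤ × ℤ) : ‖nz v‖ ≤ 1 := by
  unfold nz; split_ifs <;> simp

private theorem E51_le' (y : ℝ) (x : (ℤ × ℤ) × (ℤ × ℤ)) :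
    ‖E51 y x‖ ≤ 2 * (‖iv y x.1‖ ^ 3 * ‖iv y x.2‖ ^ 1 * ‖iv y (x.1 + x.2)‖ ^ 2)
    + 2 * (‖iv y x.1‖ ^ 2 * ‖iv y x.2‖ ^ 1 * ‖iv y (x.1 + x.2)‖ ^ 3)
    + 2 * (‖iv y x.1‖ ^ 3 * ‖iv y x.2‖ ^ 0 * ‖iv y (x.1 + x.2)‖ ^ 3) := by
  unfold E51
  refine (norm_add_le _ _).trans (add_le_add ((norm_add_le _ _).trans (add_le_add ?_ ?_)) ?_)
  · apply le_of_eq
    simp only [norm_mul, norm_pow, norm_ic, norm_two']
    ring
  · apply le_of_eq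
    simp only [norm_mul, norm_pow, norm_ic, norm_two']
    ring
  · simp only [norm_mul, norm_pow, norm_ic, norm_two']
    have h0 : 0 ≤ ‖iv y x.1‖ ^ 2 * ‖iv y (x.1 + x.2)‖ ^ 3 * ‖iv y x.1‖ := by positivity
    have h1 := mul_le_mul_of_nonneg_left (norm_nz_le x.2) h0
    calc 2 * (‖iv y x.1‖ ^ 2 * ‖iv y (x.1 + x.2)‖ ^ 3 * ‖iv y x.1‖ * ‖nz x.2‖)
        ≤ 2 * (‖iv y x.1‖ ^ 2 * ‖iv y (x.1 + x.2)‖ ^ 3 * ‖iv y x.1‖ * 1) := by linarith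
      _ = 2 * (‖iv y x.1‖ ^ 3 * ‖iv y x.2‖ ^ 0 * ‖iv y (x.1 + x.2)‖ ^ 3) := by ring

theorem E51_le (y : ℝ) (x : (ℤ × ℤ) × (ℤ × ℤ)) : ‖E51 y x‖ ≤ Bd y x := by
  have h := E51_le' y x
  have h0 : 0 ≤ ‖iv y x.1‖ ^ 3 * ‖iv y x.2‖ ^ 1 * ‖iv y (x.1 + x.2)‖ ^ 2 := by positivity
  unfold Bd
  linarith

private theorem E33_le' (hy : 0 < y) (x : (ℤ × ℤ) × (ℤ × ℤ)) :
    ‖E33 y x‖ ≤ 2 * (‖iv y x.1‖ ^ 3 * ‖iv y x.2‖ ^ 1 * ‖iv y (x.1 + x.2)‖ ^ 2) := by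
  unfold E33
  have h1 : ‖iv y x.1 * iv y (x.1 + x.2) ^ 2 * ic y x.1 ^ 2 * ic y x.2‖ =
      ‖iv y x.1‖ ^ 3 * ‖iv y x.2‖ ^ 1 * ‖iv y (x.1 + x.2)‖ ^ 2 := by
    simp only [norm_mul, norm_pow, norm_ic]
    ring
  have h2 : ‖pt y x.2 * iv y x.1 ^ 2 * iv y (x.1 + x.2) ^ 2 * ic y x.1 * ic y x.2 ^ 2‖ ≤
      ‖iv y x.1‖ ^ 3 * ‖iv y x.2‖ ^ 1 * ‖iv y (x.1 + x.2)‖ ^ 2 := by
    have h3 : ‖pt y x.2‖ * ‖iv y x.2‖ ≤ 1 := by
      rw [← norm_mul, pt_mul_iv hy]; exact norm_nz_le _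
    have h0 : 0 ≤ ‖iv y x.1‖ ^ 3 * ‖iv y x.2‖ ^ 1 * ‖iv y (x.1 + x.2)‖ ^ 2 := by positivity
    have h4 := mul_le_mul_of_nonneg_left h3 h0
    calc ‖pt y x.2 * iv y x.1 ^ 2 * iv y (x.1 + x.2) ^ 2 * ic y x.1 * ic y x.2 ^ 2‖
        = ‖iv y x.1‖ ^ 3 * ‖iv y x.2‖ ^ 1 * ‖iv y (x.1 + x.2)‖ ^ 2 *
            (‖pt y x.2‖ * ‖iv y x.2‖) := by
          simp only [norm_mul, norm_pow, norm_ic]
          ring
      _ ≤ ‖iv y x.1‖ ^ 3 * ‖iv y x.2‖ ^ 1 * ‖iv y (x.1 + x.2)‖ ^ 2 * 1 := h4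
      _ = _ := by ring
  refine (norm_add_le _ _).trans ?_
  rw [h1]
  linarith

theorem E33_le (hy : 0 < y) (x : (ℤ × ℤ) × (ℤ × ℤ)) : ‖E33 y x‖ ≤ Bd y x := by
  have h := E33_le' hy x
  have h0 : 0 ≤ ‖iv y x.1‖ ^ 3 * ‖iv y x.2‖ ^ 1 * ‖iv y (x.1 + x.2)‖ ^ 2 := by positivity
  have h1 : 0 ≤ ‖iv y x.1‖ ^ 2 * ‖iv y x.2‖ ^ 1 * ‖iv y (x.1 + x.2)‖ ^ 3 := by positivity
  have h2 : 0 ≤ ‖iv y x.1‖ ^ 3 * ‖iv y x.2‖ ^ 0 * ‖iv y (x.1 + x.2)‖ ^ 3 := by positivity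
  unfold Bd
  linarith

theorem E_le (hy : 0 < y) (x : (ℤ × ℤ) × (ℤ × ℤ)) : ‖E51 y x + E33 y x‖ ≤ Bd y x := by
  have h := E33_le' hy x
  have h' := E51_le' y x
  have := norm_add_le (E51 y x) (E33 y x)
  unfold Bd
  linarith

theorem Bd_anti {a : ℝ} (ha : 0 < a) (h : a ≤ y) (x : (ℤ × ℤ) × (ℤ × ℤ)) : Bd y x ≤ Bd a x := by
  have k := norm_iv_anti ha h
  have k1 := k x.1
  have k2 := k x.2
  have k3 := k (x.1 + x.2)
  unfold Bd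
  gcongr

theorem Bd_summable (hy : 0 < y) : Summable (Bd y) := by
  unfold Bd
  exact (((ker_summable hy (a := 3) (b := 1) (c := 2) (by norm_num) (by norm_num) (by norm_num)
    rfl).mul_left 4).add ((ker_summable hy (a := 2) (b := 1) (c := 3) (by norm_num) (by norm_num)
    (by norm_num) rfl).mul_left 2)).add ((ker_summable hy (a := 3) (b := 0) (c := 3) (by norm_num)
    (by norm_num) (by norm_num) rfl).mul_left 2)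

private theorem norm_cw (a b : ℤ) : ‖(cw a b : ℂ)‖ ≤ 20 := by
  rw [Complex.norm_real]; exact cw_abs a b

private theorem norm_sw (a : ℤ) : ‖(sw a : ℂ)‖ ≤ 20 := by
  rw [Complex.norm_real]; exact sw_abs a

theorem cKK_summable (hy : 0 < y) :
    Summable fun x : (ℤ × ℤ) × (ℤ × ℤ) => (cw x.1.1 x.2.1 : ℂ) * KK y x := by
  refine Summable.of_norm_bounded ((ker_summable hy (a := 3) (b := 1) (c := 2) (by norm_num)
    (by norm_num) (by norm_num) rfl).mul_left 20) fun x => ?_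
  rw [norm_mul, norm_KK]
  exact mul_le_mul_of_nonneg_right (norm_cw _ _) (by positivity)

theorem cE51_summable (hy : 0 < y) :
    Summable fun x : (ℤ × ℤ) × (ℤ × ℤ) => (cw x.1.1 x.2.1 : ℂ) * E51 y x := by
  refine Summable.of_norm_bounded ((Bd_summable hy).mul_left 20) fun x => ?_
  rw [norm_mul]
  exact mul_le_mul (norm_cw _ _) (E51_le y x) (norm_nonneg _) (by norm_num)

theorem cE33_summable (hy : 0 < y) :
    Summable fun x : (ℤ × ℤ) × (ℤ × ℤ) => (cw x.1.1 x.2.1 : ℂ) * E33 y x := by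
  refine Summable.of_norm_bounded ((Bd_summable hy).mul_left 20) fun x => ?_
  rw [norm_mul]
  exact mul_le_mul (norm_cw _ _) (E33_le hy x) (norm_nonneg _) (by norm_num)

theorem K1_summable (hy : 0 < y) : Summable fun v : ℤ × ℤ => (sw v.1 : ℂ) * K1 y v := by
  refine Summable.of_norm_bounded ((summable_iv hy (k := 6) (by norm_num)).mul_left 20)
    fun v => ?_
  rw [norm_mul]
  refine mul_le_mul (norm_sw _) (le_of_eq ?_) (norm_nonneg _) (by norm_num)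
  simp only [K1, norm_mul, norm_pow, norm_ic]
  ring

theorem E1_summable (hy : 0 < y) : Summable fun v : ℤ × ℤ => (sw v.1 : ℂ) * E1 y v := by
  refine Summable.of_norm_bounded ((summable_iv hy (k := 6) (by norm_num)).mul_left 120)
    fun v => ?_
  rw [norm_mul]
  have h1 : ‖E1 y v‖ ≤ 6 * ‖iv y v‖ ^ 6 := by
    unfold E1
    refine (norm_add_le _ _).trans (le_of_eq ?_)
    simp only [norm_mul, norm_pow, norm_ic, Complex.norm_ofNat]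
    ring
  calc ‖(sw v.1 : ℂ)‖ * ‖E1 y v‖ ≤ 20 * (6 * ‖iv y v‖ ^ 6) :=
        mul_le_mul (norm_sw _) h1 (norm_nonneg _) (by norm_num)
    _ = 120 * ‖iv y v‖ ^ 6 := by ring

end RVP
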