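import Mathlib
import Pool.Agent.RVP.Defs
import Pool.Agent.RVP.Bas
import Pool.Agent.RVP.Sh
import Pool.Agent.RVP.Ker

/-!
# RVP/B33: the blocks of `E33`

For `p, q, r = p + q ≠ 0`: `M + M̄ = R + R̄`, where `M = E33` and
`R = p⁻²q⁻¹p̄⁻¹q̄⁻² - |p|⁻²|q|⁻⁴ + p⁻²r⁻¹p̄⁻¹r̄⁻² + |q|⁻⁴|r|⁻² + q⁻²r⁻¹q̄⁻¹r̄⁻²`;
degenerate points: `M = 0`, `R = 2|q|⁻⁶` (`p = 0`), `|p|⁻⁶` (`q = 0`), `-2|p|⁻⁶` (`r = 0`).
The reflection `z ↦ (i - z₁, j - z₂)` of the block sends `M` to `M̄` and `R` to `R̄` (`iv_refl`, even degree), so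
`Σ M = Σ (M + M̄)/2 = Σ (R + R̄)/2 - contact = Σ R - contact`.
-/

set_option autoImplicit false

open scoped ComplexConjugate

namespace RVP

variable {y : ℝ}

/-- the pointwise right hand side -/
noncomputable def R33 (y : ℝ) (x : (ℤ × ℤ) × (ℤ × ℤ)) : ℂ :=
  (iv y x.1 ^ 2 * ic y x.1) * (iv y x.2 * ic y x.2 ^ 2)
    - (iv y x.1 * ic y x.1) * (iv y x.2 ^ 2 * ic y x.2 ^ 2)
    + (iv y x.1 ^ 2 * ic y x.1) * (iv y (x.1 + x.2) * ic y (x.1 + x.2) ^ 2)
    + (iv y x.2 ^ 2 * ic y x.2 ^ 2) * (iv y (x.1 + x.2) * ic y (x.1 + x.2))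
    + (iv y x.2 ^ 2 * ic y x.2) * (iv y (x.1 + x.2) * ic y (x.1 + x.2) ^ 2)

private theorem B33_gen {p q P Q : ℂ} (hp : p ≠ 0) (hq : q ≠ 0) (hr : p + q ≠ 0)
    (hP : P ≠ 0) (hQ : Q ≠ 0) (hR : P + Q ≠ 0) :
    p⁻¹ * (p + q)⁻¹ ^ 2 * P⁻¹ ^ 2 * Q⁻¹ + q * p⁻¹ ^ 2 * (p + q)⁻¹ ^ 2 * P⁻¹ * Q⁻¹ ^ 2
      + (P⁻¹ * (P + Q)⁻¹ ^ 2 * p⁻¹ ^ 2 * q⁻¹ + Q * P⁻¹ ^ 2 * (P + Q)⁻¹ ^ 2 * p⁻¹ * q⁻¹ ^ 2)
    = (p⁻¹ ^ 2 * P⁻¹) * (q⁻¹ * Q⁻¹ ^ 2)
    - (p⁻¹ * P⁻¹) * (q⁻¹ ^ 2 * Q⁻¹ ^ 2)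
    + (p⁻¹ ^ 2 * P⁻¹) * ((p + q)⁻¹ * (P + Q)⁻¹ ^ 2)
    + (q⁻¹ ^ 2 * Q⁻¹ ^ 2) * ((p + q)⁻¹ * (P + Q)⁻¹)
    + (q⁻¹ ^ 2 * Q⁻¹) * ((p + q)⁻¹ * (P + Q)⁻¹ ^ 2)
    + ((P⁻¹ ^ 2 * p⁻¹) * (Q⁻¹ * q⁻¹ ^ 2)
    - (P⁻¹ * p⁻¹) * (Q⁻¹ ^ 2 * q⁻¹ ^ 2)
    + (P⁻¹ ^ 2 * p⁻¹) * ((P + Q)⁻¹ * (p + q)⁻¹ ^ 2)
    + (Q⁻¹ ^ 2 * q⁻¹ ^ 2) * ((P + Q)⁻¹ * (p + q)⁻¹)
    + (Q⁻¹ ^ 2 * q⁻¹) * ((P + Q)⁻¹ * (p + q)⁻¹ ^ 2)) := by
  field_simp
  ring

theorem pt33 (hy : 0 < y) (x : (ℤ × ℤ) × (ℤ × ℤ)) :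
    E33 y x + conj (E33 y x) = R33 y x + conj (R33 y x)
      - (if x.1 = 0 then 4 * (iv y x.2 ^ 3 * ic y x.2 ^ 3) else 0)
      + (if x.1 + x.2 = 0 then 4 * (iv y x.1 ^ 3 * ic y x.1 ^ 3) else 0)
      - (if x.2 = 0 then 2 * (iv y x.1 ^ 3 * ic y x.1 ^ 3) else 0) := by
  obtain ⟨v, w⟩ := x
  simp only [E33, R33]
  by_cases hv : v = 0
  · subst hv
    simp only [iv_zero, ic_zero, zero_add, if_true]
    by_cases hw : w = 0
    · subst hw
      simp [iv_zero, ic_zero]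
    · simp only [hw, if_false]
      simp only [map_add, map_sub, map_mul, map_pow, conj_iv, conj_ic, map_zero]
      ring
  · by_cases hw : w = 0
    · subst hw
      simp only [iv_zero, ic_zero, add_zero, if_true, hv, if_false]
      simp only [map_add, map_sub, map_mul, map_pow, conj_iv, conj_ic, map_zero]
      ring
    · by_cases hr : v + w = 0
      · have hw' : w = -v := by rw [← add_eq_zero_iff_neg_eq'.mp hr]; simp
        subst hw'
        simp only [add_neg_cancel, iv_zero, ic_zero, if_true, hv, hw, if_false, iv_neg, ic_neg]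
        simp only [map_add, map_sub, map_mul, map_pow, map_neg, conj_iv, conj_ic, map_zero]
        ring
      · simp only [hv, hw, hr, if_false]
        simp only [map_add, map_sub, map_mul, map_pow, conj_iv, conj_ic]
        have hp : pt y v ≠ 0 := fun h => hv ((pt_eq_zero hy).mp h)
        have hq : pt y w ≠ 0 := fun h => hw ((pt_eq_zero hy).mp h)
        have hrr : pt y v + pt y w ≠ 0 := by
          rw [← pt_add]; exact fun h => hr ((pt_eq_zero hy).mp h)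
        have hP : conj (pt y v) ≠ 0 := by simpa using hp
        have hQ : conj (pt y w) ≠ 0 := by simpa using hq
        have hR : conj (pt y v) + conj (pt y w) ≠ 0 := by
          rw [← map_add]; exact (map_ne_zero _).mpr hrr
        have key := B33_gen hp hq hrr hP hQ hR
        simp only [iv, ic, pt_add, map_add] at *
        linear_combination key

/-! ### the block sums -/

private theorem B33_cv {f g : ℤ × ℤ → ℂ} {a b : ℂ} (h : HasSum f a) (e : ∀ z, g z = f z)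
    (e' : b = a) : HasSum g b := by
  rw [e', show g = f from funext e]; exact h

private theorem B33_pq {f g : ℤ → ℂ} (hf : Summable f) (hg : Summable g) :
    HasSum (fun z : ℤ × ℤ => f z.1 * g z.2) ((∑' n, f n) * ∑' n, g n) := by
  have h := tsum_pq hf hg
  rw [← h.2]; exact h.1.hasSum

private theorem B33_pr {f g : ℤ → ℂ} (hf : Summable f) (hg : Summable g) :
    HasSum (fun z : ℤ × ℤ => f z.1 * g (z.1 + z.2)) ((∑' n, f n) * ∑' n, g n) := by
  have h := tsum_pr hf hg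
  rw [← h.2]; exact h.1.hasSum

private theorem B33_qr {f g : ℤ → ℂ} (hf : Summable f) (hg : Summable g) :
    HasSum (fun z : ℤ × ℤ => f z.2 * g (z.1 + z.2)) ((∑' n, f n) * ∑' n, g n) := by
  have h := tsum_qr hf hg
  rw [← h.2]; exact h.1.hasSum

private theorem B33_row (hy : 0 < y) (a b : ℕ) (h : 2 ≤ a + b) (m : ℤ) :
    Summable (fun n : ℤ => iv y (m, n) ^ a * ic y (m, n) ^ b) := row_summable hy h m

private theorem B33_R (hy : 0 < y) (i j : ℤ) :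
    HasSum (fun z : ℤ × ℤ => R33 y ((i, z.1), (j, z.2))) (P33 y (i, j)) := by
  have h1 := B33_pq (B33_row hy 2 1 (by norm_num) i) (B33_row hy 1 2 (by norm_num) j)
  have h2 := B33_pq (B33_row hy 1 1 (by norm_num) i) (B33_row hy 2 2 (by norm_num) j)
  have h3 := B33_pr (B33_row hy 2 1 (by norm_num) i) (B33_row hy 1 2 (by norm_num) (i + j))
  have h4 := B33_qr (B33_row hy 2 2 (by norm_num) j) (B33_row hy 1 1 (by norm_num) (i + j))
  have h5 := B33_qr (B33_row hy 2 1 (by norm_num) j) (B33_row hy 1 2 (by norm_num) (i + j))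
  have h := (((h1.sub h2).add h3).add h4).add h5
  refine B33_cv h (fun z => ?_) ?_
  · simp only [R33, Prod.mk_add_mk, pow_one]
  · simp only [P33, X, pow_one]
    ring

private def B33_e (i j : ℤ) : ℤ × ℤ ≃ ℤ × ℤ := Equiv.prodCongr (Equiv.subLeft i) (Equiv.subLeft j)

private theorem B33_e_apply (i j : ℤ) (z : ℤ × ℤ) : B33_e i j z = (i - z.1, j - z.2) := rfl

private theorem B33_sumrefl (y : ℝ) (i j a b : ℤ) :
    iv y ((i, i - a) + (j, j - b)) = -ic y ((i, a) + (j, b)) ∧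
    ic y ((i, i - a) + (j, j - b)) = -iv y ((i, a) + (j, b)) := by
  have e : ((i, i - a) + (j, j - b) : ℤ × ℤ) = (i + j, (i + j) - (a + b)) := by
    ext
    · simp
    · simp; ring
  have e' : ((i, a) + (j, b) : ℤ × ℤ) = (i + j, a + b) := by
    ext <;> simp
  rw [e, e', iv_refl, ic_refl]
  exact ⟨rfl, rfl⟩

private theorem B33_reflR (y : ℝ) (i j : ℤ) (z : ℤ × ℤ) :
    R33 y ((i, (B33_e i j z).1), (j, (B33_e i j z).2)) = conj (R33 y ((i, z.1), (j, z.2))) := by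
  rw [B33_e_apply]
  obtain ⟨h1, h2⟩ := B33_sumrefl y i j z.1 z.2
  simp only [R33, h1, h2, iv_refl, ic_refl, map_add, map_sub, map_mul, map_pow, conj_iv, conj_ic]
  ring

private theorem B33_reflM (y : ℝ) (i j : ℤ) (z : ℤ × ℤ) :
    E33 y ((i, (B33_e i j z).1), (j, (B33_e i j z).2)) = conj (E33 y ((i, z.1), (j, z.2))) := by
  rw [B33_e_apply]
  obtain ⟨h1, h2⟩ := B33_sumrefl y i j z.1 z.2
  simp only [E33, h1, iv_refl, ic_refl, pt_refl, map_add, map_mul, map_pow, conj_iv, conj_ic]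
  ring

private theorem B33_ind : HasSum (fun n : ℤ => if n = 0 then (1 : ℂ) else 0) 1 := by
  exact hasSum_ite_eq 0 1

private theorem B33_A (hy : 0 < y) (i j : ℤ) :
    HasSum (fun z : ℤ × ℤ => if ((i, z.1) : ℤ × ℤ) = 0 then
      4 * (iv y (j, z.2) ^ 3 * ic y (j, z.2) ^ 3) else 0) (if i = 0 then 4 * X y 3 3 j else 0) := by
  by_cases hi : i = 0
  · have h := (B33_pq B33_ind.summable (B33_row hy 3 3 (by norm_num) j)).mul_left 4
    rw [B33_ind.tsum_eq] at h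
    subst hi
    simp only [if_true]
    refine B33_cv h (fun z => ?_) ?_
    · by_cases hz : z.1 = 0
      · simp [hz]
      · simp [hz]
    · simp only [X]; ring
  · simp only [hi, if_false]
    refine B33_cv hasSum_zero (fun z => ?_) rfl
    simp [hi]

private theorem B33_C (hy : 0 < y) (i j : ℤ) :
    HasSum (fun z : ℤ × ℤ => if ((j, z.2) : ℤ × ℤ) = 0 then
      2 * (iv y (i, z.1) ^ 3 * ic y (i, z.1) ^ 3) else 0) (if j = 0 then 2 * X y 3 3 i else 0) := by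
  by_cases hj : j = 0
  · have h := (B33_pq (B33_row hy 3 3 (by norm_num) i) B33_ind.summable).mul_left 2
    rw [B33_ind.tsum_eq] at h
    subst hj
    simp only [if_true]
    refine B33_cv h (fun z => ?_) ?_
    · by_cases hz : z.2 = 0
      · simp [hz]
      · simp [hz]
    · simp only [X]; ring
  · simp only [hj, if_false]
    refine B33_cv hasSum_zero (fun z => ?_) rfl
    simp [hj]

private theorem B33_B (hy : 0 < y) (i j : ℤ) :
    HasSum (fun z : ℤ × ℤ => if ((i, z.1) + (j, z.2) : ℤ × ℤ) = 0 then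
      4 * (iv y (i, z.1) ^ 3 * ic y (i, z.1) ^ 3) else 0)
      (if i + j = 0 then 4 * X y 3 3 i else 0) := by
  by_cases hj : i + j = 0
  · have h := (B33_pr (B33_row hy 3 3 (by norm_num) i) B33_ind.summable).mul_left 4
    rw [B33_ind.tsum_eq] at h
    simp only [hj, if_true, Prod.mk_add_mk]
    refine B33_cv h (fun z => ?_) ?_
    · by_cases hz : z.1 + z.2 = 0
      · simp [hz]
      · simp [hz]
    · simp only [X]; ring
  · simp only [hj, if_false, Prod.mk_add_mk]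
    refine B33_cv hasSum_zero (fun z => ?_) rfl
    simp [hj]

theorem blk33 (hy : 0 < y) (w : ℤ × ℤ) :
    ∑' z : ℤ × ℤ, E33 y ((w.1, z.1), (w.2, z.2)) = P33 y w + C33 y w := by
  obtain ⟨i, j⟩ := w
  simp only
  have hMs : Summable (E33 y) :=
    Summable.of_norm (Summable.of_nonneg_of_le (fun _ => norm_nonneg _) (E33_le hy) (Bd_summable hy))
  have hM := (block_summable hMs (i, j)).hasSum
  simp only at hM
  have hM' : HasSum (fun z : ℤ × ℤ => conj (E33 y ((i, z.1), (j, z.2))))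
      (∑' z : ℤ × ℤ, E33 y ((i, z.1), (j, z.2))) := by
    have h := (Equiv.hasSum_iff (B33_e i j)).mpr hM
    exact B33_cv h (fun z => (B33_reflM y i j z).symm) rfl
  have hR := B33_R hy i j
  have hR' : HasSum (fun z : ℤ × ℤ => conj (R33 y ((i, z.1), (j, z.2)))) (P33 y (i, j)) := by
    have h := (Equiv.hasSum_iff (B33_e i j)).mpr hR
    exact B33_cv h (fun z => (B33_reflR y i j z).symm) rfl
  have h1 := hM.add hM'
  have h2 := (((hR.add hR').sub (B33_A hy i j)).add (B33_B hy i j)).sub (B33_C hy i j)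
  have h3 : (fun z : ℤ × ℤ => E33 y ((i, z.1), (j, z.2)) + conj (E33 y ((i, z.1), (j, z.2)))) =
      fun z : ℤ × ℤ => R33 y ((i, z.1), (j, z.2)) + conj (R33 y ((i, z.1), (j, z.2)))
      - (if ((i, z.1) : ℤ × ℤ) = 0 then 4 * (iv y (j, z.2) ^ 3 * ic y (j, z.2) ^ 3) else 0)
      + (if ((i, z.1) + (j, z.2) : ℤ × ℤ) = 0 then
          4 * (iv y (i, z.1) ^ 3 * ic y (i, z.1) ^ 3) else 0)
      - (if ((j, z.2) : ℤ × ℤ) = 0 then 2 * (iv y (i, z.1) ^ 3 * ic y (i, z.1) ^ 3) else 0) := by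
    funext z
    exact pt33 hy ((i, z.1), (j, z.2))
  rw [h3] at h1
  have h4 := h1.unique h2
  have ea : (if i = 0 then 4 * X y 3 3 j else 0) = 2 * (if i = 0 then 2 * X y 3 3 j else 0) := by
    split_ifs <;> ring
  have eb : (if i + j = 0 then 4 * X y 3 3 i else 0) =
      2 * (if i + j = 0 then 2 * X y 3 3 i else 0) := by
    split_ifs <;> ring
  have ec : (if j = 0 then 2 * X y 3 3 i else 0) = 2 * (if j = 0 then X y 3 3 i else 0) := by
    split_ifs <;> ring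
  rw [ea, eb, ec] at h4
  simp only [C33]
  linear_combination (1 / 2 : ℂ) * h4

end RVP
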