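import Mathlib
import Pool.Agent.RVP.Defs
import Pool.Agent.RVP.Bas
import Pool.Agent.RVP.Wt
import Pool.Agent.RVP.Sh
import Pool.Agent.RVP.Ker
import Pool.Agent.RVP.B51
import Pool.Agent.RVP.B33
import Pool.Agent.RVP.AsmA
import Pool.Agent.RVP.AsmB

/-!
# RVP/Asm: `DD = -(1/3) W31 e2 - (1/6) W22 G`

`tsum_blocks` for `c E51` and `c E33` (`cE51_summable`, `cE33_summable`), `blk51`, `blk33`.  The contact parts:
`Σ_w c(w) C51(w) = -4 Σ_m (c(0,m) - c(m,-m) + c(m,0)/2) X51(m) = -4 Σ_m sw(m) X51(m)` (`wt_single`), `Σ c C33 = -2 Σ sw X33`, cancel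
the single sum `Σ_v sw E1 = Σ_m sw(m) (4 X51(m) + 2 X33(m))` (`tsum_rows`).
-/

set_option autoImplicit false

namespace RVP

variable {y : ℝ}

private theorem Asm_line (e : ℤ → ℤ × ℤ) (he : Function.Injective e) (f : ℤ × ℤ → ℂ)
    (hf : ∀ w, w ∉ Set.range e → f w = 0) (hs : Summable (fun m => f (e m))) :
    Summable f ∧ ∑' w, f w = ∑' m, f (e m) := by
  refine ⟨(he.summable_iff hf).1 hs, ?_⟩
  refine (he.tsum_eq ?_).symm
  intro w hw
  by_contra hn
  exact hw (hf w hn)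

private theorem Asm_cw (Y : ℤ → ℂ) (hY : Summable fun m => ‖Y m‖) (u v : ℤ → ℤ) (k : ℂ) :
    Summable fun m : ℤ => (cw (u m) (v m) : ℂ) * (k * Y m) := by
  refine Summable.of_norm_bounded (g := fun m => 20 * ‖k‖ * ‖Y m‖) (hY.mul_left _) ?_
  intro m
  rw [norm_mul, norm_mul, Complex.norm_real, Real.norm_eq_abs, ← mul_assoc]
  refine mul_le_mul_of_nonneg_right ?_ (norm_nonneg _)
  exact mul_le_mul_of_nonneg_right (cw_abs _ _) (norm_nonneg _)

private theorem Asm_C (Y : ℤ → ℂ) (hY : Summable fun m => ‖Y m‖) (k : ℂ) :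
    Summable (fun w : ℤ × ℤ => (cw w.1 w.2 : ℂ) *
      (-(if w.1 = 0 then 2 * k * Y w.2 else 0) + (if w.1 + w.2 = 0 then 2 * k * Y w.1 else 0)
        - (if w.2 = 0 then k * Y w.1 else 0))) ∧
      ∑' w : ℤ × ℤ, (cw w.1 w.2 : ℂ) *
      (-(if w.1 = 0 then 2 * k * Y w.2 else 0) + (if w.1 + w.2 = 0 then 2 * k * Y w.1 else 0)
        - (if w.2 = 0 then k * Y w.1 else 0)) = -2 * k * ∑' m : ℤ, (sw m : ℂ) * Y m := by
  have h1 := Asm_line (fun m => ((0 : ℤ), m)) (fun a b h => by simpa using h)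
    (fun w : ℤ × ℤ => (cw w.1 w.2 : ℂ) * (if w.1 = 0 then 2 * k * Y w.2 else 0))
    (by
      intro w hw
      have : w.1 ≠ 0 := by
        intro h0
        exact hw ⟨w.2, by ext <;> simp [h0]⟩
      simp [this])
    (by
      have := Asm_cw Y hY (fun _ => 0) (fun m => m) (2 * k)
      simpa using this)
  have h2 := Asm_line (fun m => (m, -m)) (fun a b h => by simpa using h)
    (fun w : ℤ × ℤ => (cw w.1 w.2 : ℂ) * (if w.1 + w.2 = 0 then 2 * k * Y w.1 else 0))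
    (by
      intro w hw
      have : w.1 + w.2 ≠ 0 := by
        intro h0
        exact hw ⟨w.1, by ext <;> simp; omega⟩
      simp [this])
    (by
      have := Asm_cw Y hY (fun m => m) (fun m => -m) (2 * k)
      simpa using this)
  have h3 := Asm_line (fun m => (m, (0 : ℤ))) (fun a b h => by simpa using h)
    (fun w : ℤ × ℤ => (cw w.1 w.2 : ℂ) * (if w.2 = 0 then k * Y w.1 else 0))
    (by
      intro w hw
      have : w.2 ≠ 0 := by
        intro h0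
        exact hw ⟨w.1, by ext <;> simp [h0]⟩
      simp [this])
    (by
      have := Asm_cw Y hY (fun m => m) (fun _ => 0) k
      simpa using this)
  have hfun : (fun w : ℤ × ℤ => (cw w.1 w.2 : ℂ) *
      (-(if w.1 = 0 then 2 * k * Y w.2 else 0) + (if w.1 + w.2 = 0 then 2 * k * Y w.1 else 0)
        - (if w.2 = 0 then k * Y w.1 else 0))) = fun w : ℤ × ℤ =>
      -((cw w.1 w.2 : ℂ) * (if w.1 = 0 then 2 * k * Y w.2 else 0)) +
      ((cw w.1 w.2 : ℂ) * (if w.1 + w.2 = 0 then 2 * k * Y w.1 else 0)) -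
      ((cw w.1 w.2 : ℂ) * (if w.2 = 0 then k * Y w.1 else 0)) := by
    funext w
    ring
  rw [hfun]
  refine ⟨(h1.1.neg.add h2.1).sub h3.1, ?_⟩
  rw [Summable.tsum_sub (h1.1.neg.add h2.1) h3.1, Summable.tsum_add h1.1.neg h2.1, tsum_neg,
    h1.2, h2.2, h3.2]
  have s1 := Asm_cw Y hY (fun _ => 0) (fun m => m) (2 * k)
  have s2 := Asm_cw Y hY (fun m => m) (fun m => -m) (2 * k)
  have s3 := Asm_cw Y hY (fun m => m) (fun _ => 0) k
  simp only [if_true, add_neg_cancel]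
  rw [← tsum_neg, ← Summable.tsum_add s1.neg s2, ← Summable.tsum_sub (s1.neg.add s2) s3,
    ← tsum_mul_left]
  refine tsum_congr fun m => ?_
  rw [wt_single m]
  push_cast
  ring

theorem C51_sum (hy : 0 < y) :
    Summable (fun w : ℤ × ℤ => (cw w.1 w.2 : ℂ) * C51 y w) ∧
      ∑' w : ℤ × ℤ, (cw w.1 w.2 : ℂ) * C51 y w = -4 * ∑' m : ℤ, (sw m : ℂ) * X y 5 1 m := by
  have h := Asm_C (X y 5 1) (X_summable hy (by norm_num)) 2
  have e : (2 : ℂ) * 2 = 4 := by norm_num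
  have e' : (-2 : ℂ) * 2 = -4 := by norm_num
  rw [e, e'] at h
  exact h

theorem C33_sum (hy : 0 < y) :
    Summable (fun w : ℤ × ℤ => (cw w.1 w.2 : ℂ) * C33 y w) ∧
      ∑' w : ℤ × ℤ, (cw w.1 w.2 : ℂ) * C33 y w = -2 * ∑' m : ℤ, (sw m : ℂ) * X y 3 3 m := by
  have h := Asm_C (X y 3 3) (X_summable hy (by norm_num)) 1
  have e : (2 : ℂ) * 1 = 2 := by norm_num
  have e' : (-2 : ℂ) * 1 = -2 := by norm_num
  rw [e, e'] at h
  simp only [one_mul] at h
  exact h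

private theorem Asm_sw (hy : 0 < y) {a b : ℕ} (h : 3 ≤ a + b) :
    Summable fun v : ℤ × ℤ => (sw v.1 : ℂ) * (iv y v ^ a * ic y v ^ b) := by
  refine Summable.of_norm_bounded (g := fun v => 20 * ‖iv y v‖ ^ (a + b))
    ((summable_iv hy h).mul_left _) ?_
  intro v
  rw [norm_mul, norm_term, Complex.norm_real, Real.norm_eq_abs]
  exact mul_le_mul_of_nonneg_right (sw_abs _) (pow_nonneg (norm_nonneg _) _)

theorem E1_sum (hy : 0 < y) :
    ∑' v : ℤ × ℤ, (sw v.1 : ℂ) * E1 y v =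
      4 * ∑' m : ℤ, (sw m : ℂ) * X y 5 1 m + 2 * ∑' m : ℤ, (sw m : ℂ) * X y 3 3 m := by
  have hb : ∀ m : ℤ, ‖(sw m : ℂ)‖ ≤ 20 := by
    intro m
    rw [Complex.norm_real, Real.norm_eq_abs]
    exact sw_abs m
  have h1 := tsum_rows (a := 5) (b := 1) hy (by norm_num) (fun m => (sw m : ℂ)) hb
  have h2 := tsum_rows (a := 3) (b := 3) hy (by norm_num) (fun m => (sw m : ℂ)) hb
  have s1 := Asm_sw (a := 5) (b := 1) hy (by norm_num)
  have s2 := Asm_sw (a := 3) (b := 3) hy (by norm_num)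
  rw [← h1, ← h2, ← tsum_mul_left, ← tsum_mul_left, ← Summable.tsum_add (s1.mul_left 4)
    (s2.mul_left 2)]
  refine tsum_congr fun v => ?_
  rw [E1, pow_one]
  ring

theorem DD_eq (hy : 0 < y) :
    DD y = -(1 / 3) * W y 3 1 * e2 y - 1 / 6 * W y 2 2 * G y := by
  have s51 := cE51_summable hy
  have s33 := cE33_summable hy
  have b51 : ∀ w : ℤ × ℤ, ∑' z : ℤ × ℤ,
      (cw w.1 w.2 : ℂ) * E51 y ((w.1, z.1), (w.2, z.2)) =
      (cw w.1 w.2 : ℂ) * P51 y w + (cw w.1 w.2 : ℂ) * C51 y w := by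
    intro w
    rw [tsum_mul_left, blk51 hy w]
    ring
  have b33 : ∀ w : ℤ × ℤ, ∑' z : ℤ × ℤ,
      (cw w.1 w.2 : ℂ) * E33 y ((w.1, z.1), (w.2, z.2)) =
      (cw w.1 w.2 : ℂ) * P33 y w + (cw w.1 w.2 : ℂ) * C33 y w := by
    intro w
    rw [tsum_mul_left, blk33 hy w]
    ring
  have t51 := tsum_blocks s51
  have t33 := tsum_blocks s33
  simp only at t51 t33
  rw [tsum_congr b51] at t51
  rw [tsum_congr b33] at t33
  have u33 := blocks_summable s33
  simp only at u33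
  have u33' : Summable fun w : ℤ × ℤ =>
      (cw w.1 w.2 : ℂ) * P33 y w + (cw w.1 w.2 : ℂ) * C33 y w :=
    u33.congr b33
  have p33 : Summable fun w : ℤ × ℤ => (cw w.1 w.2 : ℂ) * P33 y w := by
    refine (u33'.sub (C33_sum hy).1).congr fun w => ?_
    ring
  have p51 := P51_summable hy
  rw [Summable.tsum_add p51 (C51_sum hy).1, sum51 hy, (C51_sum hy).2] at t51
  rw [Summable.tsum_add p33 (C33_sum hy).1, sum33 hy p33, (C33_sum hy).2] at t33
  have hD : ∑' x : (ℤ × ℤ) × (ℤ × ℤ), (cw x.1.1 x.2.1 : ℂ) * (E51 y x + E33 y x) =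
      ∑' x : (ℤ × ℤ) × (ℤ × ℤ), (cw x.1.1 x.2.1 : ℂ) * E51 y x +
      ∑' x : (ℤ × ℤ) × (ℤ × ℤ), (cw x.1.1 x.2.1 : ℂ) * E33 y x := by
    rw [← Summable.tsum_add s51 s33]
    refine tsum_congr fun x => ?_
    ring
  rw [DD, hD, t51, t33, E1_sum hy]
  ring

end RVP
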