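import Mathlib
import Pool.Agent.RVP.Defs
import Pool.Agent.RVP.Bas
import Pool.Agent.RVP.Wt
import Pool.Agent.RVP.Ker

/-!
# RVP/Der: termwise differentiation of `y³ D2(y)`

`d/dy p = i m = (p - p̄)/(2y)`, so `2y d/dy p^{-a} = -a p^{-a} + a p^{-a-1} p̄`, and the conjugate.  Hence
`d/dy (y³ K) = (y²/2) (E51 + E33)` (both sides are `0` if `p`, `q` or `r` is `0`), `d/dy (y³ K1) = (y²/2) E1`.
Termwise: `hasDerivAt_tsum_of_isPreconnected` on `Ioo (y/2) (2y)` with the bound `2 Y² · 20 · Bd (y/2)` (`Bd_anti`).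
-/

set_option autoImplicit false

open scoped ComplexConjugate

namespace RVP

variable {y : ℝ}

private theorem Der_pt (v : ℤ × ℤ) (t : ℝ) :
    HasDerivAt (fun t : ℝ => pt t v) (Complex.I * v.1) t := by
  have h : (fun t : ℝ => pt t v) =
      fun t : ℝ => (((v.2 : ℝ) - v.1 / 2 : ℝ) : ℂ) + (t : ℂ) * (Complex.I * v.1) := by
    funext t
    apply Complex.ext
    · simp [pt]
    · simp [pt]
      ring
  rw [h]
  have h1 : HasDerivAt (fun t : ℝ => (t : ℂ)) 1 t := Complex.ofRealCLM.hasDerivAt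
  have h2 := (h1.mul_const (Complex.I * (v.1 : ℂ))).const_add
    ((((v.2 : ℝ) - v.1 / 2 : ℝ) : ℂ))
  rwa [one_mul] at h2

private theorem Der_ptc (v : ℤ × ℤ) (t : ℝ) :
    HasDerivAt (fun t : ℝ => conj (pt t v)) (-(Complex.I * v.1)) t := by
  have h : (fun t : ℝ => conj (pt t v)) =
      fun t : ℝ => (((v.2 : ℝ) - v.1 / 2 : ℝ) : ℂ) + (t : ℂ) * (-(Complex.I * v.1)) := by
    funext t
    apply Complex.ext
    · simp [pt]
    · simp [pt]
      ring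
  rw [h]
  have h1 : HasDerivAt (fun t : ℝ => (t : ℂ)) 1 t := Complex.ofRealCLM.hasDerivAt
  have h2 := (h1.mul_const (-(Complex.I * (v.1 : ℂ)))).const_add
    ((((v.2 : ℝ) - v.1 / 2 : ℝ) : ℂ))
  rwa [one_mul] at h2

private theorem Der_iv (hy : 0 < y) (v : ℤ × ℤ) :
    HasDerivAt (fun t : ℝ => iv t v) (-(Complex.I * v.1) * iv y v ^ 2) y := by
  by_cases hv : v = 0
  · subst hv
    have h : (fun t : ℝ => iv t (0 : ℤ × ℤ)) = fun _ => 0 := by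
      funext t
      exact iv_zero t
    rw [h, iv_zero]
    simpa using hasDerivAt_const y (0 : ℂ)
  · have h0 : pt y v ≠ 0 := fun h => hv ((pt_eq_zero hy).mp h)
    have h1 := (Der_pt v y).inv h0
    have h2 : -(Complex.I * v.1) / pt y v ^ 2 = -(Complex.I * v.1) * iv y v ^ 2 := by
      rw [iv, inv_pow, div_eq_mul_inv]
    rw [h2] at h1
    exact h1

private theorem Der_ic (hy : 0 < y) (v : ℤ × ℤ) :
    HasDerivAt (fun t : ℝ => ic t v) ((Complex.I * v.1) * ic y v ^ 2) y := by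
  by_cases hv : v = 0
  · subst hv
    have h : (fun t : ℝ => ic t (0 : ℤ × ℤ)) = fun _ => 0 := by
      funext t
      exact ic_zero t
    rw [h, ic_zero]
    simpa using hasDerivAt_const y (0 : ℂ)
  · have h0 : conj (pt y v) ≠ 0 := by
      intro h
      rw [map_eq_zero] at h
      exact hv ((pt_eq_zero hy).mp h)
    have h1 := (Der_ptc v y).inv h0
    have h2 : -(-(Complex.I * v.1)) / conj (pt y v) ^ 2 = (Complex.I * v.1) * ic y v ^ 2 := by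
      rw [ic, inv_pow, div_eq_mul_inv, neg_neg]
    rw [h2] at h1
    exact h1

private theorem Der_M (y : ℝ) (v : ℤ × ℤ) :
    2 * (y : ℂ) * (Complex.I * v.1) = pt y v - conj (pt y v) := by
  apply Complex.ext
  · simp [pt]
  · simp [pt]
    ring

private theorem Der_t3 (y : ℝ) : HasDerivAt (fun t : ℝ => (t : ℂ) ^ 3) (3 * (y : ℂ) ^ 2) y := by
  have h1 : HasDerivAt (fun t : ℝ => (t : ℂ)) 1 y := Complex.ofRealCLM.hasDerivAt
  have h2 := h1.pow 3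
  exact h2.congr_deriv (by simp)

private theorem Der_mul_iv (hy : 0 < y) {v : ℤ × ℤ} (hv : v ≠ 0) : pt y v * iv y v = 1 := by
  rw [pt_mul_iv hy, nz, if_neg hv]

private theorem Der_mul_ic (hy : 0 < y) {v : ℤ × ℤ} (hv : v ≠ 0) : conj (pt y v) * ic y v = 1 := by
  rw [← conj_iv, ← map_mul, Der_mul_iv hy hv, map_one]

theorem KK_deriv (hy : 0 < y) (x : (ℤ × ℤ) × (ℤ × ℤ)) :
    HasDerivAt (fun t : ℝ => (t : ℂ) ^ 3 * KK t x) ((y : ℂ) ^ 2 / 2 * (E51 y x + E33 y x)) y := by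
  have d1 := (Der_iv hy x.1).pow 2
  have d2 := Der_ic hy x.1
  have d3 := (Der_iv hy (x.1 + x.2)).pow 2
  have d4 := Der_ic hy x.2
  have d := (Der_t3 y).mul ((d1.mul d2).mul (d3.mul d4))
  have hfun : (fun t : ℝ => (t : ℂ) ^ 3 * KK t x) = (fun t : ℝ => (t : ℂ) ^ 3) *
      (((fun t : ℝ => iv t x.1) ^ 2 * fun t : ℝ => ic t x.1) *
        ((fun t : ℝ => iv t (x.1 + x.2)) ^ 2 * fun t : ℝ => ic t x.2)) := by
    funext t
    simp [KK]
  rw [hfun]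
  refine d.congr_deriv ?_
  simp only [Pi.mul_apply, Pi.pow_apply]
  by_cases hp : x.1 = 0
  · rw [E51, E33, hp]
    simp [iv_zero]
  by_cases hq : x.2 = 0
  · rw [E51, E33, hq]
    simp [ic_zero, nz]
  by_cases hr : x.1 + x.2 = 0
  · rw [E51, E33, hr]
    simp [iv_zero]
  have h1 := Der_M y x.1
  have h2 := Der_M y x.2
  have h3 := Der_M y (x.1 + x.2)
  have h4 := Der_mul_iv hy hp
  have h5 := Der_mul_ic hy hp
  have h6 := Der_mul_ic hy hq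
  have h7 := Der_mul_iv hy hr
  have h8 : conj (pt y (x.1 + x.2)) = conj (pt y x.1) + conj (pt y x.2) := by
    rw [pt_add, map_add]
  rw [E51, E33, nz, if_neg hq]
  generalize iv y x.1 = a at *
  generalize ic y x.1 = a' at *
  generalize ic y x.2 = b' at *
  generalize iv y (x.1 + x.2) = c at *
  generalize Complex.I * (x.1.1 : ℂ) = Mp at *
  generalize Complex.I * (x.2.1 : ℂ) = Mq at *
  generalize Complex.I * ((x.1 + x.2).1 : ℂ) = Mr at *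
  generalize conj (pt y x.1) = P' at *
  generalize conj (pt y x.2) = Q' at *
  generalize conj (pt y (x.1 + x.2)) = R' at *
  generalize pt y x.1 = P at *
  generalize pt y x.2 = Q at *
  generalize pt y (x.1 + x.2) = R at *
  norm_num
  linear_combination ((y : ℂ) ^ 2 / 2 * (-2 * a ^ 3 * a' * c ^ 2 * b' + a ^ 2 * a' ^ 2 * c ^ 2 * b')) * h1
    + ((y : ℂ) ^ 2 / 2 * (a ^ 2 * a' * c ^ 2 * b' ^ 2)) * h2
    + ((y : ℂ) ^ 2 / 2 * (-2 * a ^ 2 * a' * c ^ 3 * b')) * h3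
    + ((y : ℂ) ^ 2 / 2 * (-2 * a ^ 2 * a' * c ^ 2 * b' + a * a' ^ 2 * c ^ 2 * b')) * h4
    + ((y : ℂ) ^ 2 / 2 * (2 * a ^ 3 * c ^ 2 * b' - a ^ 2 * a' * c ^ 2 * b' + 2 * a ^ 2 * c ^ 3 * b')) * h5
    + ((y : ℂ) ^ 2 / 2 * (2 * a ^ 2 * a' * c ^ 3 - a ^ 2 * a' * c ^ 2 * b')) * h6
    + ((y : ℂ) ^ 2 / 2 * (-2 * a ^ 2 * a' * c ^ 2 * b')) * h7
    + ((y : ℂ) ^ 2 / 2 * (2 * a ^ 2 * a' * c ^ 3 * b')) * h8

theorem K1_deriv (hy : 0 < y) (v : ℤ × ℤ) :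
    HasDerivAt (fun t : ℝ => (t : ℂ) ^ 3 * K1 t v) ((y : ℂ) ^ 2 / 2 * E1 y v) y := by
  have d1 := (Der_iv hy v).pow 4
  have d2 := (Der_ic hy v).pow 2
  have d := (Der_t3 y).mul (d1.mul d2)
  have hfun : (fun t : ℝ => (t : ℂ) ^ 3 * K1 t v) = (fun t : ℝ => (t : ℂ) ^ 3) *
      ((fun t : ℝ => iv t v) ^ 4 * (fun t : ℝ => ic t v) ^ 2) := by
    funext t
    simp [K1]
  rw [hfun]
  refine d.congr_deriv ?_
  simp only [Pi.mul_apply, Pi.pow_apply]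
  by_cases hv : v = 0
  · subst hv
    simp [E1, iv_zero, ic_zero]
  have h1 := Der_M y v
  have h4 := Der_mul_iv hy hv
  have h5 := Der_mul_ic hy hv
  rw [E1]
  generalize iv y v = a at *
  generalize ic y v = a' at *
  generalize Complex.I * (v.1 : ℂ) = Mp at *
  generalize conj (pt y v) = P' at *
  generalize pt y v = P at *
  norm_num
  linear_combination ((y : ℂ) ^ 2 / 2 * (-4 * a ^ 5 * a' ^ 2 + 2 * a ^ 4 * a' ^ 3)) * h1
    + ((y : ℂ) ^ 2 / 2 * (-4 * a ^ 4 * a' ^ 2 + 2 * a ^ 3 * a' ^ 3)) * h4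
    + ((y : ℂ) ^ 2 / 2 * (4 * a ^ 5 * a' - 2 * a ^ 4 * a' ^ 2)) * h5

private theorem Der_sq {t : ℝ} (h0 : 0 < y) (ht : t ∈ Set.Ioo (y / 2) (2 * y)) :
    ‖(t : ℂ) ^ 2 / 2‖ ≤ 2 * y ^ 2 := by
  rw [norm_div, norm_pow, Complex.norm_real, Real.norm_eq_abs, sq_abs, Complex.norm_ofNat]
  have h1 : 0 < t := by linarith [ht.1]
  have h2 : t ^ 2 ≤ (2 * y) ^ 2 := by
    apply pow_le_pow_left₀ h1.le ht.2.le
  linarith

theorem D2_deriv (hy : 0 < y) :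
    HasDerivAt (fun t : ℝ => (t : ℂ) ^ 3 * D2 t) ((y : ℂ) ^ 2 / 2 * DD y) y := by
  have hy2 : 0 < y / 2 := by positivity
  have hmem : y ∈ Set.Ioo (y / 2) (2 * y) := ⟨by linarith, by linarith⟩
  have hpos : ∀ t ∈ Set.Ioo (y / 2) (2 * y), 0 < t := fun t ht => hy2.trans ht.1
  have A : HasDerivAt (fun t : ℝ => ∑' x : (ℤ × ℤ) × (ℤ × ℤ),
      (cw x.1.1 x.2.1 : ℂ) * ((t : ℂ) ^ 3 * KK t x))
      (∑' x : (ℤ × ℤ) × (ℤ × ℤ),
        (cw x.1.1 x.2.1 : ℂ) * ((y : ℂ) ^ 2 / 2 * (E51 y x + E33 y x))) y := by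
    refine hasDerivAt_tsum_of_isPreconnected
      (u := fun x => 20 * (2 * y ^ 2 * Bd (y / 2) x))
      (g := fun (x : (ℤ × ℤ) × (ℤ × ℤ)) (t : ℝ) => (cw x.1.1 x.2.1 : ℂ) * ((t : ℂ) ^ 3 * KK t x))
      (g' := fun (x : (ℤ × ℤ) × (ℤ × ℤ)) (t : ℝ) =>
        (cw x.1.1 x.2.1 : ℂ) * ((t : ℂ) ^ 2 / 2 * (E51 t x + E33 t x)))
      (t := Set.Ioo (y / 2) (2 * y)) (y₀ := y) ?_ isOpen_Ioo isPreconnected_Ioo ?_ ?_ hmem ?_ hmem
    · exact ((Bd_summable hy2).mul_left _).mul_left _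
    · intro x t ht
      exact (KK_deriv (hpos t ht) x).const_mul _
    · intro x t ht
      rw [norm_mul, norm_mul, Complex.norm_real, Real.norm_eq_abs]
      have h1 := cw_abs x.1.1 x.2.1
      have h2 := Der_sq hy ht
      have h3 := (E_le (hpos t ht) x).trans (Bd_anti hy2 ht.1.le x)
      have h4 : ‖(t : ℂ) ^ 2 / 2‖ * ‖E51 t x + E33 t x‖ ≤ 2 * y ^ 2 * Bd (y / 2) x :=
        mul_le_mul h2 h3 (norm_nonneg _) (by positivity)
      exact mul_le_mul h1 h4 (by positivity) (by norm_num)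
    · have := (cKK_summable hy).mul_left ((y : ℂ) ^ 3)
      refine this.congr fun x => ?_
      ring
  have B : HasDerivAt (fun t : ℝ => ∑' v : ℤ × ℤ, (sw v.1 : ℂ) * ((t : ℂ) ^ 3 * K1 t v))
      (∑' v : ℤ × ℤ, (sw v.1 : ℂ) * ((y : ℂ) ^ 2 / 2 * E1 y v)) y := by
    refine hasDerivAt_tsum_of_isPreconnected
      (u := fun v => 20 * (2 * y ^ 2 * (6 * ‖iv (y / 2) v‖ ^ 6)))
      (g := fun (v : ℤ × ℤ) (t : ℝ) => (sw v.1 : ℂ) * ((t : ℂ) ^ 3 * K1 t v))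
      (g' := fun (v : ℤ × ℤ) (t : ℝ) => (sw v.1 : ℂ) * ((t : ℂ) ^ 2 / 2 * E1 t v))
      (t := Set.Ioo (y / 2) (2 * y)) (y₀ := y) ?_ isOpen_Ioo isPreconnected_Ioo ?_ ?_ hmem ?_ hmem
    · exact ((((summable_iv (k := 6) hy2 (by norm_num)).mul_left _).mul_left _).mul_left _)
    · intro v t ht
      exact (K1_deriv (hpos t ht) v).const_mul _
    · intro v t ht
      rw [norm_mul, norm_mul, Complex.norm_real, Real.norm_eq_abs]
      have h1 := sw_abs v.1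
      have h2 := Der_sq hy ht
      have h3 : ‖E1 t v‖ ≤ 6 * ‖iv (y / 2) v‖ ^ 6 := by
        have e1 : ‖iv t v ^ 5 * ic t v‖ = ‖iv t v‖ ^ 6 := by
          have := norm_term t 5 1 v
          simpa using this
        have e2 : ‖iv t v ^ 3 * ic t v ^ 3‖ = ‖iv t v‖ ^ 6 := norm_term t 3 3 v
        have e3 : ‖iv t v‖ ^ 6 ≤ ‖iv (y / 2) v‖ ^ 6 :=
          pow_le_pow_left₀ (norm_nonneg _) (norm_iv_anti hy2 ht.1.le v) 6
        have e4 : ‖4 * (iv t v ^ 5 * ic t v)‖ = 4 * ‖iv t v‖ ^ 6 := by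
          rw [norm_mul, e1, Complex.norm_ofNat]
        have e5 : ‖2 * (iv t v ^ 3 * ic t v ^ 3)‖ = 2 * ‖iv t v‖ ^ 6 := by
          rw [norm_mul, e2, Complex.norm_ofNat]
        rw [E1]
        refine (norm_add_le _ _).trans ?_
        rw [e4, e5]
        linarith
      have h4 : ‖(t : ℂ) ^ 2 / 2‖ * ‖E1 t v‖ ≤ 2 * y ^ 2 * (6 * ‖iv (y / 2) v‖ ^ 6) :=
        mul_le_mul h2 h3 (norm_nonneg _) (by positivity)
      exact mul_le_mul h1 h4 (by positivity) (by norm_num)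
    · have := (K1_summable hy).mul_left ((y : ℂ) ^ 3)
      refine this.congr fun x => ?_
      ring
  have hfun : (fun t : ℝ => (t : ℂ) ^ 3 * D2 t) = fun t : ℝ =>
      (∑' x : (ℤ × ℤ) × (ℤ × ℤ), (cw x.1.1 x.2.1 : ℂ) * ((t : ℂ) ^ 3 * KK t x)) +
      (∑' v : ℤ × ℤ, (sw v.1 : ℂ) * ((t : ℂ) ^ 3 * K1 t v)) := by
    funext t
    rw [D2, mul_add, ← tsum_mul_left, ← tsum_mul_left]
    congr 1
    · exact tsum_congr fun x => by ring
    · exact tsum_congr fun x => by ring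
  rw [hfun]
  refine (A.add B).congr_deriv ?_
  rw [DD, mul_add, ← tsum_mul_left, ← tsum_mul_left]
  congr 1
  · exact tsum_congr fun x => by ring
  · exact tsum_congr fun x => by ring

end RVP
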