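import Mathlib
import Pool.Agent.RVP.Defs
import Pool.Agent.RVP.Wt

/-!
# RVP/Ell: derivative and size of `ell`

Termwise differentiation of the double series `Lq` (locally uniformly absolutely convergent).
-/

set_option autoImplicit false

open Filter Topology

namespace RVP

variable {y : ℝ}

theorem Ell_ph_abs (m : ℤ) : |ph m| ≤ 4 := by
  unfold ph sg t3
  split_ifs <;> norm_num

theorem Ell_qr_abs (y : ℝ) : |qr y| = Real.exp (-(2 * Real.pi * y)) := by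
  rw [qr, abs_neg, abs_of_pos (Real.exp_pos _)]

theorem Ell_pow_le {r ρ : ℝ} (h0 : 0 ≤ r) (h1 : r ≤ ρ) (h2 : ρ ≤ 1) (x : ℕ × ℕ) :
    r ^ ((x.1 + 1) * (x.2 + 1)) ≤ ρ * (ρ ^ x.1 * ρ ^ x.2) := by
  have hρ : 0 ≤ ρ := le_trans h0 h1
  calc r ^ ((x.1 + 1) * (x.2 + 1)) ≤ ρ ^ ((x.1 + 1) * (x.2 + 1)) := pow_le_pow_left₀ h0 h1 _
    _ ≤ ρ ^ (1 + (x.1 + x.2)) := by
        refine pow_le_pow_of_le_one hρ h2 ?_
        nlinarith
    _ = ρ * (ρ ^ x.1 * ρ ^ x.2) := by rw [pow_add, pow_one, pow_add]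

theorem Ell_exp_lt_one {c : ℝ} (hc : 0 < c) : Real.exp (-c) < 1 := by
  rw [Real.exp_lt_one_iff]; linarith

theorem Ell_geom_summable {ρ : ℝ} (h0 : 0 ≤ ρ) (h1 : ρ < 1) :
    Summable fun x : ℕ × ℕ => ρ ^ x.1 * ρ ^ x.2 :=
  (summable_geometric_of_lt_one h0 h1).mul_of_nonneg (summable_geometric_of_lt_one h0 h1)
    (fun _ => pow_nonneg h0 _) (fun _ => pow_nonneg h0 _)

theorem Ell_geom_summable' {ρ : ℝ} (h0 : 0 ≤ ρ) (h1 : ρ < 1) :
    Summable fun x : ℕ × ℕ => (((x.1 : ℝ) + 1) * ρ ^ x.1) * ρ ^ x.2 := by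
  have hs : Summable fun n : ℕ => ((n : ℝ) + 1) * ρ ^ n := by
    have hn : ‖ρ‖ < 1 := by rwa [Real.norm_of_nonneg h0]
    have := (summable_pow_mul_geometric_of_norm_lt_one 1 hn).add
      (summable_geometric_of_lt_one h0 h1)
    refine this.congr fun n => ?_
    rw [pow_one]; ring
  exact hs.mul_of_nonneg (summable_geometric_of_lt_one h0 h1)
    (fun _ => mul_nonneg (by positivity) (pow_nonneg h0 _)) (fun _ => pow_nonneg h0 _)

theorem Ell_term_le {r ρ : ℝ} (hr : |qr y| = r) (h1 : r ≤ ρ) (h2 : ρ ≤ 1) (x : ℕ × ℕ) :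
    ‖ph (x.2 + 1) * qr y ^ ((x.1 + 1) * (x.2 + 1)) / ((x.2 : ℝ) + 1)‖
      ≤ 4 * (ρ * (ρ ^ x.1 * ρ ^ x.2)) := by
  have h0 : 0 ≤ r := hr ▸ abs_nonneg _
  rw [norm_div, norm_mul, norm_pow, Real.norm_eq_abs, Real.norm_eq_abs, hr]
  have h3 : (1 : ℝ) ≤ ‖(x.2 : ℝ) + 1‖ := by
    rw [Real.norm_of_nonneg (by positivity)]
    have : (0 : ℝ) ≤ x.2 := Nat.cast_nonneg _
    linarith
  have h4 := Ell_pow_le h0 h1 h2 x
  have h5 : (0 : ℝ) ≤ r ^ ((x.1 + 1) * (x.2 + 1)) := pow_nonneg h0 _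
  calc |ph (x.2 + 1)| * r ^ ((x.1 + 1) * (x.2 + 1)) / ‖(x.2 : ℝ) + 1‖
      ≤ |ph (x.2 + 1)| * r ^ ((x.1 + 1) * (x.2 + 1)) :=
        div_le_self (mul_nonneg (abs_nonneg _) h5) h3
    _ ≤ 4 * (ρ * (ρ ^ x.1 * ρ ^ x.2)) :=
        mul_le_mul (Ell_ph_abs _) h4 h5 (by norm_num)

theorem Ell_dterm_le {r ρ : ℝ} (hr : |qr y| = r) (h1 : r ≤ ρ) (h2 : ρ ≤ 1) (x : ℕ × ℕ) :
    ‖ph (x.2 + 1) * ((x.1 : ℝ) + 1) * qr y ^ ((x.1 + 1) * (x.2 + 1))‖
      ≤ 4 * ρ * ((((x.1 : ℝ) + 1) * ρ ^ x.1) * ρ ^ x.2) := by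
  have h0 : 0 ≤ r := hr ▸ abs_nonneg _
  rw [norm_mul, norm_mul, norm_pow, Real.norm_eq_abs, Real.norm_eq_abs (qr y), hr,
    Real.norm_of_nonneg (by positivity : (0 : ℝ) ≤ (x.1 : ℝ) + 1)]
  have h4 := Ell_pow_le h0 h1 h2 x
  have h5 : (0 : ℝ) ≤ r ^ ((x.1 + 1) * (x.2 + 1)) := pow_nonneg h0 _
  have h6 : (0 : ℝ) ≤ (x.1 : ℝ) + 1 := by positivity
  calc |ph (x.2 + 1)| * ((x.1 : ℝ) + 1) * r ^ ((x.1 + 1) * (x.2 + 1))
      ≤ 4 * ((x.1 : ℝ) + 1) * (ρ * (ρ ^ x.1 * ρ ^ x.2)) :=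
        mul_le_mul (mul_le_mul_of_nonneg_right (Ell_ph_abs _) h6) h4 h5 (by positivity)
    _ = 4 * ρ * ((((x.1 : ℝ) + 1) * ρ ^ x.1) * ρ ^ x.2) := by ring

theorem Lq_summable (hy : 0 < y) :
    Summable fun x : ℕ × ℕ => ph (x.2 + 1) * qr y ^ ((x.1 + 1) * (x.2 + 1)) / ((x.2 : ℝ) + 1) := by
  have hlt : Real.exp (-(2 * Real.pi * y)) < 1 :=
    Ell_exp_lt_one (by have := Real.pi_pos; positivity)
  refine Summable.of_norm_bounded
    (((Ell_geom_summable (Real.exp_pos _).le hlt).mul_left _).mul_left 4) fun x =>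
    Ell_term_le (Ell_qr_abs y) le_rfl hlt.le x

theorem dLq_summable (hy : 0 < y) :
    Summable fun x : ℕ × ℕ => ph (x.2 + 1) * ((x.1 : ℝ) + 1) * qr y ^ ((x.1 + 1) * (x.2 + 1)) := by
  have hlt : Real.exp (-(2 * Real.pi * y)) < 1 :=
    Ell_exp_lt_one (by have := Real.pi_pos; positivity)
  refine Summable.of_norm_bounded
    ((Ell_geom_summable' (Real.exp_pos _).le hlt).mul_left _) fun x =>
    Ell_dterm_le (Ell_qr_abs y) le_rfl hlt.le x

theorem Ell_qr_deriv (s : ℝ) : HasDerivAt qr (-(2 * Real.pi) * qr s) s := by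
  have h : HasDerivAt (fun t : ℝ => -(2 * Real.pi * t)) (-(2 * Real.pi)) s := by
    have h0 : HasDerivAt (fun t : ℝ => -(2 * Real.pi * t)) (-(2 * Real.pi * 1)) s :=
      ((hasDerivAt_id' s).const_mul (2 * Real.pi)).neg
    rwa [mul_one] at h0
  have h2 := h.exp.neg
  have e : -(Real.exp (-(2 * Real.pi * s)) * -(2 * Real.pi)) = -(2 * Real.pi) * qr s := by
    rw [qr]; ring
  rw [e] at h2
  exact h2

theorem Ell_Lq_deriv (hy : 0 < y) :
    HasDerivAt Lq (∑' x : ℕ × ℕ,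
      -(2 * Real.pi) * (ph (x.2 + 1) * ((x.1 : ℝ) + 1) * qr y ^ ((x.1 + 1) * (x.2 + 1)))) y := by
  have hπ := Real.pi_pos
  have hlt : Real.exp (-(Real.pi * y)) < 1 := Ell_exp_lt_one (by positivity)
  have hb : ∀ s ∈ Set.Ioi (y / 2), Real.exp (-(2 * Real.pi * s)) ≤ Real.exp (-(Real.pi * y)) := by
    intro s hs
    rw [Real.exp_le_exp]
    have : y / 2 < s := hs
    nlinarith
  have h := hasDerivAt_tsum_of_isPreconnected (𝕜 := ℝ) (F := ℝ) (α := ℕ × ℕ)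
    (g := fun x s => ph (x.2 + 1) * qr s ^ ((x.1 + 1) * (x.2 + 1)) / ((x.2 : ℝ) + 1))
    (g' := fun x s => -(2 * Real.pi) *
      (ph (x.2 + 1) * ((x.1 : ℝ) + 1) * qr s ^ ((x.1 + 1) * (x.2 + 1))))
    (t := Set.Ioi (y / 2))
    (u := fun x => 2 * Real.pi * (4 * Real.exp (-(Real.pi * y)) *
      ((((x.1 : ℝ) + 1) * Real.exp (-(Real.pi * y)) ^ x.1) * Real.exp (-(Real.pi * y)) ^ x.2)))
    (((Ell_geom_summable' (Real.exp_pos _).le hlt).mul_left _).mul_left _)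
    isOpen_Ioi isPreconnected_Ioi
    (by
      intro x s _
      have h1 := (((Ell_qr_deriv s).pow ((x.1 + 1) * (x.2 + 1))).const_mul
        (ph (x.2 + 1))).div_const ((x.2 : ℝ) + 1)
      refine HasDerivAt.congr_deriv h1 ?_
      have h2 : ((x.2 : ℝ) + 1) ≠ 0 := by positivity
      obtain ⟨N, hN⟩ : ∃ N, (x.1 + 1) * (x.2 + 1) = N + 1 :=
        ⟨(x.1 + 1) * (x.2 + 1) - 1, by
          have : 0 < (x.1 + 1) * (x.2 + 1) := by positivity
          omega⟩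
      have hN' : (((x.1 + 1) * (x.2 + 1) : ℕ) : ℝ) = ((x.1 : ℝ) + 1) * ((x.2 : ℝ) + 1) := by
        push_cast; ring
      rw [hN']
      rw [hN, Nat.add_sub_cancel, pow_succ]
      field_simp)
    (by
      intro x s hs
      rw [norm_mul, norm_neg, Real.norm_of_nonneg (by positivity : (0 : ℝ) ≤ 2 * Real.pi)]
      refine mul_le_mul_of_nonneg_left ?_ (by positivity)
      exact Ell_dterm_le (Ell_qr_abs s) (hb s hs) hlt.le x)
    (y₀ := y) (y := y) (by simp only [Set.mem_Ioi]; linarith) (Lq_summable hy)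
    (by simp only [Set.mem_Ioi]; linarith)
  exact h

theorem ell_deriv (hy : 0 < y) : HasDerivAt ell (dell y) y := by
  have h1 := Ell_Lq_deriv hy
  rw [tsum_mul_left] at h1
  have h2 : HasDerivAt (fun t : ℝ => 3 * Real.log 2 - Real.pi * t) (-Real.pi) y := by
    simpa using ((hasDerivAt_id y).const_mul Real.pi).const_sub (3 * Real.log 2)
  have h3 := h2.sub (h1.const_mul 3)
  have e : -Real.pi - 3 * (-(2 * Real.pi) * ∑' x : ℕ × ℕ,
      ph (x.2 + 1) * ((x.1 : ℝ) + 1) * qr y ^ ((x.1 + 1) * (x.2 + 1))) = dell y := by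
    rw [dell]; ring
  rw [e] at h3
  exact h3

theorem Lq_le (hy : 1 ≤ y) : |Lq y| ≤ 5 * Real.exp (-(2 * Real.pi * y)) := by
  have hπ := Real.pi_gt_three
  set r : ℝ := Real.exp (-(2 * Real.pi * y)) with hr
  have hr0 : 0 < r := Real.exp_pos _
  have hr1 : r ≤ 1 / 10 := by
    have h1 : r ≤ Real.exp (-6) := by
      rw [hr, Real.exp_le_exp]
      nlinarith
    have h2 : (10 : ℝ) ≤ Real.exp 6 := by
      have h3 : (2 : ℝ) ^ 6 ≤ Real.exp 1 ^ 6 :=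
        pow_le_pow_left₀ (by norm_num) (by have := Real.add_one_le_exp (1 : ℝ); linarith) _
      rw [← Real.exp_nat_mul] at h3
      norm_num at h3
      linarith
    rw [Real.exp_neg] at h1
    refine h1.trans ?_
    rw [one_div]
    exact inv_anti₀ (by norm_num) h2
  have hlt : r < 1 := by linarith
  have hg := Ell_geom_summable hr0.le hlt
  have hsum : ∑' x : ℕ × ℕ, r ^ x.1 * r ^ x.2 = (1 - r)⁻¹ * (1 - r)⁻¹ := by
    rw [← tsum_geometric_of_lt_one hr0.le hlt]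
    exact (tsum_mul_tsum_of_summable_norm
      (by simpa [abs_of_pos hr0] using summable_geometric_of_lt_one hr0.le hlt)
      (by simpa [abs_of_pos hr0] using summable_geometric_of_lt_one hr0.le hlt)).symm
  have hbound : ‖∑' x : ℕ × ℕ, ph (x.2 + 1) * qr y ^ ((x.1 + 1) * (x.2 + 1)) / ((x.2 : ℝ) + 1)‖
      ≤ ∑' x : ℕ × ℕ, 4 * (r * (r ^ x.1 * r ^ x.2)) :=
    tsum_of_norm_bounded ((hg.mul_left r).mul_left 4).hasSum
      (fun x => Ell_term_le (Ell_qr_abs y) le_rfl hlt.le x)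
  rw [tsum_mul_left, tsum_mul_left, hsum] at hbound
  have hinv : (1 - r)⁻¹ ≤ 10 / 9 := by
    rw [inv_le_comm₀ (by linarith) (by norm_num)]
    norm_num
    linarith
  have hinv0 : 0 ≤ (1 - r)⁻¹ := inv_nonneg.2 (by linarith)
  have h6 : (1 - r)⁻¹ * (1 - r)⁻¹ ≤ 5 / 4 := by nlinarith
  have h7 : 4 * (r * ((1 - r)⁻¹ * (1 - r)⁻¹)) ≤ 5 * r := by nlinarith
  have h8 : |Lq y| = ‖∑' x : ℕ × ℕ,
      ph (x.2 + 1) * qr y ^ ((x.1 + 1) * (x.2 + 1)) / ((x.2 : ℝ) + 1)‖ := rfl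
  rw [h8]
  exact hbound.trans h7

theorem ell_lim : Tendsto (fun y : ℝ => ell y / y) atTop (𝓝 (-Real.pi)) := by
  have h1 : Tendsto (fun y : ℝ => 3 * Real.log 2 / y) atTop (𝓝 0) :=
    tendsto_const_nhds.div_atTop tendsto_id
  have h2 : Tendsto (fun y : ℝ => Lq y / y) atTop (𝓝 0) := by
    have h5 : Tendsto (fun y : ℝ => (5 : ℝ) / y) atTop (𝓝 0) :=
      tendsto_const_nhds.div_atTop tendsto_id
    refine squeeze_zero_norm' ?_ h5
    filter_upwards [eventually_ge_atTop (1 : ℝ)] with t ht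
    have ht0 : 0 < t := by linarith
    rw [norm_div, Real.norm_eq_abs, Real.norm_of_nonneg ht0.le]
    refine div_le_div_of_nonneg_right ?_ ht0.le
    refine (Lq_le ht).trans ?_
    have : Real.exp (-(2 * Real.pi * t)) ≤ 1 :=
      (Ell_exp_lt_one (by have := Real.pi_pos; positivity)).le
    linarith
  have h3 : Tendsto (fun y : ℝ => 3 * Real.log 2 / y - Real.pi - 3 * (Lq y / y)) atTop
      (𝓝 (0 - Real.pi - 3 * 0)) := (h1.sub_const _).sub (h2.const_mul 3)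
  have e : (0 : ℝ) - Real.pi - 3 * 0 = -Real.pi := by ring
  rw [e] at h3
  refine h3.congr' ?_
  filter_upwards [eventually_gt_atTop (0 : ℝ)] with t ht
  rw [ell]
  field_simp

end RVP
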