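import Mathlib
import Pool.Agent.RVP.Defs
import Pool.Agent.RVP.Wt
import Pool.Agent.RVP.RowB
import Pool.Agent.RV15W.BasP

/-!
# RVP/FPsi: `W_40 = (64π⁴/3) Ψ`

`W_40 = 2 (8π⁴/3) Σ_{m,k ≥ 1} ψ(m) k³ q^{mk}` (`X40_eq`, `ps 0 = 0`), and
`Ψ = (1/2) Σ_n σ₃(n) (q^n - q^{2n} - 9 q^{3n} + 9 q^{6n}) = (1/2) Σ_{m,k} k³ (1 - [2|m]) (1 - 9 [3|m]) q^{mk} = (1/4) Σ ψ(m) k³ q^{mk}`.
-/

set_option autoImplicit false

open scoped ArithmeticFunction.sigma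

namespace RVP

variable {y : ℝ}

private noncomputable def gg (r : ℂ) (d : ℕ+) : ℂ := ∑' c : ℕ+, (c : ℂ) ^ 3 * r ^ ((d : ℕ) * c)

private theorem gg_summable {r : ℂ} (hr : ‖r‖ < 1) : Summable (gg r) :=
  (summable_prod_mul_pow 3 hr).prod

private theorem e4_gg {r : ℂ} (hr : ‖r‖ < 1) : RV15W.e4 r = 1 + 240 * ∑' d, gg r d := by
  unfold RV15W.e4 gg
  rw [tsum_prod_pow_eq_tsum_sigma 3 hr,
    ← tsum_pnat_eq_tsum_succ (f := fun n : ℕ => (σ 3 n : ℂ) * r ^ n)]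

private theorem gg_pow (r : ℂ) (j d : ℕ+) : gg (r ^ (j : ℕ)) d = gg r (j * d) := by
  unfold gg
  refine tsum_congr fun c => ?_
  rw [← pow_mul]
  congr 2
  push_cast
  ring

private theorem tsum_ind (f : ℕ+ → ℂ) (j : ℕ+) :
    ∑' d : ℕ+, (if (j : ℕ) ∣ d then f d else 0) = ∑' d, f (j * d) := by
  have hinj : Function.Injective fun d : ℕ+ => j * d := fun a b h => mul_left_cancel h
  rw [← hinj.tsum_eq (f := fun d : ℕ+ => if (j : ℕ) ∣ d then f d else 0)]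
  · refine tsum_congr fun c => ?_
    have : (j : ℕ) ∣ ((j * c : ℕ+) : ℕ) := by
      rw [PNat.mul_coe]
      exact Dvd.intro _ rfl
    simp only [this, if_true]
  · intro d hd
    have h : (j : ℕ) ∣ d := by
      by_contra h
      simp [h] at hd
    have h2 : j ∣ d := PNat.dvd_iff.mpr h
    obtain ⟨c, hc⟩ := h2
    exact ⟨c, hc.symm⟩

private theorem sum_ind {f : ℕ+ → ℂ} (hf : Summable f) (j : ℕ) :
    Summable fun d : ℕ+ => (if j ∣ (d : ℕ) then f d else 0) := by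
  have h := hf.indicator {d : ℕ+ | j ∣ (d : ℕ)}
  refine h.congr fun d => ?_
  by_cases hd : j ∣ (d : ℕ) <;> simp [Set.indicator, hd]

private theorem ps_ind (d : ℕ+) :
    (ps (d : ℤ) : ℂ) = 2 * (1 - (if 2 ∣ (d : ℕ) then 1 else 0) - 9 * (if 3 ∣ (d : ℕ) then 1 else 0)
      + 9 * (if 6 ∣ (d : ℕ) then 1 else 0)) := by
  have h2 : ((d : ℕ) : ℤ) % 2 = 0 ↔ 2 ∣ (d : ℕ) := by omega
  have h3 : ((d : ℕ) : ℤ) % 3 = 0 ↔ 3 ∣ (d : ℕ) := by omega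
  have h6 : 6 ∣ (d : ℕ) ↔ 2 ∣ (d : ℕ) ∧ 3 ∣ (d : ℕ) := by omega
  unfold ps sg t3
  simp only [h2, h3, h6]
  by_cases a : 2 ∣ (d : ℕ) <;> by_cases b : 3 ∣ (d : ℕ) <;> simp [a, b] <;> norm_num

private theorem sum_ps {r : ℂ} (hr : ‖r‖ < 1) :
    ∑' d : ℕ+, (ps (d : ℤ) : ℂ) * gg r d = 4 * RV15W.psi r := by
  have hs := gg_summable hr
  have hp : ∀ j : ℕ, j ≠ 0 → ‖r ^ j‖ < 1 := fun j hj => by
    rw [norm_pow]
    exact pow_lt_one₀ (norm_nonneg _) hr hj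
  have e : ∀ j : ℕ+, RV15W.e4 (r ^ (j : ℕ)) =
      1 + 240 * ∑' d : ℕ+, (if (j : ℕ) ∣ d then gg r d else 0) := fun j => by
    rw [e4_gg (hp j j.ne_zero), tsum_ind]
    congr 2
    exact tsum_congr fun d => gg_pow r j d
  have e2 := e 2
  have e3 := e 3
  have e6 := e 6
  have e1 := e4_gg hr
  have hs2 := sum_ind hs 2
  have hs3 := sum_ind hs 3
  have hs6 := sum_ind hs 6
  have key : ∑' d : ℕ+, (ps (d : ℤ) : ℂ) * gg r d =
      2 * (∑' d, gg r d - ∑' d : ℕ+, (if 2 ∣ (d : ℕ) then gg r d else 0)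
        - 9 * ∑' d : ℕ+, (if 3 ∣ (d : ℕ) then gg r d else 0)
        + 9 * ∑' d : ℕ+, (if 6 ∣ (d : ℕ) then gg r d else 0)) := by
    rw [← tsum_mul_left (a := (9 : ℂ)), ← tsum_mul_left (a := (9 : ℂ)), ← hs.tsum_sub hs2,
      ← (hs.sub hs2).tsum_sub (hs3.mul_left 9),
      ← ((hs.sub hs2).sub (hs3.mul_left 9)).tsum_add (hs6.mul_left 9), ← tsum_mul_left]
    refine tsum_congr fun d => ?_
    rw [ps_ind]
    by_cases a : 2 ∣ (d : ℕ) <;> by_cases b : 3 ∣ (d : ℕ) <;> by_cases c : 6 ∣ (d : ℕ) <;>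
      simp only [a, b, c, if_true, if_false] <;> ring
  rw [key]
  unfold RV15W.psi
  have e2' : RV15W.e4 (r ^ 2) = 1 + 240 * ∑' d : ℕ+, (if 2 ∣ (d : ℕ) then gg r d else 0) := e2
  have e3' : RV15W.e4 (r ^ 3) = 1 + 240 * ∑' d : ℕ+, (if 3 ∣ (d : ℕ) then gg r d else 0) := e3
  have e6' : RV15W.e4 (r ^ 6) = 1 + 240 * ∑' d : ℕ+, (if 6 ∣ (d : ℕ) then gg r d else 0) := e6
  rw [e1, e2', e3', e6']
  ring

private theorem X_gg (hy : 0 < y) (d : ℕ+) :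
    X y 4 0 (d : ℤ) = 8 * (Real.pi : ℂ) ^ 4 / 3 * gg (qr y : ℂ) d := by
  have hd : ((d : ℕ) : ℤ) ≠ 0 := by exact_mod_cast d.ne_zero
  rw [X40_eq hy hd]
  have hn : ((d : ℕ) : ℤ).natAbs = d := Int.natAbs_natCast _
  rw [hn]
  unfold gg
  rw [tsum_pnat_eq_tsum_succ (f := fun c : ℕ => (c : ℂ) ^ 3 * (qr y : ℂ) ^ ((d : ℕ) * c))]
  push_cast
  rfl

theorem F_eq (hy : 0 < y) : W y 4 0 = ((64 * Real.pi ^ 4 / 3 * RV15W.Ps y : ℝ) : ℂ) := by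
  have hq : RV15W.qm y = ((qr y : ℝ) : ℂ) := by
    unfold RV15W.qm qr
    push_cast
    rfl
  have hn : ‖((qr y : ℝ) : ℂ)‖ < 1 := by
    rw [Complex.norm_real, qr, norm_neg, Real.norm_of_nonneg (Real.exp_pos _).le]
    apply Real.exp_lt_one_iff.mpr
    have := mul_pos Real.pi_pos hy
    linarith
  have hP : (RV15W.Ps y : ℂ) = RV15W.psi ((qr y : ℝ) : ℂ) := by
    unfold RV15W.Ps
    rw [hq, RV15W.psi_ofReal]
  have hX := X_summable (a := 4) (b := 0) hy (by norm_num)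
  have hS : Summable fun m : ℤ => (ps m : ℂ) * X y 4 0 m := by
    refine Summable.of_norm_bounded (hX.mul_left 16) fun m => ?_
    rw [norm_mul, Complex.norm_real, Real.norm_eq_abs]
    exact mul_le_mul_of_nonneg_right (ps_abs m) (norm_nonneg _)
  have hE : Function.Even fun m : ℤ => (ps m : ℂ) * X y 4 0 m := by
    intro m
    simp only
    rw [ps_neg, X_neg]
    ring
  have h0 : ps 0 = 0 := by
    unfold ps sg
    norm_num
  unfold W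
  rw [tsum_int_eq_zero_add_two_mul_tsum_pnat hE hS, h0]
  have hc : ∑' n : ℕ+, (ps ((n : ℕ) : ℤ) : ℂ) * X y 4 0 ((n : ℕ) : ℤ)
      = 8 * (Real.pi : ℂ) ^ 4 / 3 * (4 * RV15W.psi ((qr y : ℝ) : ℂ)) := by
    rw [← sum_ps hn, ← tsum_mul_left]
    refine tsum_congr fun d => ?_
    rw [X_gg hy]
    ring
  rw [hc]
  push_cast
  rw [hP]
  simp only [nsmul_eq_mul]
  push_cast
  ring

end RVP
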