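import Mathlib
import Pool.Agent.RVP.Defs
import Pool.Agent.RVP.Bas
import Pool.Agent.RVP.Wt
import Pool.Agent.RVP.RowA
import Pool.Agent.RVP.RowB

/-!
# RVP/LimW: `y³ W_31(y) → -(7π/12) ζ(3)`

`1/(P³(P-c)) = c⁻³ (1/(P-c) - 1/P) - c⁻² P⁻² - c⁻¹ P⁻³` with `P = p`, `P - c = p̄`, `c = 2imy`, and `1/p̄ - 1/p = c/|p|²`:
`X31(m) = c⁻² X11(m) - c⁻² X20(m) - c⁻¹ X30(m)` (`m ≠ 0`).  So `y³ X31(m) → -π/(4|m|³)` (`X11_lim`, `X20_le`, `X30_le`),
and `|X31(m)| ≤ Σ_n |p|⁻⁴ ≤ (|m|y)⁻² X11(m) ≤ 4/(|m|y)³` for `y ≥ 1` (dominated convergence, `tendsto_tsum_of_dominated_convergence`).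
`Σ_{m ≥ 1} ψ(m)/m³ = (7/6) ζ(3)`.
-/

set_option autoImplicit false

open Filter Topology

namespace RVP

private theorem cube_sum : Summable fun n : ℕ => 1 / (n : ℝ) ^ 3 :=
  Real.summable_one_div_nat_pow.mpr (by norm_num)

private theorem cube_hasSum : HasSum (fun n : ℕ => 1 / (n : ℝ) ^ 3) RV15W.z3 := by
  have h := cube_sum.hasSum
  have h2 : ∑' n : ℕ, 1 / (n : ℝ) ^ 3 = RV15W.z3 := by
    rw [cube_sum.tsum_eq_zero_add]
    unfold RV15W.z3
    simp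
  rwa [h2] at h

private theorem cube_dvd (d : ℕ) (hd : d ≠ 0) :
    HasSum (fun n : ℕ => if d ∣ n then 1 / (n : ℝ) ^ 3 else 0) (RV15W.z3 / (d : ℝ) ^ 3) := by
  have hinj : Function.Injective (fun n : ℕ => d * n) := fun a b h =>
    Nat.eq_of_mul_eq_mul_left (Nat.pos_of_ne_zero hd) h
  rw [← hinj.hasSum_iff]
  · have h := cube_hasSum.div_const ((d : ℝ) ^ 3)
    have he : ((fun n : ℕ => if d ∣ n then 1 / (n : ℝ) ^ 3 else 0) ∘ fun n : ℕ => d * n)
        = fun n : ℕ => 1 / (n : ℝ) ^ 3 / (d : ℝ) ^ 3 := by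
      funext n
      have hdv : d ∣ d * n := dvd_mul_right d n
      simp only [Function.comp, if_pos hdv]
      push_cast
      rw [mul_pow, div_div, mul_comm]
    rw [he]
    exact h
  · intro x hx
    have : ¬ d ∣ x := by
      rintro ⟨k, rfl⟩
      exact hx ⟨k, rfl⟩
    simp [this]

private theorem ps_nat (n : ℕ) : ps (n : ℤ) = 2 - 2 * (if 2 ∣ n then 1 else 0)
    - 18 * (if 3 ∣ n then 1 else 0) + 18 * (if 6 ∣ n then 1 else 0) := by
  unfold ps sg t3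
  have h2 : ((n : ℤ) % 2 = 0) ↔ 2 ∣ n := by omega
  have h3 : ((n : ℤ) % 3 = 0) ↔ 3 ∣ n := by omega
  have h6 : 6 ∣ n ↔ (2 ∣ n ∧ 3 ∣ n) := by omega
  simp only [h2, h3, h6]
  by_cases a : 2 ∣ n <;> by_cases b : 3 ∣ n <;> simp [a, b] <;> norm_num

private theorem ps_nat_sum : HasSum (fun n : ℕ => ps (n : ℤ) / (n : ℝ) ^ 3)
    (7 / 6 * RV15W.z3) := by
  have h := (((cube_hasSum.mul_left 2).sub ((cube_dvd 2 (by norm_num)).mul_left 2)).sub
    ((cube_dvd 3 (by norm_num)).mul_left 18)).add ((cube_dvd 6 (by norm_num)).mul_left 18)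
  have he : (fun n : ℕ => ps (n : ℤ) / (n : ℝ) ^ 3) = fun n : ℕ =>
      2 * (1 / (n : ℝ) ^ 3) - 2 * (if 2 ∣ n then 1 / (n : ℝ) ^ 3 else 0)
      - 18 * (if 3 ∣ n then 1 / (n : ℝ) ^ 3 else 0)
      + 18 * (if 6 ∣ n then 1 / (n : ℝ) ^ 3 else 0) := by
    funext n
    rw [ps_nat]
    split_ifs <;> ring
  have hv : 7 / 6 * RV15W.z3 = 2 * RV15W.z3 - 2 * (RV15W.z3 / ((2 : ℕ) : ℝ) ^ 3)
      - 18 * (RV15W.z3 / ((3 : ℕ) : ℝ) ^ 3) + 18 * (RV15W.z3 / ((6 : ℕ) : ℝ) ^ 3) := by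
    push_cast
    ring
  rw [he, hv]
  exact h

/-- `Σ_{m ∈ ℤ} ψ(m)/|m|³ = (7/3) ζ(3)` -/
theorem ps_sum : HasSum (fun m : ℤ => ps m / |(m : ℝ)| ^ 3) (7 / 3 * RV15W.z3) := by
  have h1 : HasSum (fun n : ℕ => ps ((n : ℤ) + 1) / |(((n : ℤ) + 1 : ℤ) : ℝ)| ^ 3)
      (7 / 6 * RV15W.z3) := by
    have h := (hasSum_nat_add_iff' 1).mpr ps_nat_sum
    simp only [Finset.range_one, Finset.sum_singleton, Nat.cast_zero, ne_eq,
      OfNat.ofNat_ne_zero, not_false_eq_true, zero_pow, div_zero, sub_zero] at h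
    have he : (fun n : ℕ => ps ((n : ℤ) + 1) / |(((n : ℤ) + 1 : ℤ) : ℝ)| ^ 3)
        = fun n : ℕ => ps (((n + 1 : ℕ)) : ℤ) / (((n + 1 : ℕ)) : ℝ) ^ 3 := by
      funext n
      have h0 : (0 : ℝ) ≤ (n : ℝ) + 1 := by positivity
      push_cast
      rw [abs_of_nonneg h0]
    rw [he]
    exact h
  have h2 : HasSum (fun n : ℕ => ps (-((n : ℤ) + 1)) / |((-((n : ℤ) + 1) : ℤ) : ℝ)| ^ 3)
      (7 / 6 * RV15W.z3) := by
    have he : (fun n : ℕ => ps (-((n : ℤ) + 1)) / |((-((n : ℤ) + 1) : ℤ) : ℝ)| ^ 3)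
        = fun n : ℕ => ps ((n : ℤ) + 1) / |(((n : ℤ) + 1 : ℤ) : ℝ)| ^ 3 := by
      funext n
      rw [ps_neg, Int.cast_neg, abs_neg]
    rw [he]
    exact h1
  have h := HasSum.of_add_one_of_neg_add_one (f := fun m : ℤ => ps m / |(m : ℝ)| ^ 3) h1 h2
  have hv : 7 / 3 * RV15W.z3 = 7 / 6 * RV15W.z3 + ps 0 / |((0 : ℤ) : ℝ)| ^ 3
      + 7 / 6 * RV15W.z3 := by
    simp
    ring
  rw [hv]
  exact h

theorem X31_eq {y : ℝ} (hy : 0 < y) {m : ℤ} (hm : m ≠ 0) :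
    X y 3 1 m = (X y 1 1 m - X y 2 0 m) / (2 * Complex.I * m * y) ^ 2
      - X y 3 0 m / (2 * Complex.I * m * y) := by
  have s11 := row_summable (a := 1) (b := 1) hy (by norm_num) m
  have s20 := row_summable (a := 2) (b := 0) hy (by norm_num) m
  have s30 := row_summable (a := 3) (b := 0) hy (by norm_num) m
  unfold X
  rw [← s11.tsum_sub s20, ← tsum_div_const, ← tsum_div_const]
  rw [← ((s11.sub s20).div_const _).tsum_sub (s30.div_const _)]
  refine tsum_congr fun n => ?_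
  have hc : (2 * Complex.I * m * y : ℂ) ≠ 0 := by
    have h1 : (m : ℂ) ≠ 0 := by exact_mod_cast hm
    have h2 : (y : ℂ) ≠ 0 := by exact_mod_cast hy.ne'
    exact mul_ne_zero (mul_ne_zero (mul_ne_zero two_ne_zero Complex.I_ne_zero) h1) h2
  have hp : pt y (m, n) ≠ 0 := by
    rw [ne_eq, pt_eq_zero hy]
    intro h
    exact hm (congrArg Prod.fst h)
  have hq : (starRingEnd ℂ) (pt y (m, n)) ≠ 0 := by
    rw [ne_eq, map_eq_zero]
    exact hp
  have hpq : pt y (m, n) - (starRingEnd ℂ) (pt y (m, n)) = 2 * Complex.I * m * y := by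
    apply Complex.ext
    · simp [pt]
    · simp [pt]
      ring
  unfold iv ic
  generalize (starRingEnd ℂ) (pt y (m, n)) = q at *
  generalize pt y (m, n) = p at *
  rw [← hpq] at hc ⊢
  field_simp

private theorem exp_bd {y : ℝ} (hy : 1 ≤ y) {m : ℤ} (hm : m ≠ 0) :
    Real.exp (-(2 * Real.pi * (|(m : ℝ)| * y))) ≤ Real.exp (-y) := by
  apply Real.exp_le_exp.mpr
  have h1 : (1 : ℝ) ≤ |(m : ℝ)| := by
    exact_mod_cast Int.one_le_abs hm
  have h2 : (3 : ℝ) < Real.pi := Real.pi_gt_three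
  have h3 : y ≤ |(m : ℝ)| * y := by nlinarith
  nlinarith [mul_nonneg (abs_nonneg (m : ℝ)) (zero_le_one.trans hy)]

private theorem X31_lim {m : ℤ} (hm : m ≠ 0) :
    Tendsto (fun y : ℝ => (y : ℂ) ^ 3 * X y 3 1 m) atTop
      (𝓝 ((-(Real.pi / 4) / |(m : ℝ)| ^ 3 : ℝ) : ℂ)) := by
  have hm0 : (m : ℂ) ≠ 0 := by exact_mod_cast hm
  have hl1 := X11_lim hm
  have hl2 : Tendsto (fun y : ℝ => (y : ℂ) * X y 2 0 m) atTop (𝓝 0) := by
    have hb : Tendsto (fun y : ℝ => 40 * (y ^ 1 * Real.exp (-y))) atTop (𝓝 0) := by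
      simpa using (Real.tendsto_pow_mul_exp_neg_atTop_nhds_zero 1).const_mul 40
    refine squeeze_zero_norm' ?_ hb
    filter_upwards [eventually_ge_atTop 1] with y hy
    rw [norm_mul, Complex.norm_real, Real.norm_of_nonneg (zero_le_one.trans hy)]
    have h1 := X20_le hy hm
    have h2 := exp_bd hy hm
    have h0 : 0 ≤ y := zero_le_one.trans hy
    calc y * ‖X y 2 0 m‖ ≤ y * (40 * Real.exp (-y)) := by
          apply mul_le_mul_of_nonneg_left _ h0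
          linarith
      _ = 40 * (y ^ 1 * Real.exp (-y)) := by ring
  have hl3 : Tendsto (fun y : ℝ => (y : ℂ) ^ 2 * X y 3 0 m) atTop (𝓝 0) := by
    have hb : Tendsto (fun y : ℝ => 130 * (y ^ 2 * Real.exp (-y))) atTop (𝓝 0) := by
      simpa using (Real.tendsto_pow_mul_exp_neg_atTop_nhds_zero 2).const_mul 130
    refine squeeze_zero_norm' ?_ hb
    filter_upwards [eventually_ge_atTop 1] with y hy
    rw [norm_mul, norm_pow, Complex.norm_real, Real.norm_of_nonneg (zero_le_one.trans hy)]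
    have h1 := X30_le hy hm
    have h2 := exp_bd hy hm
    have h0 : 0 ≤ y := zero_le_one.trans hy
    calc y ^ 2 * ‖X y 3 0 m‖ ≤ y ^ 2 * (130 * Real.exp (-y)) := by
          apply mul_le_mul_of_nonneg_left _ (by positivity)
          linarith
      _ = 130 * (y ^ 2 * Real.exp (-y)) := by ring
  have hcomb := ((hl1.sub hl2).mul_const ((2 * Complex.I * m) ^ 2)⁻¹).sub
    (hl3.mul_const (2 * Complex.I * m)⁻¹)
  have hev : (fun y : ℝ => ((y : ℂ) * X y 1 1 m - (y : ℂ) * X y 2 0 m)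
      * ((2 * Complex.I * m) ^ 2)⁻¹ - (y : ℂ) ^ 2 * X y 3 0 m * (2 * Complex.I * m)⁻¹)
      =ᶠ[atTop] fun y : ℝ => (y : ℂ) ^ 3 * X y 3 1 m := by
    filter_upwards [eventually_gt_atTop 0] with y hy
    rw [X31_eq hy hm]
    have hy0 : (y : ℂ) ≠ 0 := by exact_mod_cast hy.ne'
    have hI := Complex.I_ne_zero
    field_simp
  have hval : (((Real.pi / |(m : ℝ)| : ℝ) : ℂ) - 0) * ((2 * Complex.I * m) ^ 2)⁻¹
      - 0 * (2 * Complex.I * m)⁻¹ = ((-(Real.pi / 4) / |(m : ℝ)| ^ 3 : ℝ) : ℂ) := by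
    have habs : (|(m : ℝ)|) ≠ 0 := by
      rw [ne_eq, abs_eq_zero]
      exact_mod_cast hm
    have habs2 : ((|(m : ℝ)| : ℝ) : ℂ) ≠ 0 := by exact_mod_cast habs
    have hsq : ((2 * Complex.I * m) ^ 2 : ℂ) = -4 * ((|(m : ℝ)| : ℝ) : ℂ) ^ 2 := by
      have h1 : ((|(m : ℝ)| : ℝ) : ℂ) ^ 2 = (m : ℂ) ^ 2 := by
        rw [← Complex.ofReal_pow, sq_abs]
        push_cast
        rfl
      rw [h1, mul_pow, mul_pow, Complex.I_sq]
      ring
    rw [hsq]
    push_cast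
    field_simp
    ring
  rw [← hval]
  exact hcomb.congr' hev

private theorem X31_le {y : ℝ} (hy : 1 ≤ y) {m : ℤ} (hm : m ≠ 0) :
    ‖X y 3 1 m‖ ≤ 4 / (|(m : ℝ)| * y) ^ 3 := by
  have hy0 : 0 < y := zero_lt_one.trans_le hy
  have hm1 : 0 < |(m : ℝ)| := by
    rw [abs_pos]
    exact_mod_cast hm
  have hmy : 0 < |(m : ℝ)| * y := mul_pos hm1 hy0
  have h1 := norm_X_le (a := 3) (b := 1) hy0 (by norm_num) m
  have h2 : ∑' n : ℤ, ‖iv y (m, n)‖ ^ (3 + 1)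
      ≤ ∑' n : ℤ, (1 / (|(m : ℝ)| * y)) ^ 2 * ‖iv y (m, n)‖ ^ 2 := by
    refine Summable.tsum_le_tsum ?_ (summable_row hy0 (by norm_num) m)
      ((summable_row2 hy0 m).mul_left _)
    intro n
    have h3 := norm_iv_le hy0 hm n
    calc ‖iv y (m, n)‖ ^ (3 + 1) = ‖iv y (m, n)‖ ^ 2 * ‖iv y (m, n)‖ ^ 2 := by ring
      _ ≤ (1 / (|(m : ℝ)| * y)) ^ 2 * ‖iv y (m, n)‖ ^ 2 := by
          apply mul_le_mul_of_nonneg_right _ (by positivity)
          exact pow_le_pow_left₀ (norm_nonneg _) h3 2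
  rw [tsum_mul_left] at h2
  have h4 := row2_le hy hm
  calc ‖X y 3 1 m‖ ≤ (1 / (|(m : ℝ)| * y)) ^ 2 * ∑' n : ℤ, ‖iv y (m, n)‖ ^ 2 := h1.trans h2
    _ ≤ (1 / (|(m : ℝ)| * y)) ^ 2 * (4 / (|(m : ℝ)| * y)) :=
        mul_le_mul_of_nonneg_left h4 (by positivity)
    _ = 4 / (|(m : ℝ)| * y) ^ 3 := by
        field_simp

private theorem ps_zero : ps 0 = 0 := by
  unfold ps sg
  simp

theorem W31_lim : Tendsto (fun y : ℝ => (y : ℂ) ^ 3 * W y 3 1) atTop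
    (𝓝 ((-(7 * Real.pi / 12 * RV15W.z3) : ℝ) : ℂ)) := by
  have hlim : ((-(7 * Real.pi / 12 * RV15W.z3) : ℝ) : ℂ)
      = ∑' m : ℤ, (ps m : ℂ) * ((-(Real.pi / 4) / |(m : ℝ)| ^ 3 : ℝ) : ℂ) := by
    have h := ps_sum.mul_left (-(Real.pi / 4))
    have h2 : HasSum (fun m : ℤ => ps m * (-(Real.pi / 4) / |(m : ℝ)| ^ 3))
        (-(7 * Real.pi / 12 * RV15W.z3)) := by
      have he : (fun m : ℤ => ps m * (-(Real.pi / 4) / |(m : ℝ)| ^ 3))
          = fun m : ℤ => -(Real.pi / 4) * (ps m / |(m : ℝ)| ^ 3) := by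
        funext m
        ring
      have hv : -(7 * Real.pi / 12 * RV15W.z3) = -(Real.pi / 4) * (7 / 3 * RV15W.z3) := by
        ring
      rw [he, hv]
      exact h
    rw [← h2.tsum_eq, Complex.ofReal_tsum]
    refine tsum_congr fun m => ?_
    push_cast
    rfl
  have hW : (fun y : ℝ => (y : ℂ) ^ 3 * W y 3 1)
      = fun y : ℝ => ∑' m : ℤ, (ps m : ℂ) * ((y : ℂ) ^ 3 * X y 3 1 m) := by
    funext y
    unfold W
    rw [← tsum_mul_left]
    refine tsum_congr fun m => ?_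
    ring
  rw [hlim, hW]
  have hsum : Summable fun m : ℤ => 64 * |1 / (m : ℝ) ^ 3| :=
    ((Real.summable_one_div_int_pow (p := 3)).mpr (by norm_num)).abs.mul_left 64
  refine tendsto_tsum_of_dominated_convergence hsum ?_ ?_
  · intro m
    rcases eq_or_ne m 0 with h | h
    · subst h
      simp [ps_zero]
    · exact (X31_lim h).const_mul _
  · filter_upwards [eventually_ge_atTop 1] with y hy m
    rcases eq_or_ne m 0 with h | h
    · subst h
      simp [ps_zero]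
    · have hy0 : 0 < y := zero_lt_one.trans_le hy
      have hm1 : 0 < |(m : ℝ)| := by
        rw [abs_pos]
        exact_mod_cast h
      rw [norm_mul, norm_mul, norm_pow, Complex.norm_real, Complex.norm_real,
        Real.norm_of_nonneg hy0.le, Real.norm_eq_abs]
      have h1 := X31_le hy h
      have h2 := ps_abs m
      calc |ps m| * (y ^ 3 * ‖X y 3 1 m‖) ≤ 16 * (y ^ 3 * (4 / (|(m : ℝ)| * y) ^ 3)) := by
            apply mul_le_mul h2 _ (by positivity) (by norm_num)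
            exact mul_le_mul_of_nonneg_left h1 (by positivity)
        _ = 64 * |1 / (m : ℝ) ^ 3| := by
            rw [abs_div, abs_one, abs_pow]
            field_simp
            norm_num

end RVP
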