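import Mathlib
import Pool.Agent.RVP.Defs
import Pool.Agent.RVP.Bas
import Pool.Agent.RVP.Wt
import Pool.Agent.RVP.Sh
import Pool.Agent.RVP.Ker
import Pool.Agent.RVP.RowA
import Pool.Agent.RVP.RowB
import Pool.Agent.RVP.LimW

/-!
# RVP/LimB: the blocks `m_p = 0`

`B0(j) = Σ_{a ≠ 0} a⁻³ Σ_n P⁻² q̄⁻¹`, `q = j u + n`, `P = q + a`, `d = P - q̄ = a + 2ijy ≠ 0` (`j ≠ 0`).
`1/(P²q̄) = (1/d)(1/(Pq̄) - 1/P²)`, `1/(Pq̄) = (1/d)(1/q̄ - 1/P)`, and `Σ_n (1/q̄ - 1/P) = Σ_n (1/q̄ - 1/q) = 2ijy X11(j)` by `tsum_shift`.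
So `B0(j) = Σ_{a ≠ 0} a⁻³ (2ijy X11(j)/(a+2ijy)² - X20(j)/(a+2ijy))`, and pairing `a, -a`:
`Σ_{a≠0} a⁻³ 2ijy/(a+2ijy)² = 16 j²y² Σ_{a ≥ 1} a⁻²/(a²+4j²y²)²`.
-/

set_option autoImplicit false

open Filter Topology

namespace RVP

variable {y : ℝ}



private lemma iv0 (y : ℝ) (a : ℤ) : iv y (0, a) = (a : ℂ)⁻¹ := by
  unfold iv pt
  congr 1
  apply Complex.ext <;> simp

private lemma ic0 (y : ℝ) (a : ℤ) : ic y (0, a) = (a : ℂ)⁻¹ := by
  rw [← conj_iv, iv0, map_inv₀]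
  congr 1
  simp

private lemma pt_im (y : ℝ) (j n : ℤ) : (pt y (j, n)).im = j * y := rfl

private lemma pt_ne (hy : 0 < y) {j : ℤ} (hj : j ≠ 0) (n : ℤ) : pt y (j, n) ≠ 0 := by
  intro h
  have h1 := congrArg Complex.im h
  rw [pt_im] at h1
  have hj0 : (j : ℝ) ≠ 0 := by exact_mod_cast hj
  exact (mul_ne_zero hj0 hy.ne') (by simpa using h1)

private noncomputable def dd (y : ℝ) (j a : ℤ) : ℂ := (a : ℂ) + 2 * Complex.I * j * y

private lemma dd_ne (hy : 0 < y) {j : ℤ} (hj : j ≠ 0) (a : ℤ) : dd y j a ≠ 0 := by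
  intro h
  have h1 := congrArg Complex.im h
  have h2 : (dd y j a).im = 2 * j * y := by simp [dd]
  rw [h2] at h1
  have hj0 : (j : ℝ) ≠ 0 := by exact_mod_cast hj
  have h3 : (2 * (j : ℝ) * y) ≠ 0 := by positivity
  exact h3 (by simpa using h1)

private lemma pt_sub (y : ℝ) (j a n : ℤ) :
    pt y (j, n + a) - (starRingEnd ℂ) (pt y (j, n)) = dd y j a := by
  unfold pt dd
  apply Complex.ext
  · simp
  · simp
    ring

private lemma dec1 (hy : 0 < y) {j : ℤ} (hj : j ≠ 0) (a n : ℤ) :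
    iv y (j, n + a) * ic y (j, n) = (dd y j a)⁻¹ * (ic y (j, n) - iv y (j, n + a)) := by
  have h1 := pt_ne hy hj (n + a)
  have h2 : (starRingEnd ℂ) (pt y (j, n)) ≠ 0 := by
    simpa using pt_ne hy hj n
  have h3 := dd_ne hy hj a
  unfold iv ic
  field_simp
  rw [← pt_sub y j a n]

private lemma iv_tendsto (hy : 0 < y) (j : ℤ) :
    Tendsto (fun n : ℤ => iv y (j, n)) cofinite (𝓝 0) := by
  have h1 := (summable_row2 hy j).tendsto_cofinite_zero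
  rw [tendsto_zero_iff_norm_tendsto_zero]
  have h2 := h1.sqrt
  rw [Real.sqrt_zero] at h2
  refine h2.congr fun n => ?_
  rw [Real.sqrt_sq (norm_nonneg _)]

private lemma rowA (hy : 0 < y) {j : ℤ} (hj : j ≠ 0) :
    HasSum (fun n : ℤ => iv y (j, n) * ic y (j, n)) (X y 1 1 j) := by
  have h := (row_summable (a := 1) (b := 1) hy (by norm_num) j).hasSum
  simpa [X] using h

private lemma diff1 (hy : 0 < y) {j : ℤ} (hj : j ≠ 0) :
    HasSum (fun n : ℤ => ic y (j, n) - iv y (j, n)) (2 * Complex.I * j * y * X y 1 1 j) := by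
  have h := (rowA hy hj).mul_left (dd y j 0)
  have h3 := dd_ne hy hj 0
  have h4 : dd y j 0 = 2 * Complex.I * j * y := by simp [dd]
  rw [h4] at h
  refine h.congr_fun ?_
  intro n
  have h5 := dec1 hy hj 0 n
  rw [add_zero] at h5
  rw [h5, h4, ← mul_assoc, mul_inv_cancel₀ (h4 ▸ h3), one_mul]

private lemma cross_summable (hy : 0 < y) (j a : ℤ) :
    Summable fun n : ℤ => iv y (j, n + a) * ic y (j, n) := by
  have h1 : Summable fun n : ℤ => ‖iv y (j, n + a)‖ ^ 2 := by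
    have := (Equiv.addRight a).summable_iff.mpr (summable_row2 hy j)
    exact this
  have h2 := summable_row2 hy j
  refine Summable.of_norm_bounded ((h1.add h2)) fun n => ?_
  rw [norm_mul, norm_ic]
  nlinarith [sq_nonneg (‖iv y (j, n + a)‖ - ‖iv y (j, n)‖), norm_nonneg (iv y (j, n + a)),
    norm_nonneg (iv y (j, n)), sq_nonneg ‖iv y (j, n + a)‖, sq_nonneg ‖iv y (j, n)‖]

private lemma shift0 (hy : 0 < y) {j : ℤ} (hj : j ≠ 0) (a : ℤ) :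
    HasSum (fun n : ℤ => iv y (j, n + a) - iv y (j, n)) 0 := by
  have hs : Summable fun n : ℤ => iv y (j, n + a) - iv y (j, n) := by
    have h1 := (diff1 hy hj).summable.sub ((cross_summable hy j a).mul_left (dd y j a))
    refine h1.congr fun n => ?_
    rw [dec1 hy hj a n, ← mul_assoc, mul_inv_cancel₀ (dd_ne hy hj a), one_mul]
    ring
  have h2 := tsum_shift (g := fun n => iv y (j, n)) (iv_tendsto hy j) a hs
  have h3 := hs.hasSum
  rwa [h2] at h3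

private lemma cross (hy : 0 < y) {j : ℤ} (hj : j ≠ 0) (a : ℤ) :
    HasSum (fun n : ℤ => iv y (j, n + a) * ic y (j, n))
      ((dd y j a)⁻¹ * (2 * Complex.I * j * y * X y 1 1 j)) := by
  have h := ((diff1 hy hj).sub (shift0 hy hj a)).mul_left (dd y j a)⁻¹
  rw [sub_zero] at h
  refine h.congr_fun ?_
  intro n
  rw [dec1 hy hj a n]
  ring

private lemma sq_shift (hy : 0 < y) (j a : ℤ) :
    HasSum (fun n : ℤ => iv y (j, n + a) ^ 2) (X y 2 0 j) := by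
  have h := (row_summable (a := 2) (b := 0) hy (by norm_num) j).hasSum
  have h2 : HasSum (fun n : ℤ => iv y (j, n) ^ 2) (X y 2 0 j) := by
    simpa [X] using h
  exact (Equiv.addRight a).hasSum_iff.mpr h2

private lemma inner (hy : 0 < y) {j : ℤ} (hj : j ≠ 0) (a : ℤ) :
    HasSum (fun n : ℤ => iv y (j, n + a) ^ 2 * ic y (j, n))
      ((dd y j a)⁻¹ * ((dd y j a)⁻¹ * (2 * Complex.I * j * y * X y 1 1 j) - X y 2 0 j)) := by
  have h := ((cross hy hj a).sub (sq_shift hy j a)).mul_left (dd y j a)⁻¹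
  refine h.congr_fun ?_
  intro n
  have h1 := dec1 hy hj a n
  have h2 : ic y (j, n) = dd y j a * (iv y (j, n + a) * ic y (j, n)) + iv y (j, n + a) := by
    rw [h1, ← mul_assoc, mul_inv_cancel₀ (dd_ne hy hj a), one_mul]
    ring
  have h3 := dd_ne hy hj a
  have h4 : iv y (j, n + a) ^ 2 * ic y (j, n) =
      (dd y j a)⁻¹ * (iv y (j, n + a) * ic y (j, n) - iv y (j, n + a) ^ 2) := by
    field_simp
    linear_combination (-(iv y (j, n + a))) * h2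
  exact h4

private lemma KKblock_summable (hy : 0 < y) (j : ℤ) :
    Summable fun z : ℤ × ℤ => KK y ((0, z.1), (j, z.2)) := by
  have h : Summable fun x : (ℤ × ℤ) × (ℤ × ℤ) => KK y x := by
    refine Summable.of_norm ?_
    refine (ker_summable hy (a := 3) (b := 1) (c := 2) (by norm_num) (by norm_num) (by norm_num)
      (by norm_num)).congr fun x => ?_
    rw [norm_KK]
  exact block_summable h (0, j)

private lemma a3_summable {c : ℤ → ℂ} {C : ℝ} (hc : ∀ a, ‖c a‖ ≤ C) :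
    Summable fun a : ℤ => (a : ℂ)⁻¹ ^ 3 * c a := by
  have h := (Real.summable_one_div_int_pow (p := 3)).mpr (by norm_num)
  have h2 := h.norm.mul_right C
  refine Summable.of_norm_bounded h2 fun a => ?_
  rw [norm_mul, norm_pow, norm_inv]
  have h1 : ‖(a : ℂ)‖ = |(a : ℝ)| := by
    rw [show (a : ℂ) = ((a : ℝ) : ℂ) by push_cast; rfl, Complex.norm_real, Real.norm_eq_abs]
  rw [h1, Real.norm_eq_abs, abs_div, abs_one, abs_pow, one_div, inv_pow]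
  exact mul_le_mul_of_nonneg_left (hc a) (by positivity)

private lemma dd_inv_le (hy : 0 < y) {j : ℤ} (hj : j ≠ 0) (a : ℤ) :
    ‖(dd y j a)⁻¹‖ ≤ 1 / (2 * y) := by
  rw [norm_inv, ← one_div]
  refine one_div_le_one_div_of_le (by positivity) ?_
  have h4 := Complex.abs_im_le_norm (dd y j a)
  have h5 : (dd y j a).im = 2 * j * y := by simp [dd]
  rw [h5, abs_mul, abs_mul] at h4
  have h6 : (1 : ℝ) ≤ |(j : ℝ)| := by exact_mod_cast Int.one_le_abs hj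
  have h7 : |(2 : ℝ)| = 2 := abs_two
  rw [h7, abs_of_pos hy] at h4
  nlinarith

private lemma fold {f : ℤ → ℂ} (hf : Summable f) (h0 : f 0 = 0) :
    ∑' a : ℤ, f a = ∑' n : ℕ, (f (n + 1) + f (-((n : ℤ) + 1))) := by
  have h1 : Summable fun n : ℕ => f n := hf.comp_injective Nat.cast_injective
  have h2 : Summable fun n : ℕ => f (-((n : ℤ) + 1)) :=
    hf.comp_injective fun a b h => by
      have : ((a : ℤ)) = b := by linarith
      exact_mod_cast this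
  have h1' : Summable fun n : ℕ => f ((n : ℤ) + 1) := by
    have := (summable_nat_add_iff 1).mpr h1
    simpa using this
  rw [tsum_of_nat_of_neg_add_one h1 h2, h1.tsum_eq_zero_add, h1'.tsum_add h2]
  simp [h0]

theorem B0_eq (hy : 0 < y) {j : ℤ} (hj : j ≠ 0) :
    B0 y j = X y 1 1 j * ((16 * (j : ℝ) ^ 2 * y ^ 2 *
        ∑' a : ℕ, 1 / (((a : ℝ) + 1) ^ 2 * (((a : ℝ) + 1) ^ 2 + 4 * (j : ℝ) ^ 2 * y ^ 2) ^ 2) : ℝ) : ℂ)
      - X y 2 0 j * ∑' a : ℤ, (a : ℂ)⁻¹ ^ 3 * ((a : ℂ) + 2 * Complex.I * j * y)⁻¹ := by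
  unfold B0
  rw [(KKblock_summable hy j).tsum_prod]
  have h1 : ∀ a : ℤ, ∑' n : ℤ, KK y ((0, a), (j, n)) =
      X y 1 1 j * ((a : ℂ)⁻¹ ^ 3 * (2 * Complex.I * j * y * ((dd y j a)⁻¹ * (dd y j a)⁻¹)))
        - X y 2 0 j * ((a : ℂ)⁻¹ ^ 3 * (dd y j a)⁻¹) := by
    intro a
    have h2 := ((inner hy hj a).mul_left ((a : ℂ)⁻¹ ^ 3)).tsum_eq
    have h3 : ∀ n : ℤ, KK y ((0, a), (j, n)) =
        (a : ℂ)⁻¹ ^ 3 * (iv y (j, n + a) ^ 2 * ic y (j, n)) := by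
      intro n
      simp only [KK, iv0, ic0, Prod.mk_add_mk, zero_add]
      rw [add_comm a n]
      ring
    rw [tsum_congr h3, h2]
    ring
  rw [tsum_congr h1]
  have hs1 : Summable fun a : ℤ =>
      (a : ℂ)⁻¹ ^ 3 * (2 * Complex.I * j * y * ((dd y j a)⁻¹ * (dd y j a)⁻¹)) := by
    refine a3_summable (C := ‖2 * Complex.I * j * (y : ℂ)‖ * (1 / (2 * y) * (1 / (2 * y))))
      fun a => ?_
    rw [norm_mul]
    refine mul_le_mul_of_nonneg_left ?_ (norm_nonneg _)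
    rw [norm_mul]
    exact mul_le_mul (dd_inv_le hy hj a) (dd_inv_le hy hj a) (norm_nonneg _) (by positivity)
  have hs2 : Summable fun a : ℤ => (a : ℂ)⁻¹ ^ 3 * (dd y j a)⁻¹ :=
    a3_summable (dd_inv_le hy hj)
  rw [(hs1.mul_left _).tsum_sub (hs2.mul_left _), tsum_mul_left, tsum_mul_left]
  have h4 : ∑' a : ℤ, (a : ℂ)⁻¹ ^ 3 * (2 * Complex.I * j * y * ((dd y j a)⁻¹ * (dd y j a)⁻¹)) =
      ((16 * (j : ℝ) ^ 2 * y ^ 2 *
        ∑' a : ℕ, 1 / (((a : ℝ) + 1) ^ 2 * (((a : ℝ) + 1) ^ 2 + 4 * (j : ℝ) ^ 2 * y ^ 2) ^ 2) : ℝ) : ℂ) := by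
    rw [fold hs1 (by simp), ← tsum_mul_left, Complex.ofReal_tsum]
    refine tsum_congr fun n => ?_
    have ha : ((n : ℂ) + 1) ≠ 0 := by exact_mod_cast n.succ_ne_zero
    have h5 := dd_ne hy hj ((n : ℤ) + 1)
    have h6 := dd_ne hy hj (-((n : ℤ) + 1))
    have h7 : (((n : ℂ) + 1) ^ 2 + 4 * (j : ℂ) ^ 2 * (y : ℂ) ^ 2) ≠ 0 := by
      have hj0 : (j : ℝ) ≠ 0 := by exact_mod_cast hj
      have : (((n : ℝ) + 1) ^ 2 + 4 * (j : ℝ) ^ 2 * y ^ 2) ≠ 0 := by positivity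
      exact_mod_cast this
    have h8 : dd y j ((n : ℤ) + 1) * dd y j (-((n : ℤ) + 1)) =
        -(((n : ℂ) + 1) ^ 2 + 4 * (j : ℂ) ^ 2 * (y : ℂ) ^ 2) := by
      unfold dd
      push_cast
      linear_combination (4 * (j : ℂ) ^ 2 * (y : ℂ) ^ 2) * Complex.I_sq
    have h9 : dd y j ((n : ℤ) + 1) = ((n : ℂ) + 1) + 2 * Complex.I * j * y := by
      unfold dd
      push_cast
      ring
    have h10 : dd y j (-((n : ℤ) + 1)) = -((n : ℂ) + 1) + 2 * Complex.I * j * y := by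
      unfold dd
      push_cast
      ring
    have h11 : (((n : ℤ) + 1 : ℤ) : ℂ)⁻¹ ^ 3 * (2 * Complex.I * j * y *
          ((dd y j ((n : ℤ) + 1))⁻¹ * (dd y j ((n : ℤ) + 1))⁻¹)) +
        ((-((n : ℤ) + 1) : ℤ) : ℂ)⁻¹ ^ 3 * (2 * Complex.I * j * y *
          ((dd y j (-((n : ℤ) + 1)))⁻¹ * (dd y j (-((n : ℤ) + 1)))⁻¹)) =
        ((n : ℂ) + 1)⁻¹ ^ 3 * (2 * Complex.I * j * y) *
          (dd y j (-((n : ℤ) + 1)) ^ 2 - dd y j ((n : ℤ) + 1) ^ 2) /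
            (dd y j ((n : ℤ) + 1) * dd y j (-((n : ℤ) + 1))) ^ 2 := by
      push_cast
      have h12 : (-((n : ℂ) + 1))⁻¹ ^ 3 = -((n : ℂ) + 1)⁻¹ ^ 3 := by
        rw [inv_neg]; ring
      rw [show -((n : ℂ) + 1) = -((n : ℂ) + 1) from rfl] at *
      rw [h12]
      field_simp
      ring
    push_cast at h11 ⊢
    rw [h11, h8, h9, h10]
    field_simp
    ring_nf
    simp only [Complex.I_sq]
    ring
  rw [h4]
  rfl

/-- `Σ_{a ∈ ℤ} |a|⁻³` -/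
private noncomputable def ZZ : ℝ := ∑' a : ℤ, |(a : ℝ)|⁻¹ ^ 3

private noncomputable def S1 (y : ℝ) (j : ℤ) : ℝ := 16 * (j : ℝ) ^ 2 * y ^ 2 *
        ∑' a : ℕ, 1 / (((a : ℝ) + 1) ^ 2 * (((a : ℝ) + 1) ^ 2 + 4 * (j : ℝ) ^ 2 * y ^ 2) ^ 2)

private noncomputable def S2 (y : ℝ) (j : ℤ) : ℂ :=
  ∑' a : ℤ, (a : ℂ)⁻¹ ^ 3 * ((a : ℂ) + 2 * Complex.I * j * y)⁻¹

private lemma ZZ_summable : Summable fun a : ℤ => |(a : ℝ)|⁻¹ ^ 3 := by
  have h := (Real.summable_one_div_int_pow (p := 3)).mpr (by norm_num)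
  have h2 := h.norm
  refine h2.congr fun a => ?_
  simp [abs_pow]

private lemma ZZ_nonneg : 0 ≤ ZZ := tsum_nonneg fun a => by positivity

private lemma zeta2 : HasSum (fun a : ℕ => 1 / ((a : ℝ) + 1) ^ 2) (Real.pi ^ 2 / 6) := by
  have h := hasSum_zeta_two
  have h2 := (hasSum_nat_add_iff' 1).mpr h
  simpa using h2

private lemma term_le {y : ℝ} {j : ℤ} (hy : 1 ≤ y) (hj : j ≠ 0) (a : ℕ) :
    1 / (((a : ℝ) + 1) ^ 2 * (((a : ℝ) + 1) ^ 2 + 4 * (j : ℝ) ^ 2 * y ^ 2) ^ 2) ≤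
      1 / (4 * (j : ℝ) ^ 2 * y ^ 2) ^ 2 * (1 / ((a : ℝ) + 1) ^ 2) := by
  have hj2 : 0 < (j : ℝ) ^ 2 := by
    have : (j : ℝ) ≠ 0 := by exact_mod_cast hj
    positivity
  have hy0 : 0 < y := by linarith
  rw [← one_div_mul_one_div, mul_comm]
  refine mul_le_mul_of_nonneg_right ?_ (by positivity)
  refine one_div_le_one_div_of_le (by positivity) ?_
  refine pow_le_pow_left₀ (by positivity) ?_ 2
  nlinarith [sq_nonneg ((a : ℝ) + 1)]

private lemma term_summable {y : ℝ} {j : ℤ} (hy : 1 ≤ y) (hj : j ≠ 0) :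
    Summable fun a : ℕ =>
      1 / (((a : ℝ) + 1) ^ 2 * (((a : ℝ) + 1) ^ 2 + 4 * (j : ℝ) ^ 2 * y ^ 2) ^ 2) :=
  Summable.of_nonneg_of_le (fun a => by positivity) (term_le hy hj)
    (zeta2.summable.mul_left _)

private lemma S1_le {y : ℝ} {j : ℤ} (hy : 1 ≤ y) (hj : j ≠ 0) :
    |S1 y j| ≤ 2 / (|(j : ℝ)| ^ 2 * y ^ 2) := by
  have hj0 : (j : ℝ) ≠ 0 := by exact_mod_cast hj
  have hj2 : 0 < (j : ℝ) ^ 2 := by positivity
  have hy0 : 0 < y := by linarith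
  have h1 : ∑' a : ℕ, 1 / (((a : ℝ) + 1) ^ 2 * (((a : ℝ) + 1) ^ 2 + 4 * (j : ℝ) ^ 2 * y ^ 2) ^ 2) ≤
      1 / (4 * (j : ℝ) ^ 2 * y ^ 2) ^ 2 * (Real.pi ^ 2 / 6) := by
    rw [← (zeta2.mul_left _).tsum_eq]
    exact (term_summable hy hj).tsum_le_tsum (term_le hy hj) (zeta2.summable.mul_left _)
  have h0 : 0 ≤ S1 y j := by
    unfold S1
    exact mul_nonneg (by positivity) (tsum_nonneg fun a => by positivity)
  rw [abs_of_nonneg h0]
  unfold S1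
  calc 16 * (j : ℝ) ^ 2 * y ^ 2 *
        ∑' a : ℕ, 1 / (((a : ℝ) + 1) ^ 2 * (((a : ℝ) + 1) ^ 2 + 4 * (j : ℝ) ^ 2 * y ^ 2) ^ 2)
      ≤ 16 * (j : ℝ) ^ 2 * y ^ 2 * (1 / (4 * (j : ℝ) ^ 2 * y ^ 2) ^ 2 * (Real.pi ^ 2 / 6)) :=
        mul_le_mul_of_nonneg_left h1 (by positivity)
    _ = (Real.pi ^ 2 / 6) / ((j : ℝ) ^ 2 * y ^ 2) := by field_simp; norm_num
    _ ≤ 2 / (|(j : ℝ)| ^ 2 * y ^ 2) := by
        rw [sq_abs]
        refine div_le_div_of_nonneg_right ?_ (by positivity)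
        have := Real.pi_lt_d2
        nlinarith [Real.pi_pos]

private lemma S2_le {y : ℝ} {j : ℤ} (hy : 1 ≤ y) (hj : j ≠ 0) : ‖S2 y j‖ ≤ ZZ := by
  unfold S2 ZZ
  refine tsum_of_norm_bounded ZZ_summable.hasSum fun a => ?_
  rw [norm_mul, norm_pow, norm_inv, norm_inv]
  have h1 : ‖(a : ℂ)‖ = |(a : ℝ)| := by
    rw [show (a : ℂ) = ((a : ℝ) : ℂ) by push_cast; rfl, Complex.norm_real, Real.norm_eq_abs]
  rw [h1]
  have h2 : ‖((a : ℂ) + 2 * Complex.I * j * y)‖⁻¹ ≤ 1 := by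
    have h3 : (1 : ℝ) ≤ ‖((a : ℂ) + 2 * Complex.I * j * y)‖ := by
      have h4 := Complex.abs_im_le_norm ((a : ℂ) + 2 * Complex.I * j * y)
      have h5 : ((a : ℂ) + 2 * Complex.I * j * y).im = 2 * j * y := by
        simp
      rw [h5, abs_mul, abs_mul] at h4
      have h6 : (1 : ℝ) ≤ |(j : ℝ)| := by exact_mod_cast Int.one_le_abs hj
      have h7 : |(2 : ℝ)| = 2 := abs_two
      rw [h7, abs_of_pos (by linarith : (0 : ℝ) < y)] at h4
      nlinarith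
    exact inv_le_one_of_one_le₀ h3
  exact mul_le_of_le_one_right (by positivity) h2

private lemma exp_bd {x : ℝ} (hx : 0 < x) : Real.exp (-x) ≤ 6 / x ^ 3 := by
  have h1 : x ^ 3 / 6 ≤ Real.exp x := by
    have := Real.pow_div_factorial_le_exp x hx.le 3
    simpa [Nat.factorial] using this
  rw [Real.exp_neg, ← one_div, div_le_div_iff₀ (Real.exp_pos _) (by positivity)]
  linarith

private lemma eq' {y : ℝ} {j : ℤ} (hy : 0 < y) (hj : j ≠ 0) :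
    B0 y j = X y 1 1 j * (S1 y j : ℂ) - X y 2 0 j * S2 y j := B0_eq hy hj

theorem B0_le : ∃ C : ℝ, ∀ (y : ℝ) (j : ℤ), 1 ≤ y → j ≠ 0 →
    ‖(y : ℂ) ^ 3 * B0 y j‖ ≤ C / |(j : ℝ)| ^ 3 := by
  refine ⟨8 + 40 * ZZ, fun y j hy hj => ?_⟩
  have hy0 : 0 < y := by linarith
  have hj1 : (1 : ℝ) ≤ |(j : ℝ)| := by exact_mod_cast Int.one_le_abs hj
  have hj0 : 0 < |(j : ℝ)| := by linarith
  rw [eq' hy0 hj]
  have h1 : ‖(y : ℂ) ^ 3 * (X y 1 1 j * (S1 y j : ℂ))‖ ≤ 8 / |(j : ℝ)| ^ 3 := by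
    rw [norm_mul, norm_mul, norm_pow, Complex.norm_real, Complex.norm_real, Real.norm_eq_abs,
      Real.norm_eq_abs, abs_of_pos hy0]
    calc y ^ 3 * (‖X y 1 1 j‖ * |S1 y j|)
        ≤ y ^ 3 * (4 / (|(j : ℝ)| * y) * (2 / (|(j : ℝ)| ^ 2 * y ^ 2))) := by
          refine mul_le_mul_of_nonneg_left ?_ (by positivity)
          exact mul_le_mul (X11_le hy hj) (S1_le hy hj) (abs_nonneg _) (by positivity)
      _ = 8 / |(j : ℝ)| ^ 3 := by field_simp; norm_num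
  have h2 : ‖(y : ℂ) ^ 3 * (X y 2 0 j * S2 y j)‖ ≤ 40 * ZZ / |(j : ℝ)| ^ 3 := by
    rw [norm_mul, norm_mul, norm_pow, Complex.norm_real, Real.norm_eq_abs, abs_of_pos hy0]
    have h3 : Real.exp (-(2 * Real.pi * (|(j : ℝ)| * y))) ≤ 1 / (|(j : ℝ)| * y) ^ 3 := by
      refine (exp_bd (by positivity)).trans ?_
      rw [div_le_div_iff₀ (by positivity) (by positivity), mul_pow]
      have h4 : (6 : ℝ) ≤ (2 * Real.pi) ^ 3 := by
        have := Real.pi_gt_three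
        have h5 : (6 : ℝ) ≤ 2 * Real.pi := by linarith
        calc (6 : ℝ) ≤ 6 ^ 3 := by norm_num
          _ ≤ (2 * Real.pi) ^ 3 := pow_le_pow_left₀ (by norm_num) h5 3
      have h6 : 0 ≤ (|(j : ℝ)| * y) ^ 3 := by positivity
      nlinarith
    calc y ^ 3 * (‖X y 2 0 j‖ * ‖S2 y j‖)
        ≤ y ^ 3 * ((40 * (1 / (|(j : ℝ)| * y) ^ 3)) * ZZ) := by
          refine mul_le_mul_of_nonneg_left ?_ (by positivity)
          refine mul_le_mul ?_ (S2_le hy hj) (norm_nonneg _) (by positivity)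
          exact (X20_le hy hj).trans (mul_le_mul_of_nonneg_left h3 (by norm_num))
      _ = 40 * ZZ / |(j : ℝ)| ^ 3 := by field_simp
  calc ‖(y : ℂ) ^ 3 * (X y 1 1 j * (S1 y j : ℂ) - X y 2 0 j * S2 y j)‖
      = ‖(y : ℂ) ^ 3 * (X y 1 1 j * (S1 y j : ℂ)) - (y : ℂ) ^ 3 * (X y 2 0 j * S2 y j)‖ := by
        rw [mul_sub]
    _ ≤ 8 / |(j : ℝ)| ^ 3 + 40 * ZZ / |(j : ℝ)| ^ 3 := (norm_sub_le _ _).trans (add_le_add h1 h2)
    _ = (8 + 40 * ZZ) / |(j : ℝ)| ^ 3 := by ring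

private lemma S1_lim {j : ℤ} (hj : j ≠ 0) :
    Tendsto (fun y : ℝ => y ^ 2 * S1 y j) atTop (𝓝 (Real.pi ^ 2 / 6 / (j : ℝ) ^ 2)) := by
  have hj0 : (j : ℝ) ≠ 0 := by exact_mod_cast hj
  have hj2 : 0 < (j : ℝ) ^ 2 := by positivity
  have h1 : Tendsto (fun y : ℝ => ∑' a : ℕ, 1 / ((a : ℝ) + 1) ^ 2 *
      (16 * (j : ℝ) ^ 2 * y ^ 4 / (((a : ℝ) + 1) ^ 2 + 4 * (j : ℝ) ^ 2 * y ^ 2) ^ 2)) atTop
      (𝓝 (∑' a : ℕ, 1 / ((a : ℝ) + 1) ^ 2 * (1 / (j : ℝ) ^ 2))) := by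
    refine tendsto_tsum_of_dominated_convergence
      (bound := fun a : ℕ => 1 / ((a : ℝ) + 1) ^ 2 * (1 / (j : ℝ) ^ 2))
      (zeta2.summable.mul_right _) ?_ ?_
    · intro a
      refine Tendsto.const_mul _ ?_
      have h2 : Tendsto (fun y : ℝ => 16 * (j : ℝ) ^ 2 /
          (((a : ℝ) + 1) ^ 2 * (y ^ 2)⁻¹ + 4 * (j : ℝ) ^ 2) ^ 2) atTop
          (𝓝 (16 * (j : ℝ) ^ 2 / (((a : ℝ) + 1) ^ 2 * 0 + 4 * (j : ℝ) ^ 2) ^ 2)) := by
        have h3 : Tendsto (fun y : ℝ => (y ^ 2)⁻¹) atTop (𝓝 0) :=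
          (tendsto_pow_atTop (by norm_num : (2 : ℕ) ≠ 0)).inv_tendsto_atTop
        refine Tendsto.div tendsto_const_nhds ?_ (by positivity)
        exact ((h3.const_mul _).add_const _).pow 2
      have h4 : 16 * (j : ℝ) ^ 2 / (((a : ℝ) + 1) ^ 2 * 0 + 4 * (j : ℝ) ^ 2) ^ 2 =
          1 / (j : ℝ) ^ 2 := by
        rw [mul_zero, zero_add]
        field_simp
        norm_num
      rw [h4] at h2
      refine h2.congr' ?_
      filter_upwards [eventually_gt_atTop 0] with y hy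
      have hy2 : y ^ 2 ≠ 0 := by positivity
      have h5 : ((a : ℝ) + 1) ^ 2 * (y ^ 2)⁻¹ + 4 * (j : ℝ) ^ 2 =
          (((a : ℝ) + 1) ^ 2 + 4 * (j : ℝ) ^ 2 * y ^ 2) / y ^ 2 := by
        field_simp
      rw [h5]
      have h6 : (((a : ℝ) + 1) ^ 2 + 4 * (j : ℝ) ^ 2 * y ^ 2) ≠ 0 := by positivity
      field_simp
    · filter_upwards [eventually_ge_atTop 1] with y hy a
      have hy0 : 0 < y := by linarith
      rw [Real.norm_of_nonneg (by positivity)]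
      refine mul_le_mul_of_nonneg_left ?_ (by positivity)
      rw [div_le_div_iff₀ (by positivity) hj2, one_mul]
      have h7 : (4 * (j : ℝ) ^ 2 * y ^ 2) ^ 2 ≤
          (((a : ℝ) + 1) ^ 2 + 4 * (j : ℝ) ^ 2 * y ^ 2) ^ 2 := by
        refine pow_le_pow_left₀ (by positivity) ?_ 2
        nlinarith [sq_nonneg ((a : ℝ) + 1)]
      nlinarith
  have h8 : ∑' a : ℕ, 1 / ((a : ℝ) + 1) ^ 2 * (1 / (j : ℝ) ^ 2) = Real.pi ^ 2 / 6 / (j : ℝ) ^ 2 := by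
    rw [tsum_mul_right, zeta2.tsum_eq]
    ring
  rw [h8] at h1
  refine h1.congr' ?_
  filter_upwards [eventually_gt_atTop 0] with y hy
  unfold S1
  rw [← tsum_mul_left, ← tsum_mul_left]
  refine tsum_congr fun a => ?_
  have h6 : (((a : ℝ) + 1) ^ 2 + 4 * (j : ℝ) ^ 2 * y ^ 2) ≠ 0 := by positivity
  field_simp

private lemma exp_lim {j : ℤ} (hj : j ≠ 0) :
    Tendsto (fun y : ℝ => y ^ 3 * (40 * Real.exp (-(2 * Real.pi * (|(j : ℝ)| * y))) * ZZ)) atTop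
      (𝓝 0) := by
  have hj1 : (1 : ℝ) ≤ |(j : ℝ)| := by exact_mod_cast Int.one_le_abs hj
  have h1 := Real.tendsto_pow_mul_exp_neg_atTop_nhds_zero 3
  have h2 := h1.const_mul (40 * ZZ)
  rw [mul_zero] at h2
  refine squeeze_zero' ?_ ?_ h2
  · filter_upwards [eventually_ge_atTop 0] with y hy
    have := ZZ_nonneg
    positivity
  · filter_upwards [eventually_ge_atTop 0] with y hy
    have h3 : Real.exp (-(2 * Real.pi * (|(j : ℝ)| * y))) ≤ Real.exp (-y) := by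
      refine Real.exp_le_exp.mpr (neg_le_neg ?_)
      have h4 : y ≤ |(j : ℝ)| * y := by nlinarith
      have h5 : (1 : ℝ) ≤ 2 * Real.pi := by linarith [Real.pi_gt_three]
      calc y ≤ |(j : ℝ)| * y := h4
        _ ≤ 2 * Real.pi * (|(j : ℝ)| * y) := le_mul_of_one_le_left (by positivity) h5
    have h6 := ZZ_nonneg
    have h7 : 0 ≤ y ^ 3 := by positivity
    calc y ^ 3 * (40 * Real.exp (-(2 * Real.pi * (|(j : ℝ)| * y))) * ZZ)
        ≤ y ^ 3 * (40 * Real.exp (-y) * ZZ) := by gcongr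
      _ = 40 * ZZ * (y ^ 3 * Real.exp (-y)) := by ring

theorem B0_pt {j : ℤ} (hj : j ≠ 0) : Tendsto (fun y : ℝ => (y : ℂ) ^ 3 * B0 y j) atTop
    (𝓝 ((Real.pi ^ 3 / (6 * |(j : ℝ)| ^ 3) : ℝ) : ℂ)) := by
  have hj1 : (1 : ℝ) ≤ |(j : ℝ)| := by exact_mod_cast Int.one_le_abs hj
  have hj0 : 0 < |(j : ℝ)| := by linarith
  have h1 : Tendsto (fun y : ℝ => ((y : ℂ) * X y 1 1 j) * ((y ^ 2 * S1 y j : ℝ) : ℂ)) atTop
      (𝓝 (((Real.pi / |(j : ℝ)| : ℝ) : ℂ) * ((Real.pi ^ 2 / 6 / (j : ℝ) ^ 2 : ℝ) : ℂ))) :=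
    (X11_lim hj).mul ((Complex.continuous_ofReal.tendsto _).comp (S1_lim hj))
  have h2 : Tendsto (fun y : ℝ => (y : ℂ) ^ 3 * (X y 2 0 j * S2 y j)) atTop (𝓝 0) := by
    refine squeeze_zero_norm' ?_ (exp_lim hj)
    filter_upwards [eventually_ge_atTop 1] with y hy
    have hy0 : 0 < y := by linarith
    rw [norm_mul, norm_mul, norm_pow, Complex.norm_real, Real.norm_eq_abs, abs_of_pos hy0]
    refine mul_le_mul_of_nonneg_left ?_ (by positivity)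
    exact mul_le_mul (X20_le hy hj) (S2_le hy hj) (norm_nonneg _) (by positivity)
  have h3 := h1.sub h2
  have h4 : ((Real.pi / |(j : ℝ)| : ℝ) : ℂ) * ((Real.pi ^ 2 / 6 / (j : ℝ) ^ 2 : ℝ) : ℂ) - 0 =
      ((Real.pi ^ 3 / (6 * |(j : ℝ)| ^ 3) : ℝ) : ℂ) := by
    rw [sub_zero, ← Complex.ofReal_mul]
    congr 1
    rw [← sq_abs (j : ℝ)]
    field_simp
  rw [h4] at h3
  refine h3.congr' ?_
  filter_upwards [eventually_gt_atTop 0] with y hy
  rw [eq' hy hj]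
  push_cast
  ring

theorem B0_lim : Tendsto (fun y : ℝ => (y : ℂ) ^ 3 * ∑' j : ℤ, (ps j : ℂ) * B0 y j) atTop
    (𝓝 ((7 * Real.pi ^ 3 / 18 * RV15W.z3 : ℝ) : ℂ)) := by
  obtain ⟨C, hC⟩ := B0_le
  have hp0 : ps 0 = 0 := by simp [ps, sg]
  have h1 : Tendsto (fun y : ℝ => ∑' j : ℤ, (ps j : ℂ) * ((y : ℂ) ^ 3 * B0 y j)) atTop
      (𝓝 (∑' j : ℤ, (ps j : ℂ) * ((Real.pi ^ 3 / (6 * |(j : ℝ)| ^ 3) : ℝ) : ℂ))) := by
    refine tendsto_tsum_of_dominated_convergence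
      (bound := fun j : ℤ => 16 * (|C| * |(j : ℝ)|⁻¹ ^ 3))
      ((ZZ_summable.mul_left _).mul_left _) ?_ ?_
    · intro j
      by_cases hj : j = 0
      · subst hj
        simp [hp0]
      · exact (B0_pt hj).const_mul _
    · filter_upwards [eventually_ge_atTop 1] with y hy j
      by_cases hj : j = 0
      · subst hj
        simp [hp0]
      · rw [norm_mul, Complex.norm_real, Real.norm_eq_abs]
        have hj1 : (1 : ℝ) ≤ |(j : ℝ)| := by exact_mod_cast Int.one_le_abs hj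
        have hj0 : 0 < |(j : ℝ)| := by linarith
        refine mul_le_mul (ps_abs j) ((hC y j hy hj).trans ?_) (norm_nonneg _) (by norm_num)
        rw [inv_pow, div_eq_mul_inv]
        exact mul_le_mul_of_nonneg_right (le_abs_self C) (by positivity)
  have h2 : ∑' j : ℤ, (ps j : ℂ) * ((Real.pi ^ 3 / (6 * |(j : ℝ)| ^ 3) : ℝ) : ℂ) =
      ((7 * Real.pi ^ 3 / 18 * RV15W.z3 : ℝ) : ℂ) := by
    have h3 := ((ps_sum.mul_left (Real.pi ^ 3 / 6)).tsum_eq)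
    rw [show 7 * Real.pi ^ 3 / 18 * RV15W.z3 = Real.pi ^ 3 / 6 * (7 / 3 * RV15W.z3) by ring, ← h3,
      Complex.ofReal_tsum]
    refine tsum_congr fun j => ?_
    push_cast
    ring
  rw [h2] at h1
  refine h1.congr fun y => ?_
  rw [← tsum_mul_left]
  refine tsum_congr fun j => ?_
  ring

end RVP
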