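import Mathlib
import Pool.Agent.RVP.Defs
import Pool.Agent.RVP.Bas
import Pool.Agent.RVP.Wt
import Pool.Agent.RVP.Ker
import Pool.Agent.RVP.RowA

/-!
# RVP/LimR: the blocks with `m_p ≠ 0`, `m_r ≠ 0` are `o(y⁻³)`

Block `(i,j)`, `i ≠ 0`, `i + j ≠ 0`, `y ≥ 1`.
* `j ≠ 0`: `|p|⁻³|q|⁻¹|r|⁻² ≤ (|i|y)⁻¹ (|j|y)⁻¹ |p|⁻² |r|⁻²`; sum over the block `≤ 16 y⁻⁴ / (i² |j| |i+j|) ≤ 8 y⁻⁴ i⁻² (j⁻² + (i+j)⁻²)`.
* `j = 0` (`q = b ≠ 0` an integer, `r = p + b`): `|b| ≤ |p| + |r|` gives `|b| |p|⁻³ |r|⁻² ≤ 2 (|i|y)⁻² |p|⁻²`, also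
  `|p|⁻³|r|⁻² ≤ (|i|y)⁻³ |p|⁻²`; geometric mean: `|p|⁻³|b|⁻¹|r|⁻² ≤ √2 (|i|y)^{-5/2} |b|^{-3/2} |p|⁻²`, sum `≤ C (|i|y)^{-7/2}`.
-/

set_option autoImplicit false

open Filter Topology

namespace RVP

/-- the remaining part of the double sum -/
noncomputable def RR (y : ℝ) : ℂ :=
  ∑' x : (ℤ × ℤ) × (ℤ × ℤ), if x.1.1 = 0 ∨ x.1.1 + x.2.1 = 0 then 0 else (cw x.1.1 x.2.1 : ℂ) * KK y x

/-- the remaining part of the single sum -/
noncomputable def RS (y : ℝ) : ℂ := ∑' v : ℤ × ℤ, if v.1 = 0 then 0 else (sw v.1 : ℂ) * K1 y v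

open scoped ENNReal

/-- `1/m²` as an extended real -/
private noncomputable def uE (m : ℤ) : ℝ≥0∞ := ENNReal.ofReal (1 / (m : ℝ) ^ 2)

private theorem usum : Summable fun m : ℤ => 1 / (m : ℝ) ^ 2 :=
  Real.summable_one_div_int_pow.mpr (by norm_num)

/-- `Σ 1/m²` -/
private noncomputable def zz : ℝ := ∑' m : ℤ, 1 / (m : ℝ) ^ 2

private theorem zz_nonneg : 0 ≤ zz := tsum_nonneg fun m => by positivity

private theorem zE : ∑' m : ℤ, uE m = ENNReal.ofReal zz := by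
  unfold zz uE
  rw [ENNReal.ofReal_tsum_of_nonneg (fun m => by positivity) usum]

/-- row sums -/
private noncomputable def aE (y : ℝ) (i : ℤ) : ℝ≥0∞ :=
  ∑' n : ℤ, ENNReal.ofReal (‖iv y (i, n)‖ ^ 2)

private theorem aE_le {y : ℝ} (hy : 1 ≤ y) {i : ℤ} (hi : i ≠ 0) :
    aE y i ≤ ENNReal.ofReal (4 / (|(i : ℝ)| * y)) := by
  have hy0 : 0 < y := by linarith
  unfold aE
  rw [← ENNReal.ofReal_tsum_of_nonneg (fun n => by positivity) (summable_row2 hy0 i)]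
  exact ENNReal.ofReal_le_ofReal (row2_le hy hi)

private theorem shiftE (y : ℝ) (l n : ℤ) :
    ∑' k : ℤ, ENNReal.ofReal (‖iv y (l, n + k)‖ ^ 2) = aE y l :=
  (Equiv.addLeft n).tsum_eq (fun k : ℤ => ENNReal.ofReal (‖iv y (l, k)‖ ^ 2))

private theorem one_le_abs {i : ℤ} (hi : i ≠ 0) : (1 : ℝ) ≤ |(i : ℝ)| := by
  have h : (1 : ℤ) ≤ |i| := Int.one_le_abs hi
  have : ((1 : ℤ) : ℝ) ≤ ((|i| : ℤ) : ℝ) := by exact_mod_cast h
  simpa using this

private theorem norm_cK (y : ℝ) (i j n k : ℤ) :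
    ‖(cw i j : ℂ) * KK y ((i, n), (j, k))‖ ≤
      20 * (‖iv y (i, n)‖ ^ 3 * ‖iv y (j, k)‖ * ‖iv y (i + j, n + k)‖ ^ 2) := by
  rw [norm_mul, norm_KK, Complex.norm_real, Real.norm_eq_abs, pow_one]
  exact mul_le_mul_of_nonneg_right (cw_abs i j) (by positivity)

private theorem blk1 {y : ℝ} (hy : 1 ≤ y) {i j : ℤ} (hi : i ≠ 0) (hj : j ≠ 0) (hl : i + j ≠ 0) :
    ∑' n : ℤ, ∑' k : ℤ, ‖(cw i j : ℂ) * KK y ((i, n), (j, k))‖ₑ ≤
      ENNReal.ofReal (160 / y ^ 4 *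
        (1 / (i : ℝ) ^ 2 * (1 / (j : ℝ) ^ 2 + 1 / ((i + j : ℤ) : ℝ) ^ 2))) := by
  have hy0 : 0 < y := by linarith
  have hI := one_le_abs hi
  have hJ := one_le_abs hj
  have hL := one_le_abs hl
  have hpt : ∀ n k : ℤ, ‖(cw i j : ℂ) * KK y ((i, n), (j, k))‖ₑ ≤
      ENNReal.ofReal (20 * (1 / (|(i : ℝ)| * y)) * (1 / (|(j : ℝ)| * y))) *
        (ENNReal.ofReal (‖iv y (i, n)‖ ^ 2) * ENNReal.ofReal (‖iv y (i + j, n + k)‖ ^ 2)) := by
    intro n k
    rw [← ofReal_norm, ← ENNReal.ofReal_mul (by positivity),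
      ← ENNReal.ofReal_mul (by positivity)]
    refine ENNReal.ofReal_le_ofReal ((norm_cK y i j n k).trans ?_)
    have h1 := norm_iv_le hy0 hi n
    have h2 := norm_iv_le hy0 hj k
    have h3 : 0 ≤ ‖iv y (i, n)‖ := norm_nonneg _
    have h4 : 0 ≤ ‖iv y (j, k)‖ := norm_nonneg _
    calc 20 * (‖iv y (i, n)‖ ^ 3 * ‖iv y (j, k)‖ * ‖iv y (i + j, n + k)‖ ^ 2)
        = 20 * ‖iv y (i, n)‖ * ‖iv y (j, k)‖ *
            (‖iv y (i, n)‖ ^ 2 * ‖iv y (i + j, n + k)‖ ^ 2) := by ring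
      _ ≤ 20 * (1 / (|(i : ℝ)| * y)) * (1 / (|(j : ℝ)| * y)) *
            (‖iv y (i, n)‖ ^ 2 * ‖iv y (i + j, n + k)‖ ^ 2) := by gcongr
  calc ∑' n : ℤ, ∑' k : ℤ, ‖(cw i j : ℂ) * KK y ((i, n), (j, k))‖ₑ
      ≤ ∑' n : ℤ, ∑' k : ℤ, ENNReal.ofReal (20 * (1 / (|(i : ℝ)| * y)) * (1 / (|(j : ℝ)| * y))) *
        (ENNReal.ofReal (‖iv y (i, n)‖ ^ 2) * ENNReal.ofReal (‖iv y (i + j, n + k)‖ ^ 2)) :=
        ENNReal.tsum_le_tsum fun n => ENNReal.tsum_le_tsum fun k => hpt n k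
    _ = ENNReal.ofReal (20 * (1 / (|(i : ℝ)| * y)) * (1 / (|(j : ℝ)| * y))) *
          (aE y i * aE y (i + j)) := by
        simp_rw [ENNReal.tsum_mul_left, shiftE, ENNReal.tsum_mul_right]
        rfl
    _ ≤ ENNReal.ofReal (20 * (1 / (|(i : ℝ)| * y)) * (1 / (|(j : ℝ)| * y))) *
          (ENNReal.ofReal (4 / (|(i : ℝ)| * y)) *
            ENNReal.ofReal (4 / (|((i + j : ℤ) : ℝ)| * y))) := by
        gcongr
        · exact aE_le hy hi
        · exact aE_le hy hl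
    _ = ENNReal.ofReal (20 * (1 / (|(i : ℝ)| * y)) * (1 / (|(j : ℝ)| * y)) *
          (4 / (|(i : ℝ)| * y) * (4 / (|((i + j : ℤ) : ℝ)| * y)))) := by
        rw [← ENNReal.ofReal_mul (by positivity), ← ENNReal.ofReal_mul (by positivity)]
    _ ≤ _ := by
        refine ENNReal.ofReal_le_ofReal ?_
        rw [← sq_abs (i : ℝ), ← sq_abs (j : ℝ), ← sq_abs ((i + j : ℤ) : ℝ)]
        set I := |(i : ℝ)|
        set J := |(j : ℝ)|
        set L := |((i + j : ℤ) : ℝ)|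
        have hI0 : 0 < I := by linarith
        have hJ0 : 0 < J := by linarith
        have hL0 : 0 < L := by linarith
        have e1 : 20 * (1 / (I * y)) * (1 / (J * y)) * (4 / (I * y) * (4 / (L * y))) =
            160 / y ^ 4 * (1 / I ^ 2 * (2 * (1 / J) * (1 / L))) := by
          field_simp
          ring
        rw [e1]
        have e2 : 2 * (1 / J) * (1 / L) ≤ 1 / J ^ 2 + 1 / L ^ 2 := by
          have := sq_nonneg (1 / J - 1 / L)
          have e3 : (1 / J) ^ 2 = 1 / J ^ 2 := by rw [one_div_pow]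
          have e4 : (1 / L) ^ 2 = 1 / L ^ 2 := by rw [one_div_pow]
          nlinarith
        gcongr

private theorem norm_iv0 (y : ℝ) (k : ℤ) : ‖iv y (0, k)‖ ^ 2 = 1 / (k : ℝ) ^ 2 := by
  have h : pt y (0, k) = ((k : ℝ) : ℂ) := by
    apply Complex.ext <;> simp [pt]
  rw [iv, h, norm_inv, Complex.norm_real, Real.norm_eq_abs, inv_pow, sq_abs, one_div]

private theorem blk0 {y : ℝ} (hy : 1 ≤ y) {i : ℤ} (hi : i ≠ 0) :
    ∑' n : ℤ, ∑' k : ℤ, ‖(cw i 0 : ℂ) * KK y ((i, n), (0, k))‖ₑ ≤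
      ENNReal.ofReal (40 * (zz + 4) * (1 / √y) / y ^ 3 * (1 / (i : ℝ) ^ 2)) := by
  have hy0 : 0 < y := by linarith
  have hsy : 0 < √y := Real.sqrt_pos.mpr hy0
  have hss : √y * √y = y := Real.mul_self_sqrt hy0.le
  have hI := one_le_abs hi
  have hz := zz_nonneg
  have hpt : ∀ n k : ℤ, ‖(cw i 0 : ℂ) * KK y ((i, n), (0, k))‖ₑ ≤
      ENNReal.ofReal (10 * (1 / (|(i : ℝ)| * y)) ^ 2) * (ENNReal.ofReal (‖iv y (i, n)‖ ^ 2) *
        (ENNReal.ofReal (1 / √y) * uE k +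
          ENNReal.ofReal (√y) * ENNReal.ofReal (‖iv y (i, n + k)‖ ^ 2))) := by
    intro n k
    unfold uE
    rw [← ofReal_norm, ← ENNReal.ofReal_mul (by positivity),
      ← ENNReal.ofReal_mul (by positivity), ← ENNReal.ofReal_add (by positivity) (by positivity),
      ← ENNReal.ofReal_mul (by positivity), ← ENNReal.ofReal_mul (by positivity)]
    refine ENNReal.ofReal_le_ofReal ((norm_cK y i 0 n k).trans ?_)
    rw [add_zero, ← norm_iv0 y k]
    have h1 := norm_iv_le hy0 hi n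
    have h2 := norm_iv_le hy0 hi (n + k)
    set a := ‖iv y (i, n)‖
    set b := ‖iv y (0, k)‖
    set c := ‖iv y (i, n + k)‖
    have ha : 0 ≤ a := norm_nonneg _
    have hb : 0 ≤ b := norm_nonneg _
    have hc : 0 ≤ c := norm_nonneg _
    have key : 2 * (b * c) ≤ 1 / √y * b ^ 2 + √y * c ^ 2 := by
      have h := mul_nonneg (show 0 ≤ 1 / √y by positivity) (sq_nonneg (b - √y * c))
      have e : 1 / √y * (b - √y * c) ^ 2 = 1 / √y * b ^ 2 + √y * c ^ 2 - 2 * (b * c) := by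
        field_simp
        ring
      linarith
    calc 20 * (a ^ 3 * b * c ^ 2) = 10 * (a * c) * (a ^ 2 * (2 * (b * c))) := by ring
      _ ≤ 10 * (1 / (|(i : ℝ)| * y) * (1 / (|(i : ℝ)| * y))) *
            (a ^ 2 * (1 / √y * b ^ 2 + √y * c ^ 2)) := by gcongr
      _ = _ := by ring
  calc ∑' n : ℤ, ∑' k : ℤ, ‖(cw i 0 : ℂ) * KK y ((i, n), (0, k))‖ₑ
      ≤ ∑' n : ℤ, ∑' k : ℤ, ENNReal.ofReal (10 * (1 / (|(i : ℝ)| * y)) ^ 2) *
          (ENNReal.ofReal (‖iv y (i, n)‖ ^ 2) * (ENNReal.ofReal (1 / √y) * uE k +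
            ENNReal.ofReal (√y) * ENNReal.ofReal (‖iv y (i, n + k)‖ ^ 2))) :=
        ENNReal.tsum_le_tsum fun n => ENNReal.tsum_le_tsum fun k => hpt n k
    _ = ENNReal.ofReal (10 * (1 / (|(i : ℝ)| * y)) ^ 2) *
          (aE y i * (ENNReal.ofReal (1 / √y) * ENNReal.ofReal zz +
            ENNReal.ofReal (√y) * aE y i)) := by
        simp_rw [ENNReal.tsum_mul_left, ENNReal.tsum_add, ENNReal.tsum_mul_left, shiftE, zE,
          ENNReal.tsum_mul_right]
        rfl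
    _ ≤ ENNReal.ofReal (10 * (1 / (|(i : ℝ)| * y)) ^ 2) *
          (ENNReal.ofReal (4 / (|(i : ℝ)| * y)) * (ENNReal.ofReal (1 / √y) * ENNReal.ofReal zz +
            ENNReal.ofReal (√y) * ENNReal.ofReal (4 / (|(i : ℝ)| * y)))) := by
        gcongr
        · exact aE_le hy hi
        · exact aE_le hy hi
    _ = ENNReal.ofReal (10 * (1 / (|(i : ℝ)| * y)) ^ 2 *
          (4 / (|(i : ℝ)| * y) * (1 / √y * zz + √y * (4 / (|(i : ℝ)| * y))))) := by
        rw [← ENNReal.ofReal_mul (by positivity), ← ENNReal.ofReal_mul (by positivity),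
          ← ENNReal.ofReal_add (by positivity) (by positivity),
          ← ENNReal.ofReal_mul (by positivity), ← ENNReal.ofReal_mul (by positivity)]
    _ ≤ _ := by
        refine ENNReal.ofReal_le_ofReal ?_
        rw [← sq_abs (i : ℝ)]
        set I := |(i : ℝ)|
        have hI0 : 0 < I := by linarith
        have h1 : 4 / (I * y) ≤ 4 / y := by
          gcongr
          nlinarith
        have h2 : √y * (4 / (I * y)) ≤ 1 / √y * 4 := by
          calc √y * (4 / (I * y)) ≤ √y * (4 / y) := by gcongr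
            _ = 1 / √y * 4 := by
              rw [mul_div_assoc', one_div, div_eq_iff hy0.ne', inv_mul_eq_div, div_mul_eq_mul_div,
                eq_div_iff hsy.ne']
              nlinarith [hss]
        calc 10 * (1 / (I * y)) ^ 2 * (4 / (I * y) * (1 / √y * zz + √y * (4 / (I * y))))
            ≤ 10 * (1 / (I * y)) ^ 2 * (4 / y * (1 / √y * zz + 1 / √y * 4)) := by gcongr
          _ = 40 * (zz + 4) * (1 / √y) / y ^ 3 * (1 / I ^ 2) := by
            field_simp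
            ring

/-- the constant -/
private noncomputable def cK : ℝ := 160 + 40 * (zz + 4)

private theorem blk {y : ℝ} (hy : 1 ≤ y) (i j : ℤ) :
    ∑' n : ℤ, ∑' k : ℤ, ‖(if i = 0 ∨ i + j = 0 then 0 else (cw i j : ℂ) * KK y ((i, n), (j, k)))‖ₑ ≤
      ENNReal.ofReal (cK * (1 / √y) / y ^ 3) *
        (uE i * (uE j + uE (i + j) + if j = 0 then 1 else 0)) := by
  have hy0 : 0 < y := by linarith
  have hsy : 0 < √y := Real.sqrt_pos.mpr hy0
  have hss : √y * √y = y := Real.mul_self_sqrt hy0.le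
  have hz := zz_nonneg
  by_cases h : i = 0 ∨ i + j = 0
  · simp [h]
  · push Not at h
    obtain ⟨hi, hl⟩ := h
    have e : ∀ n k : ℤ, (if i = 0 ∨ i + j = 0 then 0 else (cw i j : ℂ) * KK y ((i, n), (j, k))) =
        (cw i j : ℂ) * KK y ((i, n), (j, k)) := fun n k => by simp [hi, hl]
    simp_rw [e]
    have hcK : 0 ≤ cK := by unfold cK; positivity
    by_cases hj : j = 0
    · subst hj
      refine (blk0 hy hi).trans ?_
      rw [if_pos rfl]
      calc ENNReal.ofReal (40 * (zz + 4) * (1 / √y) / y ^ 3 * (1 / (i : ℝ) ^ 2))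
          ≤ ENNReal.ofReal (cK * (1 / √y) / y ^ 3 * (1 / (i : ℝ) ^ 2)) := by
            refine ENNReal.ofReal_le_ofReal ?_
            unfold cK
            gcongr
            linarith
        _ = ENNReal.ofReal (cK * (1 / √y) / y ^ 3) * (uE i * 1) := by
            rw [ENNReal.ofReal_mul (by positivity), mul_one]
            rfl
        _ ≤ _ := by
            gcongr
            exact le_add_self
    · refine (blk1 hy hi hj hl).trans ?_
      rw [if_neg hj, add_zero]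
      have hy4 : 160 / y ^ 4 ≤ cK * (1 / √y) / y ^ 3 := by
        have h1 : 1 / y ≤ 1 / √y := by
          gcongr
          nlinarith [Real.one_le_sqrt.mpr hy]
        calc 160 / y ^ 4 = 160 * (1 / y) / y ^ 3 := by field_simp
          _ ≤ cK * (1 / √y) / y ^ 3 := by
            gcongr
            unfold cK
            nlinarith
      calc ENNReal.ofReal (160 / y ^ 4 *
          (1 / (i : ℝ) ^ 2 * (1 / (j : ℝ) ^ 2 + 1 / ((i + j : ℤ) : ℝ) ^ 2)))
          ≤ ENNReal.ofReal (cK * (1 / √y) / y ^ 3 *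
          (1 / (i : ℝ) ^ 2 * (1 / (j : ℝ) ^ 2 + 1 / ((i + j : ℤ) : ℝ) ^ 2))) := by
            refine ENNReal.ofReal_le_ofReal ?_
            gcongr
        _ = _ := by
            unfold uE
            rw [ENNReal.ofReal_mul (by positivity), ENNReal.ofReal_mul (by positivity),
              ENNReal.ofReal_add (by positivity) (by positivity)]

private theorem RR_bd {y : ℝ} (hy : 1 ≤ y) :
    ‖RR y‖ₑ ≤ ENNReal.ofReal (cK * (1 / √y) / y ^ 3) *
      (ENNReal.ofReal zz * (ENNReal.ofReal zz + ENNReal.ofReal zz + 1)) := by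
  unfold RR
  refine enorm_tsum_le_tsum_enorm.trans ?_
  calc ∑' x : (ℤ × ℤ) × (ℤ × ℤ),
        ‖(if x.1.1 = 0 ∨ x.1.1 + x.2.1 = 0 then 0 else (cw x.1.1 x.2.1 : ℂ) * KK y x)‖ₑ
      = ∑' i : ℤ, ∑' j : ℤ, ∑' n : ℤ, ∑' k : ℤ,
        ‖(if i = 0 ∨ i + j = 0 then 0 else (cw i j : ℂ) * KK y ((i, n), (j, k)))‖ₑ := by
        rw [ENNReal.tsum_prod', ENNReal.tsum_prod']
        refine tsum_congr fun i => ?_
        have : ∀ g : ℤ → ℤ → ℤ → ℝ≥0∞, ∑' n : ℤ, ∑' j : ℤ, ∑' k : ℤ, g n j k =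
            ∑' j : ℤ, ∑' n : ℤ, ∑' k : ℤ, g n j k := fun g => ENNReal.tsum_comm
        rw [← this fun n j k => ‖(if i = 0 ∨ i + j = 0 then 0 else (cw i j : ℂ) * KK y ((i, n), (j, k)))‖ₑ]
        refine tsum_congr fun n => ?_
        exact ENNReal.tsum_prod'
    _ ≤ ∑' i : ℤ, ∑' j : ℤ, ENNReal.ofReal (cK * (1 / √y) / y ^ 3) *
        (uE i * (uE j + uE (i + j) + if j = 0 then 1 else 0)) :=
        ENNReal.tsum_le_tsum fun i => ENNReal.tsum_le_tsum fun j => blk hy i j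
    _ = _ := by
        simp_rw [ENNReal.tsum_mul_left, ENNReal.tsum_add]
        have h1 : ∀ i : ℤ, ∑' j : ℤ, uE (i + j) = ENNReal.ofReal zz := fun i => by
          rw [← zE]
          exact (Equiv.addLeft i).tsum_eq uE
        simp_rw [h1, zE, tsum_ite_eq, ENNReal.tsum_mul_right, zE]

theorem RR_lim : Tendsto (fun y : ℝ => (y : ℂ) ^ 3 * RR y) atTop (𝓝 0) := by
  set w : ℝ≥0∞ := ENNReal.ofReal zz * (ENNReal.ofReal zz + ENNReal.ofReal zz + 1) with hw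
  have hwt : w ≠ ⊤ := by
    rw [hw]
    exact ENNReal.mul_ne_top ENNReal.ofReal_ne_top
      (ENNReal.add_ne_top.mpr ⟨ENNReal.add_ne_top.mpr ⟨ENNReal.ofReal_ne_top,
        ENNReal.ofReal_ne_top⟩, ENNReal.one_ne_top⟩)
  have hz := zz_nonneg
  have hcK : 0 ≤ cK := by unfold cK; positivity
  have hb : ∀ y : ℝ, 1 ≤ y → ‖(y : ℂ) ^ 3 * RR y‖ ≤ cK * w.toReal * (√y)⁻¹ := by
    intro y hy
    have hy0 : 0 < y := by linarith
    have h1 := RR_bd hy
    have h2 : ‖RR y‖ ≤ cK * (1 / √y) / y ^ 3 * w.toReal := by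
      rw [← toReal_enorm, ← ENNReal.toReal_ofReal (r := cK * (1 / √y) / y ^ 3) (by positivity),
        ← ENNReal.toReal_mul]
      exact ENNReal.toReal_mono (ENNReal.mul_ne_top ENNReal.ofReal_ne_top hwt) h1
    rw [norm_mul, norm_pow, Complex.norm_real, Real.norm_eq_abs, abs_of_pos hy0]
    calc y ^ 3 * ‖RR y‖ ≤ y ^ 3 * (cK * (1 / √y) / y ^ 3 * w.toReal) := by gcongr
      _ = cK * w.toReal * (√y)⁻¹ := by
        field_simp
  have hlim : Tendsto (fun y : ℝ => cK * w.toReal * (√y)⁻¹) atTop (𝓝 0) := by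
    have := (Real.tendsto_sqrt_atTop.inv_tendsto_atTop).const_mul (cK * w.toReal)
    simpa using this
  refine squeeze_zero_norm' ?_ hlim
  filter_upwards [eventually_ge_atTop (1 : ℝ)] with y hy using hb y hy

private theorem norm_sK (y : ℝ) (v : ℤ × ℤ) : ‖(sw v.1 : ℂ) * K1 y v‖ ≤ 20 * ‖iv y v‖ ^ 6 := by
  rw [norm_mul, K1, norm_term, Complex.norm_real, Real.norm_eq_abs]
  exact mul_le_mul_of_nonneg_right (sw_abs v.1) (by positivity)

private theorem RS_bd {y : ℝ} (hy : 1 ≤ y) :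
    ‖RS y‖ₑ ≤ ENNReal.ofReal (80 / y ^ 5) * ENNReal.ofReal zz := by
  have hy0 : 0 < y := by linarith
  unfold RS
  refine enorm_tsum_le_tsum_enorm.trans ?_
  rw [ENNReal.tsum_prod', ← zE, ← ENNReal.tsum_mul_left]
  refine ENNReal.tsum_le_tsum fun m => ?_
  by_cases hm : m = 0
  · simp [hm]
  · have hI := one_le_abs hm
    have hpt : ∀ n : ℤ, ‖(if m = 0 then 0 else (sw m : ℂ) * K1 y (m, n))‖ₑ ≤
        ENNReal.ofReal (20 * (1 / (|(m : ℝ)| * y)) ^ 4) * ENNReal.ofReal (‖iv y (m, n)‖ ^ 2) := by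
      intro n
      rw [if_neg hm, ← ofReal_norm, ← ENNReal.ofReal_mul (by positivity)]
      refine ENNReal.ofReal_le_ofReal ((norm_sK y (m, n)).trans ?_)
      have h1 := norm_iv_le hy0 hm n
      calc 20 * ‖iv y (m, n)‖ ^ 6 = 20 * ‖iv y (m, n)‖ ^ 4 * ‖iv y (m, n)‖ ^ 2 := by ring
        _ ≤ 20 * (1 / (|(m : ℝ)| * y)) ^ 4 * ‖iv y (m, n)‖ ^ 2 := by gcongr
    calc ∑' n : ℤ, ‖(if m = 0 then 0 else (sw m : ℂ) * K1 y (m, n))‖ₑ
        ≤ ∑' n : ℤ, ENNReal.ofReal (20 * (1 / (|(m : ℝ)| * y)) ^ 4) *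
          ENNReal.ofReal (‖iv y (m, n)‖ ^ 2) := ENNReal.tsum_le_tsum hpt
      _ = ENNReal.ofReal (20 * (1 / (|(m : ℝ)| * y)) ^ 4) * aE y m := by
          rw [ENNReal.tsum_mul_left]
          rfl
      _ ≤ ENNReal.ofReal (20 * (1 / (|(m : ℝ)| * y)) ^ 4) *
            ENNReal.ofReal (4 / (|(m : ℝ)| * y)) := by
          gcongr
          exact aE_le hy hm
      _ = ENNReal.ofReal (20 * (1 / (|(m : ℝ)| * y)) ^ 4 * (4 / (|(m : ℝ)| * y))) := by
          rw [← ENNReal.ofReal_mul (by positivity)]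
      _ ≤ ENNReal.ofReal (80 / y ^ 5 * (1 / (m : ℝ) ^ 2)) := by
          refine ENNReal.ofReal_le_ofReal ?_
          rw [← sq_abs (m : ℝ)]
          set I := |(m : ℝ)|
          have hI0 : 0 < I := by linarith
          have e : 20 * (1 / (I * y)) ^ 4 * (4 / (I * y)) = 80 / y ^ 5 * (1 / I ^ 5) := by
            field_simp
            ring
          rw [e]
          have h25 : I ^ 2 ≤ I ^ 5 := pow_le_pow_right₀ hI (by norm_num)
          gcongr
      _ = _ := by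
          rw [ENNReal.ofReal_mul (by positivity)]
          rfl

theorem RS_lim : Tendsto (fun y : ℝ => (y : ℂ) ^ 3 * RS y) atTop (𝓝 0) := by
  have hz := zz_nonneg
  have hb : ∀ y : ℝ, 1 ≤ y → ‖(y : ℂ) ^ 3 * RS y‖ ≤ 80 * zz * y⁻¹ := by
    intro y hy
    have hy0 : 0 < y := by linarith
    have h1 := RS_bd hy
    have h2 : ‖RS y‖ ≤ 80 / y ^ 5 * zz := by
      rw [← toReal_enorm, ← ENNReal.toReal_ofReal (r := 80 / y ^ 5 * zz) (by positivity)]
      refine ENNReal.toReal_mono ENNReal.ofReal_ne_top (h1.trans (le_of_eq ?_))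
      rw [ENNReal.ofReal_mul (by positivity)]
    rw [norm_mul, norm_pow, Complex.norm_real, Real.norm_eq_abs, abs_of_pos hy0]
    calc y ^ 3 * ‖RS y‖ ≤ y ^ 3 * (80 / y ^ 5 * zz) := by gcongr
      _ = 80 * zz * (1 / y ^ 2) := by
        field_simp
      _ ≤ 80 * zz * y⁻¹ := by
        gcongr
        rw [← one_div]
        gcongr
        nlinarith
  have hlim : Tendsto (fun y : ℝ => 80 * zz * y⁻¹) atTop (𝓝 0) := by
    have := (tendsto_inv_atTop_zero (𝕜 := ℝ)).const_mul (80 * zz)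
    simpa using this
  refine squeeze_zero_norm' ?_ hlim
  filter_upwards [eventually_ge_atTop (1 : ℝ)] with y hy using hb y hy

end RVP
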