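import Mathlib
import Pool.Agent.RVP.Defs
import Pool.Agent.RVP.Bas
import Pool.Agent.RVP.Wt
import Pool.Agent.RVP.Sh
import Pool.Agent.RVP.Ker
import Pool.Agent.RVP.LimB
import Pool.Agent.RVP.LimR

/-!
# RVP/LimD: `y³ D2(y) → (7π³/27) ζ(3)`

`D2 = (2/3) Σ_j ψ(j) B0(j) + RR + RS`:
* `B0_neg`: the block `(i,-i)` is `-B0(i)`: with `k = a + b` the summand is `k⁻² p⁻² p̄⁻¹ (k - p̄)⁻¹ = -k⁻³ p⁻² ((p̄-k)⁻¹ - p̄⁻¹)`;
  the second part sums to `0` (odd in `k`), the first is `-KK ((0,k),(i,a-k))`; careful with `p = 0` when `i = 0` (only `i ≠ 0` is needed).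
* `B0_zero`: the block `(0,0)`: `Σ 1/(a³ b (a+b)²) = -(1/2) Σ_a a⁻⁶`: for `p+q+r' = 0` (`r' = -(a+b)`) all nonzero
  `p⁻³q⁻¹r'⁻² = p⁻²r'⁻²·(pq)⁻¹ = -p⁻²r'⁻² ((qr')⁻¹ + (r'p)⁻¹)`, so `T = -T - Σ_{p+r' ≠ 0} p⁻³r'⁻³ = -T - Σ_a a⁻⁶`.
* `cw 0 0 · (-(1/2)) + sw 0 = 0`, `wt_lim`.
-/

set_option autoImplicit false

open Filter Topology

namespace RVP

variable {y : ℝ}

private theorem LimD_KK (hy : 0 < y) : Summable (KK y) := by
  have h := ker_summable hy (a := 3) (b := 1) (c := 2) le_rfl (by norm_num) (by norm_num)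
    (by norm_num)
  refine Summable.of_norm (h.congr fun x => ?_)
  exact (norm_KK y x).symm

/-- the involution `(a,b) ↦ (a+b,-b)` -/
private def LimD_e : ℤ × ℤ ≃ ℤ × ℤ where
  toFun z := (z.1 + z.2, -z.2)
  invFun z := (z.1 + z.2, -z.2)
  left_inv z := by ext <;> simp
  right_inv z := by ext <;> simp

private theorem LimD_pt0 (y : ℝ) (k : ℤ) : pt y (0, k) = (k : ℂ) := by
  unfold pt
  apply Complex.ext <;> simp

private theorem LimD_iv0 (y : ℝ) (k : ℤ) : iv y (0, k) = (k : ℂ)⁻¹ := by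
  unfold iv
  rw [LimD_pt0]

private theorem LimD_ic0 (y : ℝ) (k : ℤ) : ic y (0, k) = (k : ℂ)⁻¹ := by
  unfold ic
  rw [LimD_pt0]
  simp

private theorem LimD_cube : Summable (fun k : ℤ => ((k : ℂ)⁻¹) ^ 3) ∧
    ∑' k : ℤ, ((k : ℂ)⁻¹) ^ 3 = 0 := by
  constructor
  · have h := row_summable (y := 1) (a := 3) (b := 0) one_pos (by norm_num) 0
    refine h.congr fun k => ?_
    rw [LimD_iv0]
    simp
  · have h := (Equiv.neg ℤ).tsum_eq (fun k : ℤ => ((k : ℂ)⁻¹) ^ 3)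
    have h2 : ∑' k : ℤ, ((((Equiv.neg ℤ) k : ℤ) : ℂ)⁻¹) ^ 3 =
        -∑' k : ℤ, ((k : ℂ)⁻¹) ^ 3 := by
      rw [← tsum_neg]
      refine tsum_congr fun k => ?_
      simp only [Equiv.neg_apply, Int.cast_neg, inv_neg]
      ring
    rw [h2] at h
    have h3 : (2 : ℂ) * ∑' k : ℤ, ((k : ℂ)⁻¹) ^ 3 = 0 := by linear_combination -h
    simpa using h3

theorem B0_neg (hy : 0 < y) {i : ℤ} (hi : i ≠ 0) :
    ∑' z : ℤ × ℤ, KK y ((i, z.1), (-i, z.2)) = -B0 y i := by
  have h1 := block_summable (LimD_KK hy) (i, -i)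
  have h2 := block_summable (LimD_KK hy) (0, i)
  have h3 : Summable fun z : ℤ × ℤ => KK y ((0, z.1 + z.2), (i, -z.2)) :=
    (LimD_e.summable_iff (f := fun z : ℤ × ℤ => KK y ((0, z.1), (i, z.2)))).2 h2
  have h4 : B0 y i = ∑' z : ℤ × ℤ, KK y ((0, z.1 + z.2), (i, -z.2)) :=
    (LimD_e.tsum_eq (fun z : ℤ × ℤ => KK y ((0, z.1), (i, z.2)))).symm
  have h5 : ∀ z : ℤ × ℤ, KK y ((i, z.1), (-i, z.2)) + KK y ((0, z.1 + z.2), (i, -z.2)) =
      iv y (i, z.1) ^ 2 * ic y (i, z.1) ^ 1 * (((z.1 + z.2 : ℤ) : ℂ)⁻¹) ^ 3 := by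
    rintro ⟨a, b⟩
    unfold KK
    have e1 : ((i, a) : ℤ × ℤ) + (-i, b) = (0, a + b) := by simp
    have e2 : ((0, a + b) : ℤ × ℤ) + (i, -b) = (i, a) := by simp
    simp only [e1, e2]
    rw [LimD_iv0, LimD_ic0]
    have hp : pt y (i, a) ≠ 0 := by
      rw [Ne, pt_eq_zero hy]
      intro h
      exact hi (congrArg Prod.fst h)
    have hq : pt y (-i, b) ≠ 0 := by
      rw [Ne, pt_eq_zero hy]
      intro h
      exact hi (neg_eq_zero.1 (congrArg Prod.fst h))
    have hq2 : pt y (i, -b) = -pt y (-i, b) := by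
      rw [← pt_neg]
      simp
    have hpq : pt y (-i, b) = ((a + b : ℤ) : ℂ) - pt y (i, a) := by
      have h := pt_add y (i, a) (-i, b)
      rw [e1, LimD_pt0] at h
      rw [h]
      ring
    have hc : (starRingEnd ℂ) (pt y (-i, b)) =
        ((a + b : ℤ) : ℂ) - (starRingEnd ℂ) (pt y (i, a)) := by
      rw [hpq, map_sub]
      congr 1
      exact map_intCast _ _
    have hcp : (starRingEnd ℂ) (pt y (i, a)) ≠ 0 := by
      rw [Ne, map_eq_zero]
      exact hp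
    have hcq : (starRingEnd ℂ) (pt y (-i, b)) ≠ 0 := by
      rw [Ne, map_eq_zero]
      exact hq
    unfold iv ic
    rw [hq2, map_neg, hc]
    rw [hc] at hcq
    generalize (starRingEnd ℂ) (pt y (i, a)) = P at *
    generalize pt y (i, a) = p at *
    generalize ((a + b : ℤ) : ℂ) = k at *
    rcases eq_or_ne k 0 with hk | hk
    · rw [hk]
      simp
    · field_simp
      ring
  have hr : Summable fun n : ℤ => iv y (i, n) ^ 2 * ic y (i, n) ^ 1 :=
    row_summable hy (by norm_num) i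
  have h6 := (tsum_pr hr LimD_cube.1).2
  rw [LimD_cube.2, mul_zero] at h6
  have h7 : ∑' z : ℤ × ℤ, KK y ((i, z.1), (-i, z.2)) +
      ∑' z : ℤ × ℤ, KK y ((0, z.1 + z.2), (i, -z.2)) = 0 := by
    rw [← h1.tsum_add h3, ← h6]
    exact tsum_congr h5
  rw [h4]
  exact eq_neg_of_add_eq_zero_left h7

theorem B0_zero (y : ℝ) : B0 y 0 = -(1 / 2) * ∑' n : ℤ, K1 y (0, n) := by
  have h2' := block_summable (LimD_KK (y := 1) one_pos) (0, 0)
  have hKy : ∀ z : ℤ × ℤ, KK y ((0, z.1), (0, z.2)) = KK 1 ((0, z.1), (0, z.2)) := by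
    rintro ⟨a, b⟩
    unfold KK
    have e1 : ((0, a) : ℤ × ℤ) + (0, b) = (0, a + b) := by simp
    simp only [e1, LimD_iv0, LimD_ic0]
  have h2 : Summable fun z : ℤ × ℤ => KK y ((0, z.1), (0, z.2)) := by
    refine h2'.congr fun z => ?_
    rw [hKy z]
  have h3 : Summable fun z : ℤ × ℤ => KK y ((0, z.1 + z.2), (0, -z.2)) :=
    (LimD_e.summable_iff (f := fun z : ℤ × ℤ => KK y ((0, z.1), (0, z.2)))).2 h2
  have h4 : B0 y 0 = ∑' z : ℤ × ℤ, KK y ((0, z.1 + z.2), (0, -z.2)) :=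
    (LimD_e.tsum_eq (fun z : ℤ × ℤ => KK y ((0, z.1), (0, z.2)))).symm
  have hf : Summable fun n : ℤ => K1 y (0, n) := by
    have h := row_summable (y := 1) (a := 4) (b := 2) one_pos (by norm_num) 0
    refine h.congr fun k => ?_
    unfold K1
    simp only [LimD_iv0, LimD_ic0]
  have hd : HasSum (fun n : ℤ => if n = 0 then (1 : ℂ) else 0) 1 := by
    have h := hasSum_ite_eq (0 : ℤ) (1 : ℂ)
    exact h
  have h5 : ∀ z : ℤ × ℤ, KK y ((0, z.1), (0, z.2)) + KK y ((0, z.1 + z.2), (0, -z.2)) =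
      ((z.1 : ℂ)⁻¹) ^ 3 * (((z.1 + z.2 : ℤ) : ℂ)⁻¹) ^ 3 -
        K1 y (0, z.1) * (if z.2 = 0 then (1 : ℂ) else 0) := by
    rintro ⟨a, b⟩
    unfold KK K1
    have e1 : ((0, a) : ℤ × ℤ) + (0, b) = (0, a + b) := by simp
    have e2 : ((0, a + b) : ℤ × ℤ) + (0, -b) = (0, a) := by simp
    simp only [e1, e2, LimD_iv0, LimD_ic0]
    rcases eq_or_ne b 0 with hb | hb
    · subst hb
      simp
      ring
    · rw [if_neg hb]
      have hb' : (b : ℂ) ≠ 0 := by exact_mod_cast hb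
      rcases eq_or_ne a 0 with ha | ha
      · subst ha
        simp
      · have ha' : (a : ℂ) ≠ 0 := by exact_mod_cast ha
        rcases eq_or_ne (a + b) 0 with hc | hc
        · rw [hc]
          simp
        · have hc' : ((a + b : ℤ) : ℂ) ≠ 0 := by exact_mod_cast hc
          push_cast at hc' ⊢
          field_simp
          ring
  have h6 := tsum_pr LimD_cube.1 LimD_cube.1
  have h7 := tsum_pq hf hd.summable
  rw [LimD_cube.2, mul_zero] at h6
  rw [hd.tsum_eq, mul_one] at h7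
  have h8 : B0 y 0 + B0 y 0 = 0 - ∑' n : ℤ, K1 y (0, n) := by
    nth_rw 2 [h4]
    unfold B0
    rw [← h2.tsum_add h3, ← h7.2]
    nth_rw 1 [← h6.2]
    rw [← h6.1.tsum_sub h7.1]
    exact tsum_congr h5
  linear_combination h8 / 2

private theorem LimD_split {F : ℤ × ℤ → ℂ} (hF : Summable F) :
    Summable (fun j : ℤ => F (0, j)) ∧ Summable (fun i : ℤ => if i = 0 then 0 else F (i, -i)) ∧
    ∑' w, F w = ∑' j : ℤ, F (0, j) + ∑' i : ℤ, (if i = 0 then 0 else F (i, -i)) +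
      ∑' w : ℤ × ℤ, (if w.1 = 0 ∨ w.1 + w.2 = 0 then 0 else F w) := by
  have i1 : Function.Injective (fun j : ℤ => ((0, j) : ℤ × ℤ)) := fun a b h => by
    simpa using h
  have i2 : Function.Injective (fun j : ℤ => ((j, -j) : ℤ × ℤ)) := fun a b h => by
    simpa using congrArg Prod.fst h
  have s1 : Summable (fun j : ℤ => F (0, j)) := hF.comp_injective i1
  have s2' : Summable (fun i : ℤ => F (i, -i)) := hF.comp_injective i2
  have s2 : Summable (fun i : ℤ => if i = 0 then 0 else F (i, -i)) := by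
    refine Summable.of_norm_bounded s2'.norm fun i => ?_
    split_ifs
    · rw [norm_zero]
      exact norm_nonneg _
    · exact le_rfl
  have sA : Summable (fun w : ℤ × ℤ => if w.1 = 0 then F w else 0) := by
    refine Summable.of_norm_bounded hF.norm fun i => ?_
    split_ifs
    · exact le_rfl
    · rw [norm_zero]
      exact norm_nonneg _
  have sB : Summable (fun w : ℤ × ℤ => if w.1 ≠ 0 ∧ w.1 + w.2 = 0 then F w else 0) := by
    refine Summable.of_norm_bounded hF.norm fun i => ?_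
    split_ifs
    · exact le_rfl
    · rw [norm_zero]
      exact norm_nonneg _
  have sC : Summable (fun w : ℤ × ℤ => if w.1 = 0 ∨ w.1 + w.2 = 0 then 0 else F w) := by
    refine Summable.of_norm_bounded hF.norm fun i => ?_
    split_ifs
    · rw [norm_zero]
      exact norm_nonneg _
    · exact le_rfl
  refine ⟨s1, s2, ?_⟩
  have tA : ∑' j : ℤ, F (0, j) = ∑' w : ℤ × ℤ, (if w.1 = 0 then F w else 0) := by
    rw [← i1.tsum_eq]
    · refine tsum_congr fun j => ?_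
      simp
    · intro w hw
      rw [Function.mem_support] at hw
      have h0 : w.1 = 0 := by
        by_contra h
        exact hw (if_neg h)
      exact ⟨w.2, by ext <;> simp [h0]⟩
  have tB : ∑' i : ℤ, (if i = 0 then 0 else F (i, -i)) =
      ∑' w : ℤ × ℤ, (if w.1 ≠ 0 ∧ w.1 + w.2 = 0 then F w else 0) := by
    rw [← i2.tsum_eq]
    · refine tsum_congr fun j => ?_
      by_cases h : j = 0
      · simp [h]
      · simp [h]
    · intro w hw
      rw [Function.mem_support] at hw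
      have h0 : w.1 ≠ 0 ∧ w.1 + w.2 = 0 := by
        by_contra h
        exact hw (if_neg h)
      refine ⟨w.1, ?_⟩
      have : w.2 = -w.1 := by linarith [h0.2]
      ext
      · rfl
      · simp [this]
  rw [tA, tB, ← sA.tsum_add sB, ← (sA.add sB).tsum_add sC]
  refine tsum_congr fun w => ?_
  by_cases h1 : w.1 = 0
  · simp [h1]
  · by_cases h2 : w.1 + w.2 = 0
    · simp [h1, h2]
    · simp [h1, h2]

theorem D2_split (hy : 0 < y) :
    D2 y = 2 / 3 * ∑' j : ℤ, (ps j : ℂ) * B0 y j + RR y + RS y := by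
  have hf := cKK_summable hy
  have hF := blocks_summable hf
  obtain ⟨s1, s2, e⟩ := LimD_split hF
  -- the remaining part
  have hg : Summable fun x : (ℤ × ℤ) × (ℤ × ℤ) =>
      if x.1.1 = 0 ∨ x.1.1 + x.2.1 = 0 then 0 else (cw x.1.1 x.2.1 : ℂ) * KK y x := by
    refine Summable.of_norm_bounded hf.norm fun i => ?_
    split_ifs
    · rw [norm_zero]
      exact norm_nonneg _
    · exact le_rfl
  have hRR : RR y = ∑' w : ℤ × ℤ, (if w.1 = 0 ∨ w.1 + w.2 = 0 then 0 else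
      ∑' z : ℤ × ℤ, (cw w.1 w.2 : ℂ) * KK y ((w.1, z.1), (w.2, z.2))) := by
    unfold RR
    rw [tsum_blocks hg]
    refine tsum_congr fun w => ?_
    by_cases h : w.1 = 0 ∨ w.1 + w.2 = 0
    · simp only [if_pos h]
      simp
    · simp only [if_neg h]
  have hK : Summable fun v : ℤ × ℤ => (sw v.1 : ℂ) * K1 y v := K1_summable hy
  have hKa : Summable fun v : ℤ × ℤ => if v.1 = 0 then 0 else (sw v.1 : ℂ) * K1 y v := by
    refine Summable.of_norm_bounded hK.norm fun i => ?_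
    split_ifs
    · rw [norm_zero]
      exact norm_nonneg _
    · exact le_rfl
  have hKb : Summable fun v : ℤ × ℤ => if v.1 = 0 then (sw v.1 : ℂ) * K1 y v else 0 := by
    refine Summable.of_norm_bounded hK.norm fun i => ?_
    split_ifs
    · exact le_rfl
    · rw [norm_zero]
      exact norm_nonneg _
  have i1 : Function.Injective (fun j : ℤ => ((0, j) : ℤ × ℤ)) := fun a b h => by
    simpa using h
  have hRS : ∑' v : ℤ × ℤ, (sw v.1 : ℂ) * K1 y v =
      RS y + (sw 0 : ℂ) * ∑' n : ℤ, K1 y (0, n) := by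
    have t : (sw 0 : ℂ) * ∑' n : ℤ, K1 y (0, n) =
        ∑' v : ℤ × ℤ, if v.1 = 0 then (sw v.1 : ℂ) * K1 y v else 0 := by
      rw [← tsum_mul_left, ← i1.tsum_eq]
      · refine tsum_congr fun j => ?_
        simp
      · intro w hw
        rw [Function.mem_support] at hw
        have h0 : w.1 = 0 := by
          by_contra h
          exact hw (if_neg h)
        exact ⟨w.2, by ext <;> simp [h0]⟩
    rw [t]
    unfold RS
    rw [← hKa.tsum_add hKb]
    refine tsum_congr fun v => ?_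
    by_cases h : v.1 = 0
    · simp [h]
    · simp [h]
  -- first sum
  have r1 : ∀ j : ℤ, ∑' z : ℤ × ℤ, (cw (0, j).1 (0, j).2 : ℂ) * KK y (((0, j).1, z.1), ((0, j).2, z.2)) =
      (cw 0 j : ℂ) * B0 y j := by
    intro j
    unfold B0
    rw [← tsum_mul_left]
  have r2 : ∀ i : ℤ, (if i = 0 then (0 : ℂ) else
      ∑' z : ℤ × ℤ, (cw (i, -i).1 (i, -i).2 : ℂ) * KK y (((i, -i).1, z.1), ((i, -i).2, z.2))) =
      if i = 0 then 0 else -((cw i (-i) : ℂ) * B0 y i) := by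
    intro i
    by_cases h : i = 0
    · simp [h]
    · rw [if_neg h, if_neg h]
      have hb := B0_neg hy h
      rw [← mul_neg, ← hb, ← tsum_mul_left]
  have s1' : Summable fun j : ℤ => (cw 0 j : ℂ) * B0 y j := s1.congr fun j => r1 j
  have s2' : Summable fun i : ℤ => (if i = 0 then 0 else -((cw i (-i) : ℂ) * B0 y i)) :=
    s2.congr fun j => r2 j
  have hd : Summable fun n : ℤ => if n = 0 then (cw 0 0 : ℂ) * B0 y 0 else 0 :=
    (hasSum_ite_eq (0 : ℤ) ((cw 0 0 : ℂ) * B0 y 0)).summable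
  have hd2 : ∑' n : ℤ, (if n = 0 then (cw 0 0 : ℂ) * B0 y 0 else 0) = (cw 0 0 : ℂ) * B0 y 0 :=
    (hasSum_ite_eq (0 : ℤ) ((cw 0 0 : ℂ) * B0 y 0)).tsum_eq
  have hp : ∀ j : ℤ, (cw 0 j : ℂ) * B0 y j + (if j = 0 then 0 else -((cw j (-j) : ℂ) * B0 y j)) =
      2 / 3 * ((ps j : ℂ) * B0 y j) + (if j = 0 then (cw 0 0 : ℂ) * B0 y 0 else 0) := by
    intro j
    have hw : (cw 0 j : ℂ) - (cw j (-j) : ℂ) = 2 / 3 * (ps j : ℂ) := by
      have := wt_lim j
      have h2 : ((cw 0 j - cw j (-j) : ℝ) : ℂ) = ((2 / 3 * ps j : ℝ) : ℂ) := by rw [this]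
      push_cast at h2
      exact h2
    by_cases h : j = 0
    · subst h
      simp only [neg_zero] at hw
      simp only [if_true]
      have : (ps 0 : ℂ) = 0 := by
        have h3 : (2 : ℂ) / 3 * (ps 0 : ℂ) = 0 := by
          rw [← hw]
          ring
        simpa using h3
      rw [this]
      ring
    · rw [if_neg h, if_neg h]
      linear_combination B0 y j * hw
  have sps : Summable fun j : ℤ => 2 / 3 * ((ps j : ℂ) * B0 y j) := by
    refine ((s1'.add s2').sub hd).congr fun j => ?_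
    rw [hp j]
    ring
  have hsum : ∑' j : ℤ, (cw 0 j : ℂ) * B0 y j +
      ∑' i : ℤ, (if i = 0 then 0 else -((cw i (-i) : ℂ) * B0 y i)) =
      2 / 3 * ∑' j : ℤ, (ps j : ℂ) * B0 y j + (cw 0 0 : ℂ) * B0 y 0 := by
    rw [← s1'.tsum_add s2', ← tsum_mul_left, ← hd2, ← sps.tsum_add hd]
    exact tsum_congr hp
  have htot : ∑' x : (ℤ × ℤ) × (ℤ × ℤ), (cw x.1.1 x.2.1 : ℂ) * KK y x =
      2 / 3 * ∑' j : ℤ, (ps j : ℂ) * B0 y j + (cw 0 0 : ℂ) * B0 y 0 + RR y := by
    rw [tsum_blocks hf, ← hsum, hRR]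
    rw [e]
    congr 1
    congr 1
    · exact tsum_congr r1
    · exact tsum_congr r2
  unfold D2
  rw [htot, hRS, B0_zero]
  have hc : (cw 0 0 : ℂ) = -(13 / 3) := by
    rw [cw_zero]
    push_cast
    ring
  have hs : (sw 0 : ℂ) = -(13 / 6) := by
    rw [sw_zero]
    push_cast
    ring
  rw [hc, hs]
  ring

theorem D2_lim : Tendsto (fun y : ℝ => (y : ℂ) ^ 3 * D2 y) atTop
    (𝓝 ((7 * Real.pi ^ 3 / 27 * RV15W.z3 : ℝ) : ℂ)) := by
  have h1 := (B0_lim.const_mul (2 / 3 : ℂ)).add (RR_lim.add RS_lim)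
  have h2 : (2 / 3 : ℂ) * ((7 * Real.pi ^ 3 / 18 * RV15W.z3 : ℝ) : ℂ) + (0 + 0) =
      ((7 * Real.pi ^ 3 / 27 * RV15W.z3 : ℝ) : ℂ) := by
    push_cast
    ring
  rw [h2] at h1
  refine h1.congr' ?_
  filter_upwards [eventually_gt_atTop (0 : ℝ)] with y hy
  rw [D2_split hy]
  ring

end RVP
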