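import Mathlib
import Pool.Agent.RVP.Defs
import Pool.Agent.RV15W.Bas

/-!
# RVP/LrE: `lr = 2 ell`

`lr y = log ‖-64 q ff q‖`, `q = qm y = qr y` real, `‖q‖ = exp (-2πy)`, so
`lr y = 6 log 2 - 2πy + 6 (log rE(q²) + log rE(q⁶) - log rE(q) - log rE(q³))` (`rE q > 0`, `Eu_ofReal`),
`log rE(q) = Σ_n log (1 - q^{n+1}) = -Σ_{n,j} q^{(n+1)j}/j`, and
`log rE(q²)/rE(q) = Σ_n log (1 + q^{n+1}) = Σ_{n,j} (-1)^{j-1} q^{(n+1)j}/j` etc.
-/

set_option autoImplicit false

namespace RVP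

variable {y : ℝ}

private theorem LrE_abs_lt {q : ℝ} (hq : |q| < 1) (n : ℕ) : |q ^ (n + 1)| < 1 := by
  rw [abs_pow]
  exact pow_lt_one₀ (abs_nonneg q) hq (Nat.succ_ne_zero n)

private theorem LrE_summable {q : ℝ} (hq : |q| < 1) :
    Summable fun n : ℕ => Real.log (1 - q ^ (n + 1)) := by
  have h : Summable fun n : ℕ => -q ^ (n + 1) :=
    ((summable_nat_add_iff 1).mpr (summable_geometric_of_abs_lt_one hq)).neg
  simpa only [← sub_eq_add_neg] using Real.summable_log_one_add_of_summable h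

private theorem LrE_pos {q : ℝ} (hq : |q| < 1) (n : ℕ) : 0 < 1 - q ^ (n + 1) := by
  have := (abs_lt.mp (LrE_abs_lt hq n)).2
  linarith

theorem log_rE {q : ℝ} (hq : |q| < 1) :
    Real.log (RV15W.rE q) = ∑' n : ℕ, Real.log (1 - q ^ (n + 1)) := by
  unfold RV15W.rE
  rw [← Real.rexp_tsum_eq_tprod (LrE_pos hq) (LrE_summable hq), Real.log_exp]

private theorem LrE_sg (m : ℕ) : sg ((m : ℤ) + 1) = (-1) ^ (m + 1) := by
  unfold sg
  rcases Nat.even_or_odd' (m + 1) with ⟨k, hk | hk⟩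
  · have h1 : ((m : ℤ) + 1) % 2 = 0 := by omega
    rw [if_pos h1, hk, pow_mul]; norm_num
  · have h1 : ¬ ((m : ℤ) + 1) % 2 = 0 := by omega
    rw [if_neg h1, hk, pow_succ, pow_mul]; norm_num

/-- `Σ sg(j) x^j / j = - log (1+x)` -/
private theorem LrE_one {x : ℝ} (hx : |x| < 1) :
    HasSum (fun j : ℕ => sg ((j : ℤ) + 1) * x ^ (j + 1) / ((j : ℝ) + 1)) (-Real.log (1 + x)) := by
  have h := Real.hasSum_pow_div_log_of_abs_lt_one (x := -x) (by rwa [abs_neg])
  rw [sub_neg_eq_add] at h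
  convert! h using 1
  funext j
  rw [LrE_sg, ← mul_pow]
  congr 2
  ring

private theorem LrE_three {x : ℝ} (hx : |x| < 1) :
    HasSum (fun j : ℕ => sg ((j : ℤ) + 1) * (3 * t3 ((j : ℤ) + 1)) * x ^ (j + 1) / ((j : ℝ) + 1))
      (-Real.log (1 + x ^ 3)) := by
  have hx3 : |x ^ 3| < 1 := by
    rw [abs_pow]
    exact pow_lt_one₀ (abs_nonneg x) hx (by norm_num)
  have hinj : Function.Injective (fun k : ℕ => 3 * k + 2) := by
    intro a b hab
    have : 3 * a + 2 = 3 * b + 2 := hab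
    omega
  rw [← hinj.hasSum_iff]
  · convert! LrE_one hx3 using 1
    funext k
    simp only [Function.comp_apply]
    have h1 : t3 (((3 * k + 2 : ℕ) : ℤ) + 1) = 1 := by
      unfold t3
      rw [if_pos (by push_cast; omega)]
    have h2 : sg (((3 * k + 2 : ℕ) : ℤ) + 1) = sg ((k : ℤ) + 1) := by
      unfold sg
      push_cast
      by_cases h : ((k : ℤ) + 1) % 2 = 0
      · rw [if_pos h, if_pos (by omega)]
      · rw [if_neg h, if_neg (by omega)]
    have h3 : x ^ (3 * k + 2 + 1) = (x ^ 3) ^ (k + 1) := by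
      rw [← pow_mul]; congr 1
    rw [h1, h2, h3]
    push_cast
    have h4 : (k : ℝ) + 1 ≠ 0 := by positivity
    have h5 : (3 * (k : ℝ) + 2 + 1) ≠ 0 := by positivity
    field_simp
    ring
  · intro j hj
    have : t3 ((j : ℤ) + 1) = 0 := by
      unfold t3
      rw [if_neg]
      intro h
      apply hj
      refine ⟨(j - 2) / 3, ?_⟩
      show 3 * ((j - 2) / 3) + 2 = j
      omega
    rw [this]; ring

private theorem LrE_both {x : ℝ} (hx : |x| < 1) :
    HasSum (fun j : ℕ => ph ((j : ℤ) + 1) * x ^ (j + 1) / ((j : ℝ) + 1))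
      (-Real.log (1 + x) + -Real.log (1 + x ^ 3)) := by
  convert! (LrE_one hx).add (LrE_three hx) using 1
  funext j
  unfold ph
  ring

private theorem LrE_ph_le (m : ℤ) : |ph m| ≤ 4 := by
  have h1 : |sg m| = 1 := by unfold sg; split_ifs <;> simp
  have h2 : |1 + 3 * t3 m| ≤ 4 := by
    unfold t3; split_ifs <;> norm_num
  unfold ph
  rw [abs_mul, h1, one_mul]
  exact h2

private theorem LrE_dsum {q : ℝ} (hq : |q| < 1) :
    Summable fun x : ℕ × ℕ =>
      ph ((x.2 : ℤ) + 1) * q ^ ((x.1 + 1) * (x.2 + 1)) / ((x.2 : ℝ) + 1) := by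
  have hg : Summable fun x : ℕ × ℕ => |q| ^ x.1 * |q| ^ x.2 :=
    (summable_geometric_of_lt_one (abs_nonneg q) hq).mul_of_nonneg
      (summable_geometric_of_lt_one (abs_nonneg q) hq) (fun _ => by positivity)
      (fun _ => by positivity)
  refine Summable.of_norm_bounded (hg.mul_left 4) fun x => ?_
  rw [Real.norm_eq_abs, abs_div, abs_mul, abs_pow]
  have h1 : |q| ^ ((x.1 + 1) * (x.2 + 1)) ≤ |q| ^ x.1 * |q| ^ x.2 := by
    rw [← pow_add]
    exact pow_le_pow_of_le_one (abs_nonneg q) hq.le (by nlinarith)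
  have h2 : (1 : ℝ) ≤ |(x.2 : ℝ) + 1| := by
    rw [abs_of_pos (by positivity)]
    have : (0 : ℝ) ≤ x.2 := by positivity
    linarith
  calc |ph ((x.2 : ℤ) + 1)| * |q| ^ ((x.1 + 1) * (x.2 + 1)) / |(x.2 : ℝ) + 1|
      ≤ |ph ((x.2 : ℤ) + 1)| * |q| ^ ((x.1 + 1) * (x.2 + 1)) :=
        div_le_self (by positivity) h2
    _ ≤ 4 * (|q| ^ x.1 * |q| ^ x.2) :=
        mul_le_mul (LrE_ph_le _) h1 (by positivity) (by norm_num)

private theorem LrE_diff {q : ℝ} (hq : |q| < 1) :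
    HasSum (fun n : ℕ => -Real.log (1 + q ^ (n + 1)))
      (Real.log (RV15W.rE q) - Real.log (RV15W.rE (q ^ 2))) := by
  have hq2 : |q ^ 2| < 1 := by
    rw [abs_pow]
    exact pow_lt_one₀ (abs_nonneg q) hq (by norm_num)
  rw [log_rE hq, log_rE hq2]
  convert! (LrE_summable hq).hasSum.sub (LrE_summable hq2).hasSum using 1
  funext n
  have h1 := LrE_pos hq n
  have h2 : 0 < 1 + q ^ (n + 1) := by
    have := (abs_lt.mp (LrE_abs_lt hq n)).1
    linarith
  have h3 : 1 - (q ^ 2) ^ (n + 1) = (1 - q ^ (n + 1)) * (1 + q ^ (n + 1)) := by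
    rw [← pow_mul, mul_comm 2 (n + 1), pow_mul]; ring
  rw [h3, Real.log_mul h1.ne' h2.ne']
  ring

private theorem LrE_Lq {q : ℝ} (hq : |q| < 1) :
    ∑' x : ℕ × ℕ, ph ((x.2 : ℤ) + 1) * q ^ ((x.1 + 1) * (x.2 + 1)) / ((x.2 : ℝ) + 1) =
      (Real.log (RV15W.rE q) - Real.log (RV15W.rE (q ^ 2))) +
      (Real.log (RV15W.rE (q ^ 3)) - Real.log (RV15W.rE (q ^ 6))) := by
  have hq3 : |q ^ 3| < 1 := by
    rw [abs_pow]
    exact pow_lt_one₀ (abs_nonneg q) hq (by norm_num)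
  rw [(LrE_dsum hq).tsum_prod]
  have h1 : ∀ n : ℕ, ∑' j : ℕ, ph ((j : ℤ) + 1) * q ^ ((n + 1) * (j + 1)) / ((j : ℝ) + 1) =
      -Real.log (1 + q ^ (n + 1)) + -Real.log (1 + (q ^ 3) ^ (n + 1)) := by
    intro n
    have h := (LrE_both (LrE_abs_lt hq n)).tsum_eq
    have e : (q ^ 3) ^ (n + 1) = (q ^ (n + 1)) ^ 3 := by rw [← pow_mul, ← pow_mul]; ring_nf
    rw [e, ← h]
    refine tsum_congr fun j => ?_
    rw [← pow_mul]
  simp only [h1]
  have h2 := (LrE_diff hq).add (LrE_diff hq3)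
  rw [h2.tsum_eq]
  congr 3
  rw [← pow_mul]

theorem lr_eq (hy : 0 < y) : RV15W.lr y = 2 * ell y := by
  have hexp : Real.exp (-(2 * Real.pi * y)) < 1 := by
    rw [Real.exp_lt_one_iff]
    have := mul_pos Real.pi_pos hy
    linarith
  have hq : |qr y| < 1 := by
    unfold qr
    rw [abs_neg, abs_of_pos (Real.exp_pos _)]
    exact hexp
  have hqn : qr y ≠ 0 := by
    unfold qr
    exact neg_ne_zero.mpr (Real.exp_pos _).ne'
  have habs : |qr y| = Real.exp (-(2 * Real.pi * y)) := by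
    unfold qr
    rw [abs_neg, abs_of_pos (Real.exp_pos _)]
  have hk : ∀ k : ℕ, k ≠ 0 → |qr y ^ k| < 1 := by
    intro k hk
    rw [abs_pow]
    exact pow_lt_one₀ (abs_nonneg _) hq hk
  have hqm : RV15W.qm y = ((qr y : ℝ) : ℂ) := by
    unfold RV15W.qm qr; push_cast; rfl
  have p1 := RV15W.rE_pos hq
  have p2 := RV15W.rE_pos (hk 2 (by norm_num))
  have p3 := RV15W.rE_pos (hk 3 (by norm_num))
  have p6 := RV15W.rE_pos (hk 6 (by norm_num))
  have hw : RV15W.wq (RV15W.qm y) = ((-64 * qr y * ((RV15W.rE (qr y ^ 2) * RV15W.rE (qr y ^ 6)) /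
      (RV15W.rE (qr y) * RV15W.rE (qr y ^ 3))) ^ 6 : ℝ) : ℂ) := by
    unfold RV15W.wq RV15W.ff
    rw [hqm]
    simp only [← Complex.ofReal_pow]
    rw [RV15W.Eu_ofReal hq, RV15W.Eu_ofReal (hk 2 (by norm_num)),
      RV15W.Eu_ofReal (hk 3 (by norm_num)), RV15W.Eu_ofReal (hk 6 (by norm_num))]
    push_cast
    ring
  have hL : Lq y = (Real.log (RV15W.rE (qr y)) - Real.log (RV15W.rE (qr y ^ 2))) +
      (Real.log (RV15W.rE (qr y ^ 3)) - Real.log (RV15W.rE (qr y ^ 6))) := by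
    unfold Lq
    exact LrE_Lq hq
  unfold RV15W.lr
  rw [hw, Complex.norm_real, Real.norm_eq_abs, abs_mul, abs_mul, abs_pow,
    abs_of_pos (div_pos (mul_pos p2 p6) (mul_pos p1 p3)), habs]
  have h64 : |(-64 : ℝ)| = 2 ^ 6 := by norm_num
  rw [h64, Real.log_mul (by positivity) (by positivity), Real.log_mul (by positivity) (by positivity),
    Real.log_pow, Real.log_pow, Real.log_exp, Real.log_div (by positivity) (by positivity),
    Real.log_mul p2.ne' p6.ne', Real.log_mul p1.ne' p3.ne']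
  unfold ell
  rw [hL]
  push_cast
  ring

end RVP
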