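import Mathlib
import Pool.Agent.RVP.Defs
import Pool.Agent.RVP.Bas
import Pool.Agent.RVP.Wt

/-!
# RVP/Ode: the derivative of `W_31`

`2y d/dy (p^{-3} p̄^{-1}) = -4 p^{-3}p̄^{-1} + 3 p^{-4} + p^{-2}p̄^{-2}`; `W_ab` is the absolutely convergent lattice sum
(`tsum_rows`, `|ψ| ≤ 16`), differentiate termwise on `Ioo (y/2) (2y)`.
-/

set_option autoImplicit false

namespace RVP

variable {y : ℝ}

open scoped ComplexConjugate in
private lemma Ode_pt (t : ℝ) (v : ℤ × ℤ) :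
    HasDerivAt (fun t : ℝ => pt t v) (v.1 * Complex.I) t ∧
      HasDerivAt (fun t : ℝ => conj (pt t v)) (-(v.1 * Complex.I)) t := by
  have h1 : ∀ t : ℝ, pt t v = ((v.2 : ℝ) - v.1 / 2 : ℝ) + (v.1 * Complex.I) * (t : ℂ) := by
    intro t
    apply Complex.ext <;> simp [pt]
  have h2 : ∀ t : ℝ, conj (pt t v) = ((v.2 : ℝ) - v.1 / 2 : ℝ) + (-(v.1 * Complex.I)) * (t : ℂ) := by
    intro t
    apply Complex.ext <;> simp [pt]
  have h3 : HasDerivAt (fun t : ℝ => (t : ℂ)) 1 t := Complex.ofRealCLM.hasDerivAt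
  constructor
  · simp only [h1]
    simpa using (h3.const_mul (v.1 * Complex.I)).const_add (((v.2 : ℝ) - v.1 / 2 : ℝ) : ℂ)
  · simp only [h2]
    simpa using (h3.const_mul (-(v.1 * Complex.I))).const_add (((v.2 : ℝ) - v.1 / 2 : ℝ) : ℂ)

private lemma Ode_im (t : ℝ) (v : ℤ × ℤ) :
    2 * (t : ℂ) * (v.1 * Complex.I) = pt t v - (starRingEnd ℂ) (pt t v) := by
  apply Complex.ext
  · simp [pt]
  · simp [pt]
    ring

private lemma Ode_term {t : ℝ} (ht : 0 < t) (v : ℤ × ℤ) :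
    HasDerivAt (fun t : ℝ => iv t v ^ 3 * ic t v ^ 1)
      ((iv t v ^ 2 * ic t v ^ 2 + 3 * (iv t v ^ 4 * ic t v ^ 0) - 4 * (iv t v ^ 3 * ic t v ^ 1)) /
        (2 * t)) t := by
  by_cases hv : v = 0
  · subst hv
    have h1 : (fun t : ℝ => iv t 0 ^ 3 * ic t 0 ^ 1) = fun _ => 0 := by
      funext t
      rw [iv_zero]
      simp
    rw [h1, iv_zero]
    simpa using hasDerivAt_const t (0 : ℂ)
  · have hp : pt t v ≠ 0 := fun h => hv ((pt_eq_zero ht).1 h)
    have hp' : (starRingEnd ℂ) (pt t v) ≠ 0 := by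
      intro h
      exact hp (by simpa using congrArg (starRingEnd ℂ) h)
    obtain ⟨d1, d2⟩ := Ode_pt t v
    have e1 := d1.fun_inv hp
    have e2 := d2.fun_inv hp'
    have e3 := (e1.pow 3).mul (e2.pow 1)
    refine HasDerivAt.congr_deriv (f := fun t : ℝ => iv t v ^ 3 * ic t v ^ 1) e3 ?_
    have ht' : (t : ℂ) ≠ 0 := by exact_mod_cast ht.ne'
    have h2 := Ode_im t v
    have h3 : (v.1 : ℂ) * Complex.I = (pt t v - (starRingEnd ℂ) (pt t v)) / (2 * t) := by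
      rw [← h2]
      field_simp
    unfold iv ic
    rw [h3]
    simp only [Pi.pow_apply]
    clear e1 e2 e3 d1 d2 h2 h3
    generalize (starRingEnd ℂ) (pt t v) = Q at *
    generalize pt t v = P at *
    norm_num
    field_simp
    ring

private lemma Ode_summable (hy : 0 < y) {a b : ℕ} (h : 3 ≤ a + b) :
    Summable fun v : ℤ × ℤ => (ps v.1 : ℂ) * (iv y v ^ a * ic y v ^ b) := by
  refine Summable.of_norm_bounded (g := fun v : ℤ × ℤ => 16 * ‖iv y v‖ ^ (a + b))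
    ((summable_iv hy h).mul_left 16) fun v => ?_
  rw [norm_mul, norm_term, Complex.norm_real, Real.norm_eq_abs]
  exact mul_le_mul_of_nonneg_right (ps_abs _) (by positivity)

private lemma Ode_rows (hy : 0 < y) {a b : ℕ} (h : 3 ≤ a + b) :
    ∑' v : ℤ × ℤ, (ps v.1 : ℂ) * (iv y v ^ a * ic y v ^ b) = W y a b := by
  unfold W
  refine tsum_rows hy h (fun m => (ps m : ℂ)) (C := 16) fun m => ?_
  rw [Complex.norm_real, Real.norm_eq_abs]
  exact ps_abs m

theorem W31_deriv (hy : 0 < y) :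
    HasDerivAt (fun t : ℝ => W t 3 1) ((W y 2 2 + 3 * W y 4 0 - 4 * W y 3 1) / (2 * y)) y := by
  set g : ℤ × ℤ → ℝ → ℂ := fun v t => (ps v.1 : ℂ) * (iv t v ^ 3 * ic t v ^ 1) with hg
  set g' : ℤ × ℤ → ℝ → ℂ := fun v t => (ps v.1 : ℂ) *
    ((iv t v ^ 2 * ic t v ^ 2 + 3 * (iv t v ^ 4 * ic t v ^ 0) - 4 * (iv t v ^ 3 * ic t v ^ 1)) /
        (2 * t)) with hg'
  have hy2 : y ∈ Set.Ioo (y / 2) (2 * y) := ⟨by linarith, by linarith⟩
  have hu : Summable fun v : ℤ × ℤ => (128 / y) * ‖iv (y / 2) v‖ ^ 4 :=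
    (summable_iv (k := 4) (half_pos hy) (by norm_num)).mul_left _
  have hd : ∀ v t, t ∈ Set.Ioo (y / 2) (2 * y) → HasDerivAt (g v) (g' v t) t := by
    intro v t ht
    exact (Ode_term (by linarith [ht.1] : 0 < t) v).const_mul _
  have hb : ∀ v t, t ∈ Set.Ioo (y / 2) (2 * y) → ‖g' v t‖ ≤ (128 / y) * ‖iv (y / 2) v‖ ^ 4 := by
    intro v t ht
    have ht0 : 0 < t := by linarith [ht.1]
    have h1 : ‖iv t v‖ ≤ ‖iv (y / 2) v‖ := norm_iv_anti (half_pos hy) ht.1.le v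
    have h2 : ‖iv t v ^ 2 * ic t v ^ 2 + 3 * (iv t v ^ 4 * ic t v ^ 0) -
        4 * (iv t v ^ 3 * ic t v ^ 1)‖ ≤ 8 * ‖iv t v‖ ^ 4 := by
      refine (norm_sub_le _ _).trans ?_
      have h3 := norm_add_le (iv t v ^ 2 * ic t v ^ 2) (3 * (iv t v ^ 4 * ic t v ^ 0))
      rw [norm_mul (3 : ℂ), norm_term, norm_term] at h3
      rw [norm_mul (4 : ℂ), norm_term]
      have h4 : ‖(3 : ℂ)‖ = 3 := by simp
      have h5 : ‖(4 : ℂ)‖ = 4 := by simp
      rw [h4] at h3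
      rw [h5]
      norm_num at h3 ⊢
      linarith
    have h6 : ‖(2 * t : ℂ)‖ = 2 * t := by
      rw [norm_mul, Complex.norm_real, Real.norm_of_nonneg ht0.le]
      simp
    rw [hg']
    simp only
    rw [norm_mul, norm_div, h6, Complex.norm_real, Real.norm_eq_abs]
    have h7 : ‖iv t v‖ ^ 4 ≤ ‖iv (y / 2) v‖ ^ 4 := by gcongr
    calc |ps v.1| * (‖iv t v ^ 2 * ic t v ^ 2 + 3 * (iv t v ^ 4 * ic t v ^ 0) -
        4 * (iv t v ^ 3 * ic t v ^ 1)‖ / (2 * t))
        ≤ 16 * (8 * ‖iv (y / 2) v‖ ^ 4 / y) := by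
          refine mul_le_mul (ps_abs _) ?_ (by positivity) (by norm_num)
          refine div_le_div₀ (by positivity) (h2.trans ?_) hy (by linarith [ht.1])
          linarith
      _ = 128 / y * ‖iv (y / 2) v‖ ^ 4 := by ring
  have key := hasDerivAt_tsum_of_isPreconnected hu isOpen_Ioo isPreconnected_Ioo hd hb hy2
    (Ode_summable hy (a := 3) (b := 1) (by norm_num)) hy2
  have hev : (fun t : ℝ => W t 3 1) =ᶠ[nhds y] fun t => ∑' v, g v t := by
    filter_upwards [Ioi_mem_nhds hy] with t ht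
    exact (Ode_rows ht (a := 3) (b := 1) (by norm_num)).symm
  refine (key.congr_of_eventuallyEq hev).congr_deriv ?_
  have s1 := Ode_summable hy (a := 2) (b := 2) (by norm_num)
  have s2 := Ode_summable hy (a := 4) (b := 0) (by norm_num)
  have s3 := Ode_summable hy (a := 3) (b := 1) (by norm_num)
  rw [← Ode_rows hy (a := 2) (b := 2) (by norm_num), ← Ode_rows hy (a := 4) (b := 0) (by norm_num),
    ← Ode_rows hy (a := 3) (b := 1) (by norm_num), ← tsum_mul_left, ← tsum_mul_left,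
    ← s1.tsum_add (s2.mul_left 3), ← (s1.add (s2.mul_left 3)).tsum_sub (s3.mul_left 4),
    ← tsum_div_const]
  refine tsum_congr fun v => ?_
  rw [hg']
  ring

end RVP
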