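import Mathlib
import Pool.Agent.RVP.Defs
import Pool.Agent.RVP.Der
import Pool.Agent.RVP.Asm
import Pool.Agent.RVP.GG
import Pool.Agent.RVP.Ell
import Pool.Agent.RVP.LrE
import Pool.Agent.RVP.FPsi
import Pool.Agent.RVP.Ode
import Pool.Agent.RVP.LimW
import Pool.Agent.RVP.LimD
import Pool.Agent.RV15W.Lr
import Pool.Agent.RV15W.CM

/-!
# RVP/Main: `96 ∫_{y0}^∞ s Ps lr ds = (27/π⁵) y0³ D2(y0) - 7 z3/(2π²)`
-/

set_option autoImplicit false

open MeasureTheory Set Filter Topology Asymptotics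

namespace RVP

/-- the primitive -/
noncomputable def HH (y : ℝ) : ℂ :=
  (y : ℂ) ^ 3 * D2 y - 2 * Real.pi / 9 * ((y : ℂ) ^ 2 * W y 3 1 * (ell y : ℂ))

theorem HH_deriv {y : ℝ} (hy : 0 < y) :
    HasDerivAt HH ((-(32 * Real.pi ^ 5 / 9) * (y * RV15W.Ps y * RV15W.lr y) : ℝ) : ℂ) y := by
  have h1 := D2_deriv hy
  have h2 := W31_deriv hy
  have h3 : HasDerivAt (fun t : ℝ => (ell t : ℂ)) ((dell y : ℝ) : ℂ) y := (ell_deriv hy).ofReal_comp
  have h4 : HasDerivAt (fun t : ℝ => (t : ℂ) ^ 2) (2 * (y : ℂ)) y := by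
    have h := ((hasDerivAt_id y).ofReal_comp).mul ((hasDerivAt_id y).ofReal_comp)
    refine (h.congr_deriv (by simp; ring)).congr_of_eventuallyEq (Eventually.of_forall fun t => ?_)
    simp [pow_two]
  have h5 := (h4.mul h2).mul h3
  have h6 := h1.sub (h5.const_mul (2 * (Real.pi : ℂ) / 9))
  have hy' : (y : ℂ) ≠ 0 := by exact_mod_cast hy.ne'
  refine h6.congr_deriv ?_
  simp only [DD_eq hy, e2_eq hy, G, F_eq hy, lr_eq hy, Pi.mul_apply]
  push_cast
  field_simp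
  ring

theorem HH_lim : Tendsto HH atTop (𝓝 ((7 * Real.pi ^ 3 / 54 * RV15W.z3 : ℝ) : ℂ)) := by
  have h1 := D2_lim
  have h2 := W31_lim
  have h3 : Tendsto (fun y : ℝ => ((ell y / y : ℝ) : ℂ)) atTop (𝓝 ((-Real.pi : ℝ) : ℂ)) :=
    (Complex.continuous_ofReal.tendsto _).comp ell_lim
  have h4 := h1.sub ((h2.mul h3).const_mul (2 * (Real.pi : ℂ) / 9))
  have h5 : ((7 * Real.pi ^ 3 / 54 * RV15W.z3 : ℝ) : ℂ) =
      ((7 * Real.pi ^ 3 / 27 * RV15W.z3 : ℝ) : ℂ) -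
        2 * (Real.pi : ℂ) / 9 * (((-(7 * Real.pi / 12 * RV15W.z3) : ℝ) : ℂ) * ((-Real.pi : ℝ) : ℂ)) := by
    push_cast
    ring
  rw [h5]
  refine h4.congr' ?_
  filter_upwards [eventually_gt_atTop 0] with y hy
  have hy' : (y : ℂ) ≠ 0 := by exact_mod_cast hy.ne'
  unfold HH
  push_cast
  field_simp

theorem int_ok {y0 : ℝ} (h0 : 0 < y0) :
    IntegrableOn (fun s : ℝ => s * RV15W.Ps s * RV15W.lr s) (Ioi y0) := by
  have hcont : ContinuousOn (fun s : ℝ => s * RV15W.Ps s * RV15W.lr s) (Ici y0) := by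
    have h1 : ContinuousOn RV15W.Ps (Ici y0) :=
      RV15W.Ps_cont.mono fun x hx => lt_of_lt_of_le h0 hx
    have h2 : ContinuousOn RV15W.lr (Ici y0) := by
      intro x hx
      have hx' : 0 < x := lt_of_lt_of_le h0 hx
      exact (RV15W.lr_deriv hx').continuousAt.continuousWithinAt
    exact (continuousOn_id.mul h1).mul h2
  obtain ⟨C, hC⟩ := RV15W.Ps_le h0
  have hP : RV15W.Ps =O[atTop] fun s : ℝ => Real.exp (-(2 * Real.pi * s)) := by
    refine IsBigO.of_bound C ?_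
    filter_upwards [eventually_ge_atTop y0] with s hs
    rw [Real.norm_eq_abs, Real.norm_of_nonneg (Real.exp_pos _).le]
    exact hC s hs
  have hl : RV15W.lr =O[atTop] fun s : ℝ => s := by
    have h1 : (fun s : ℝ => ell s / s) =O[atTop] fun _ : ℝ => (1 : ℝ) := ell_lim.isBigO_one ℝ
    have h2 : (fun s : ℝ => s * (2 * (ell s / s))) =O[atTop] fun s : ℝ => s * (2 * 1) :=
      (isBigO_refl (fun s : ℝ => s) atTop).mul (h1.const_mul_left 2 |>.trans (by
        simpa using (isBigO_refl (fun _ : ℝ => (1:ℝ)) atTop).const_mul_right (two_ne_zero)))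
    have h3 : RV15W.lr =ᶠ[atTop] fun s : ℝ => s * (2 * (ell s / s)) := by
      filter_upwards [eventually_gt_atTop 0] with s hs
      rw [lr_eq hs]
      field_simp
    refine (h3.trans_isBigO h2).trans ?_
    refine IsBigO.of_bound 2 ?_
    filter_upwards with s
    rw [norm_mul]
    norm_num
    linarith [abs_nonneg s]
  have hall : (fun s : ℝ => s * RV15W.Ps s * RV15W.lr s) =O[atTop]
      fun s : ℝ => Real.exp (-1 * s) := by
    have h1 := ((isBigO_refl (fun s : ℝ => s) atTop).mul hP).mul hl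
    refine h1.trans ?_
    have h2 : (fun s : ℝ => s ^ 2) =O[atTop] fun s : ℝ => Real.exp (1 * s) :=
      (isLittleO_pow_exp_pos_mul_atTop (k := 2) (b := 1) one_pos).isBigO
    have h3 : (fun s : ℝ => s ^ 2 * Real.exp (-(2 * Real.pi * s))) =O[atTop]
        fun s : ℝ => Real.exp (1 * s) * Real.exp (-(2 * Real.pi * s)) :=
      h2.mul (isBigO_refl _ _)
    refine (IsBigO.congr_left (h3.trans ?_) ?_)
    · refine IsBigO.of_bound 1 ?_
      filter_upwards [eventually_ge_atTop 0] with s hs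
      rw [← Real.exp_add, one_mul (‖Real.exp (-1 * s)‖), Real.norm_of_nonneg (Real.exp_pos _).le,
        Real.norm_of_nonneg (Real.exp_pos _).le]
      refine Real.exp_le_exp.mpr ?_
      nlinarith [Real.pi_gt_three, mul_nonneg hs (sub_nonneg.mpr Real.pi_gt_three.le)]
    · intro s
      ring
  exact integrable_of_isBigO_exp_neg one_pos hcont hall

theorem rvp_main :
    (((96 * ∫ s in Ioi (Real.sqrt 15 / 6), s * RV15W.Ps s * RV15W.lr s : ℝ)) : ℂ) =
      27 / (Real.pi : ℂ) ^ 5 * ((Real.sqrt 15 / 6 : ℝ) : ℂ) ^ 3 * D2 (Real.sqrt 15 / 6)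
        - ((7 * RV15W.z3 / (2 * Real.pi ^ 2) : ℝ) : ℂ) := by
  have h0 : (0 : ℝ) < Real.sqrt 15 / 6 := by positivity
  set y0 : ℝ := Real.sqrt 15 / 6 with hy0
  have hint : IntegrableOn (fun s : ℝ =>
      ((-(32 * Real.pi ^ 5 / 9) * (s * RV15W.Ps s * RV15W.lr s) : ℝ) : ℂ)) (Ioi y0) :=
    ((int_ok h0).const_mul (-(32 * Real.pi ^ 5 / 9))).ofReal
  have hcont : ContinuousWithinAt HH (Ici y0) y0 := (HH_deriv h0).continuousAt.continuousWithinAt
  have hftc := integral_Ioi_of_hasDerivAt_of_tendsto hcont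
    (fun x hx => HH_deriv (h0.trans hx)) hint HH_lim
  have hH0 : HH y0 = (y0 : ℂ) ^ 3 * D2 y0 := by
    have h1 : ell y0 = 0 := by
      have h2 := lr_eq h0
      rw [hy0, RV15W.lr_cm] at h2
      rw [hy0]
      linarith
    unfold HH
    rw [h1]
    simp
  rw [hH0] at hftc
  have h5 : ∫ s in Ioi y0, ((-(32 * Real.pi ^ 5 / 9) * (s * RV15W.Ps s * RV15W.lr s) : ℝ) : ℂ) =
      ((-(32 * Real.pi ^ 5 / 9) * ∫ s in Ioi y0, s * RV15W.Ps s * RV15W.lr s : ℝ) : ℂ) := by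
    rw [integral_complex_ofReal, integral_const_mul]
  rw [h5] at hftc
  have hpi : (Real.pi : ℂ) ≠ 0 := by exact_mod_cast Real.pi_ne_zero
  push_cast at hftc ⊢
  have h6 : ((∫ s in Ioi y0, s * RV15W.Ps s * RV15W.lr s : ℝ) : ℂ) =
      -(9 / (32 * (Real.pi : ℂ) ^ 5)) * (7 * (Real.pi : ℂ) ^ 3 / 54 * RV15W.z3 - (y0 : ℂ) ^ 3 * D2 y0) := by
    rw [← hftc]
    field_simp
  rw [h6]
  field_simp
  ring

end RVP
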