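import Mathlib
import Pool.Agent.RVP.Defs
import Pool.Agent.RVP.Main
import Pool.Agent.RV15W.Main
import Pool.Agent.K3R.LFunFifteen

/-!
# RVP/Close: the last line of RV15, from the certificate `D2(y0) = -(5/12) LamB + (45/4) LamA`
-/

set_option autoImplicit false

open MeasureTheory Set

namespace RVP

theorem m5_D2 : (RV15W.m5 : ℂ) =
    27 / (Real.pi : ℂ) ^ 5 * ((Real.sqrt 15 / 6 : ℝ) : ℂ) ^ 3 * D2 (Real.sqrt 15 / 6) := by
  have h1 := rvp_main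
  have h2 := RV15W.walk_main
  rw [h2]
  push_cast at h1 ⊢
  linear_combination h1

theorem sqrt_three : ((Real.sqrt 15 / 6 : ℝ) : ℂ) ^ 3 = 15 * (Real.sqrt 15 : ℂ) / 216 := by
  have h : (Real.sqrt 15 / 6) ^ 3 = 15 * Real.sqrt 15 / 216 := by
    have h1 : Real.sqrt 15 ^ 2 = 15 := Real.sq_sqrt (by norm_num)
    calc (Real.sqrt 15 / 6) ^ 3 = Real.sqrt 15 ^ 2 * Real.sqrt 15 / 216 := by ring
      _ = _ := by rw [h1]
  have h2 := congrArg (fun x : ℝ => (x : ℂ)) h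
  simpa using h2

theorem close (hcert : D2 (Real.sqrt 15 / 6) = -(5 / 12) * EtaF.LamB + 45 / 4 * EtaF.LamA) :
    (RV15W.m5 : ℂ) = -deriv EtaF.L15 (-1) := by
  rw [m5_D2, hcert, sqrt_three, EtaF.deriv_L15, EtaF.L15_four]
  have h : (Real.sqrt 15 : ℂ) ^ 2 = 15 := by
    have h1 : Real.sqrt 15 ^ 2 = 15 := Real.sq_sqrt (by norm_num)
    exact_mod_cast congrArg (fun x : ℝ => (x : ℂ)) h1
  have h5 : (Real.sqrt 15 : ℂ) ^ 5 = 225 * (Real.sqrt 15 : ℂ) := by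
    calc (Real.sqrt 15 : ℂ) ^ 5 = ((Real.sqrt 15 : ℂ) ^ 2) ^ 2 * (Real.sqrt 15 : ℂ) := by ring
      _ = _ := by rw [h]; ring
  push_cast
  rw [div_pow, mul_pow, h5]
  have hpi : (Real.pi : ℂ) ≠ 0 := by exact_mod_cast Real.pi_ne_zero
  field_simp
  ring

end RVP
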