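import Mathlib
import Pool.Agent.RVP.Close

/-!
# RVP/Final: the statement of the hand-in, from the certificate
`hcert : D2(√15/6) = -(5/12) LamB + (45/4) LamA`
-/

set_option autoImplicit false

open MeasureTheory Set Complex

namespace RVP

/-- both closed forms of the Mahler measure of `1+x1+x2+x3+x4`, from the certificate -/
theorem final (hcert : D2 (Real.sqrt 15 / 6) = -(5 / 12) * EtaF.LamB + 45 / 4 * EtaF.LamA) :
    ∃ (a : ℕ → ℂ) (L : ℂ → ℂ),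
      (∀ z : ℂ, 0 < z.im → HasSum (fun n : ℕ => a n * cexp (2 * Real.pi * I * n * z))
        (ModularForm.eta (3 * z) ^ 3 * ModularForm.eta (5 * z) ^ 3 +
          ModularForm.eta z ^ 3 * ModularForm.eta (15 * z) ^ 3)) ∧
      Differentiable ℂ L ∧ (∀ s : ℂ, 2 < s.re → LSeriesHasSum a s (L s)) ∧
      ((∫ x₁ in (0:ℝ)..1, ∫ x₂ in (0:ℝ)..1, ∫ x₃ in (0:ℝ)..1, ∫ x₄ in (0:ℝ)..1,
        Real.log ‖1 + cexp (2 * Real.pi * x₁ * I) + cexp (2 * Real.pi * x₂ * I) +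
          cexp (2 * Real.pi * x₃ * I) + cexp (2 * Real.pi * x₄ * I)‖ : ℝ) : ℂ) = -deriv L (-1) ∧
      ((∫ x₁ in (0:ℝ)..1, ∫ x₂ in (0:ℝ)..1, ∫ x₃ in (0:ℝ)..1, ∫ x₄ in (0:ℝ)..1,
        Real.log ‖1 + cexp (2 * Real.pi * x₁ * I) + cexp (2 * Real.pi * x₂ * I) +
          cexp (2 * Real.pi * x₃ * I) + cexp (2 * Real.pi * x₄ * I)‖ : ℝ) : ℂ) =
        6 * ((Real.sqrt 15 / (2 * Real.pi)) ^ 5 : ℝ) * L 4 := by
  have h1 : (RV15W.m5 : ℂ) = -deriv EtaF.L15 (-1) := close hcert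
  have h2 : (RV15W.m5 : ℂ) = 6 * ((Real.sqrt 15 / (2 * Real.pi)) ^ 5 : ℝ) * EtaF.L15 4 := by
    rw [h1, EtaF.deriv_L15]
    ring
  exact ⟨EtaF.a15, EtaF.L15, fun _ hz => EtaF.eta15_series hz, EtaF.L15_diff,
    fun _ hs => EtaF.L15_LSeries hs, h1, h2⟩

end RVP
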